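import Pool.Agent.T2h88.GP.Stm

/-!
# Common lemmas for GP-DBL and GP-SUB (helper58)
-/

set_option autoImplicit false

namespace Pool.Agent.T2h88.GP.H58

open Pool.Agent.T2h88.GP

theorem two_prime : Prime (2 : ℤ) := Int.prime_two

theorem odd_C {h : ℕ} {A B C D : ℤ} (P : Pt h A B C D) : ¬ (2 : ℤ) ∣ C := by
  intro hC
  have := P.cop.isUnit_of_dvd' hC P.two
  exact two_prime.not_isUnit this

theorem odd_A {h : ℕ} {A B C D : ℤ} (P : Pt h A B C D) : ¬ (2 : ℤ) ∣ A := by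
  intro hA
  have h1 : (2 : ℤ) ∣ C ^ 2 := by
    have e : C ^ 2 = A ^ 2 + h * D ^ 2 := by linear_combination -P.eqA
    rw [e]
    exact dvd_add (dvd_pow hA two_ne_zero) (Dvd.dvd.mul_left (dvd_pow P.two two_ne_zero) _)
  exact odd_C P (two_prime.dvd_of_dvd_pow h1)

theorem odd_B {h : ℕ} {A B C D : ℤ} (P : Pt h A B C D) : ¬ (2 : ℤ) ∣ B := by
  intro hB
  have h1 : (2 : ℤ) ∣ C ^ 2 := by
    have e : C ^ 2 = B ^ 2 - h * D ^ 2 := by linear_combination -P.eqB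
    rw [e]
    exact dvd_sub (dvd_pow hB two_ne_zero) (Dvd.dvd.mul_left (dvd_pow P.two two_ne_zero) _)
  exact odd_C P (two_prime.dvd_of_dvd_pow h1)

theorem val_odd {z : ℤ} (hz : ¬ (2 : ℤ) ∣ z) : padicValInt 2 z = 0 :=
  padicValInt.eq_zero_of_not_dvd (by exact_mod_cast hz)

theorem ne_of_odd {z : ℤ} (hz : ¬ (2 : ℤ) ∣ z) : z ≠ 0 := by
  rintro rfl
  exact hz (dvd_zero _)

theorem odd_mul {a b : ℤ} (ha : ¬ (2 : ℤ) ∣ a) (hb : ¬ (2 : ℤ) ∣ b) : ¬ (2 : ℤ) ∣ a * b := by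
  intro h
  rcases two_prime.dvd_or_dvd h with h | h
  · exact ha h
  · exact hb h

/-- reduction to lowest terms -/
theorem reduce (h : ℕ) (A₁ B₁ C₁ D₁ : ℤ) (eA : A₁ ^ 2 = C₁ ^ 2 - h * D₁ ^ 2)
    (eB : B₁ ^ 2 = C₁ ^ 2 + h * D₁ ^ 2) (hC : ¬ (2 : ℤ) ∣ C₁) (hD : D₁ ≠ 0) (h2 : (2 : ℤ) ∣ D₁) :
    ∃ A B C D g : ℤ, Pt h A B C D ∧ ¬ (2 : ℤ) ∣ g ∧ C₁ = C * g ∧ D₁ = D * g := by
  have hC0 : C₁ ≠ 0 := ne_of_odd hC
  have hg0 : 0 < Int.gcd C₁ D₁ := Int.gcd_pos_of_ne_zero_left _ hC0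
  obtain ⟨C, D, hcd, e1, e2⟩ := Int.exists_gcd_one hg0
  obtain ⟨g, hg⟩ : ∃ g : ℤ, g = (Int.gcd C₁ D₁ : ℤ) := ⟨_, rfl⟩
  rw [← hg] at e1 e2
  have hgne : g ≠ 0 := by
    rw [hg]
    exact_mod_cast hg0.ne'
  have hgodd : ¬ (2 : ℤ) ∣ g := fun h => hC (by rw [e1]; exact h.mul_left _)
  have hA : g ∣ A₁ := by
    rw [← Int.pow_dvd_pow_iff two_ne_zero, eA, e1, e2]
    exact ⟨C ^ 2 - h * D ^ 2, by ring⟩
  have hB : g ∣ B₁ := by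
    rw [← Int.pow_dvd_pow_iff two_ne_zero, eB, e1, e2]
    exact ⟨C ^ 2 + h * D ^ 2, by ring⟩
  obtain ⟨A, rfl⟩ := hA
  obtain ⟨B, rfl⟩ := hB
  have hg2 : g ^ 2 ≠ 0 := pow_ne_zero _ hgne
  refine ⟨A, B, C, D, g, ⟨?_, ?_, Int.isCoprime_iff_gcd_eq_one.2 hcd, ?_, ?_⟩, hgodd, e1, e2⟩
  · apply mul_left_cancel₀ hg2
    rw [e1, e2] at eA
    linear_combination eA
  · apply mul_left_cancel₀ hg2
    rw [e1, e2] at eB
    linear_combination eB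
  · rintro rfl
    rw [zero_mul] at e2
    exact hD e2
  · rw [e2] at h2
    rcases two_prime.dvd_or_dvd h2 with h | h
    · exact h
    · exact absurd h hgodd

end Pool.Agent.T2h88.GP.H58
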