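import Mathlib

/-!
# Project GP: every congruent number is a difference of squarefree congruent numbers (helper88)

Target (hard problem MP_05dcdc_nt): let `h` be a congruent number (not necessarily squarefree), `M ≥ 1` and let
`k`, `k + h` be squarefree. Then at least `c X ^ (1/4)` integers `n ≤ X`, `n ≡ k (mod M)`, are such that `n` and
`n + h` are both squarefree congruent numbers.

Plan: from `h` we get integers with `j' ^ 4 = j ^ 4 + h q ^ 2`, `4 M ∣ q` (points on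
`C² - h D² = A²`, `C² + h D² = B²`, multiples of a point by the pigeonhole principle), and then
`n = (s ^ 4 - j' ^ 4) / q ^ 2`, `n + h = (s ^ 4 - j ^ 4) / q ^ 2` with `s` in a class modulo `N`.

Every task is independent. File for task XXX: `Pool/Agent/T2h88/GP/T_XXX.lean`, `import Pool.Agent.T2h88.GP.Stm`,
theorem `Pool.Agent.T2h88.GP.t_XXX : S_XXX` (the inputs named in the docstring are hypotheses, in the order given).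
-/

set_option autoImplicit false

namespace Pool.Agent.T2h88.GP

/-- `n` is the area of a right triangle with rational sides -/
def IsCongruent (n : ℕ) : Prop :=
  ∃ a b c : ℚ, 0 < a ∧ 0 < b ∧ 0 < c ∧ a ^ 2 + b ^ 2 = c ^ 2 ∧ (n : ℚ) = a * b / 2

/-- A point of the curve `A² = C² - h D²`, `B² = C² + h D²` in lowest terms with `D` even and not `0`. -/
structure Pt (h : ℕ) (A B C D : ℤ) : Prop where
  eqA : A ^ 2 = C ^ 2 - h * D ^ 2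
  eqB : B ^ 2 = C ^ 2 + h * D ^ 2
  cop : IsCoprime C D
  nz : D ≠ 0
  two : (2 : ℤ) ∣ D

/-- INI (80 lines). Proof: let `a b c` be the triangle with `a b / 2 = h`. Write `c / 2 = C / D` in lowest terms
(`C = (c/2).num`, `D = (c/2).den`). Then `((a - b)/2)² = (c/2)² - h` and `((a + b)/2)² = (c/2)² + h`, so
`(D (a - b)/2)² = C² - h D²` is an integer, so `A := D (a - b)/2` (a rational number whose square is an integer) is an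
integer; the same for `B := D (a + b)/2`. It remains to see that `D` is even: otherwise `D` odd. `A² + B² = 2 C²`,
`B² - A² = 2 h D²`; `A`, `B` have the same parity. If both are even, `4 ∣ 2 C²`, `C` is even, then `4 ∣ C² - A² = h D²`,
so `4 ∣ h`, which contradicts `Squarefree h`. If both are odd, `8 ∣ B² - A² = 2 h D²`, so `4 ∣ h D²`, `4 ∣ h`,
contradiction again. -/
def S_INI : Prop := ∀ h : ℕ, Squarefree h → IsCongruent h → ∃ A B C D : ℤ, Pt h A B C D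

/-- DBL (90 lines). Duplication. Put `A₁ = A² C² - h D² B²`, `B₁ = B² C² + h D² A²`, `C₁ = C⁴ + h² D⁴`,
`D₁ = 2 A B C D`. Then `A₁² = C₁² - h D₁²`, `B₁² = C₁² + h D₁²` (polynomial identities after the substitution of `A²`,
`B²`). `C` is odd (coprime to the even `D`), so `A`, `B`, `C₁` are odd. Let `g = gcd(C₁, D₁)`, odd; `g² ∣ A₁²`, so
`g ∣ A₁`, and `g ∣ B₁`. The new point is `(A₁/g, B₁/g, C₁/g, D₁/g)`; `D₁ / g` has 2-adic valuation `1 + v₂(D)`, since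
`A B C` and `g` are odd. -/
def S_DBL : Prop := ∀ (h : ℕ) (A B C D : ℤ), Pt h A B C D →
  ∃ A' B' C' D' : ℤ, Pt h A' B' C' D' ∧ padicValInt 2 D' = padicValInt 2 D + 1

/-- SUB (150 lines). The difference of two points which are congruent modulo `M`. Put
`A₃ = A₁A₂C₁C₂ + h D₁D₂B₁B₂`, `B₃ = B₁B₂C₁C₂ - h D₁D₂A₁A₂`, `C₃ = C₁²C₂² + h²D₁²D₂²`,
`D₃ = D₁C₁A₂B₂ - D₂C₂A₁B₁`. Then `A₃² = C₃² - h D₃²`, `B₃² = C₃² + h D₃²` (identities after substituting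
`A_i² = C_i² - h D_i²`, `B_i² = C_i² + h D_i²`). All `A_i, B_i, C_i` are odd, `C₃` is odd and positive, `D₃` is even, and
`D₃ ≠ 0` (otherwise `v₂(D₁) = v₂(D₂)`). Let `g = gcd(C₃, D₃)` (odd), `g ∣ A₃, B₃`; the point is
`(A₃/g, B₃/g, C₃/g, D₃/g) =: (A, B, C, D)`. Claim `M ∣ D`: let `p ^ e ∣ M`, `p` prime, `e ≥ 1`
(`Nat.dvd_iff_prime_pow_dvd_dvd`). Note `M ∣ D₃` and `M ∣ D₄ := D₁²C₂² - D₂²C₁²` by the congruences.
If `p ∤ C₃` then `p ∤ g` and `p ^ e ∣ D₃ = g D` gives `p ^ e ∣ D`. Let `p ∣ C₃`; so `p ≠ 2`. `p ∤ h`: otherwise `p ∣ C₁ C₂`, say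
`p ∣ C₁`, so `p ∣ A₁`, `p² ∣ h D₁²`, `p ∤ D₁`, `p² ∣ h`, contradiction to `Squarefree h`. Put `C₄ = D₁C₁A₂B₂ + D₂C₂A₁B₁`. Identity:
`D₃ C₄ = C₃ D₄`. Divided by `g`: `D C₄ = C D₄`, so `p ^ e ∣ D C₄`. Finally `p ∤ C₄`, because `C₄ ≡ 2 D₁C₁A₁B₁ (mod p)` and
`C₃ ≡ C₁⁴ + h²D₁⁴ (mod p)`: `p ∣ D₁` gives `p ∣ C₁`, contradiction; `p ∣ C₁` gives `p ∣ D₁`; `p ∣ A₁` gives
`C₁² ≡ h D₁²`, `0 ≡ C₃ ≡ 2 C₁⁴`, `p ∣ C₁`; `p ∣ B₁` the same with `C₁² ≡ - h D₁²`. -/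
def S_SUB : Prop := ∀ (h M : ℕ) (A₁ B₁ C₁ D₁ A₂ B₂ C₂ D₂ : ℤ), Squarefree h → 0 < M →
  Pt h A₁ B₁ C₁ D₁ → Pt h A₂ B₂ C₂ D₂ → padicValInt 2 D₁ ≠ padicValInt 2 D₂ →
  A₁ ≡ A₂ [ZMOD M] → B₁ ≡ B₂ [ZMOD M] → C₁ ≡ C₂ [ZMOD M] → D₁ ≡ D₂ [ZMOD M] →
  ∃ A B C D : ℤ, Pt h A B C D ∧ (M : ℤ) ∣ D

/-- REP (130 lines), `t_REP (h1 : S_INI) (h2 : S_DBL) (h3 : S_SUB) : S_REP`. Proof: `h = m² h₀`, `h₀` squarefree
(`Nat.sq_mul_squarefree`), `m > 0`. `h₀` is congruent (divide the sides by `m`). By INI and DBL there are points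
`P_i` (`i = 0, 1, 2, …`) for `h₀` with `v₂(D_i) = v₂(D_0) + i`. Let `M' = 2 m M`. By the pigeonhole principle
(`Finite.exists_ne_map_eq_of_infinite` for `ℕ → (ZMod M')⁴`) two of them are congruent modulo `M'`, so by SUB there is a
point `(A, B, C, D)` for `h₀` with `2 m M ∣ D`, `D = 2 m M E`. Put `j = |A|`, `j' = |B|`, `q = 4 M |C E|`
(so that `m q = |2 C D|`). `B⁴ - A⁴ = (B² - A²)(B² + A²) = 2 h₀ D² · 2 C² = h₀ (2 C D)² = h₀ m² q² = h q²`. `C` is odd (coprime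
to the even `D`), so `A`, `B` are odd, in particular not `0`, `C ≠ 0`, `q > 0`. Coprimality: a prime `p` dividing two
of `A`, `B`, `C` is odd and divides all three and `h₀ D²`, `p ∤ D`, so `p ∣ h₀`, `p² ∣ h₀ D²`, `p² ∣ h₀`, contradiction to
squarefree; a prime dividing `A` (or `B`) and `D` divides `C`. -/
def S_REP : Prop := ∀ h M : ℕ, 0 < h → 0 < M → IsCongruent h →
  ∃ j j' q : ℕ, j' ^ 4 = j ^ 4 + h * q ^ 2 ∧ 4 * M ∣ q ∧ 0 < q ∧ 0 < j ∧ 0 < j' ∧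
    Nat.Coprime j q ∧ Nat.Coprime j' q ∧ Nat.Coprime j j'

/-- HEN (80 lines). Induction on the number of prime factors of `N` (e.g. `induction N using Nat.recOnMul` or strong
induction): let `R = Q N`, `s ^ 4 ≡ c (mod R)`, `p` a prime with `p ∣ Q`. We want `s'` with `s' ^ 4 ≡ c (mod R p)`. Put
`s' = s + (R/4) t`. Since `16 ∣ R` and `p ∣ R`,
`s' ^ 4 = s ^ 4 + R s³ t + R (R/16) 6 s² t² + R R (R/16) s t³ + R (R/16)² R t⁴ ≡ s ^ 4 + R s³ t (mod R p)`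
(`p ∣ 6 (R/16)`: clear for `p = 2`, and for odd `p` we have `p ∣ R / 16`). `p ∤ s`, because `s ^ 4 ≡ c ≡ j ^ 4 (mod p)` and
`j` is prime to `Q`. So `t ≡ ((c - s ^ 4)/R) (s³)⁻¹ (mod p)` works. -/
def S_HEN : Prop := ∀ (Q N j : ℕ) (c : ℤ), 16 ∣ Q → 0 < Q → 0 < N →
  (∀ p : ℕ, p.Prime → p ∣ N → p ∣ Q) → Nat.Coprime j Q → c ≡ (j : ℤ) ^ 4 [ZMOD Q] →
  ∃ s : ℤ, s ^ 4 ≡ c [ZMOD (Q * N : ℕ)]

/-- LOC (170 lines), `t_LOC (hH : S_HEN) : S_LOC`. Proof. Let `K = M q ^ 2`. HEN with `Q = q ^ 2` (`16 ∣ q ^ 2`), `N = K`,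
`j'`, `c = j' ^ 4 + q ^ 2 k` gives `s₁` with `s₁ ^ 4 ≡ j' ^ 4 + q ^ 2 k (mod q ^ 2 K)`. So for `s ≡ s₁ (mod q ^ 2 K)`, `s > j'`:
`s ^ 4 - j' ^ 4 = q ^ 2 n` with `n ≡ k (mod K)`, in particular `n ≡ k (mod M)`, and for the primes `p ∣ q` we have `p ^ 2 ∣ K`, so
`p ^ 2 ∤ n` and `p ^ 2 ∤ n + h` as `k`, `k + h` are squarefree. `s ^ 4 = j ^ 4 + q ^ 2 (n + h)` follows from
`j' ^ 4 = j ^ 4 + h q ^ 2`. For the primes `p ≤ P`, `p ∤ q` (so `p` is odd) we prescribe `s` modulo `p ^ 2`: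
`s ≡ 0` if `p ∤ j j'` (then `p ∤ s ^ 4 - j' ^ 4`, `p ∤ s ^ 4 - j ^ 4`);
`s ≡ j' (1 + p)` if `p ∣ j` (then `p ∤ j'`, `s ^ 4 - j' ^ 4 ≡ 4 p j' ^ 4 (mod p ^ 2)` is not divisible by `p ^ 2`, and
`s ^ 4 - j ^ 4 ≡ j' ^ 4 (mod p)` is not divisible by `p`);
`s ≡ j (1 + p)` if `p ∣ j'` (the same with `j`, `j'` exchanged).
Chinese remainder theorem with `N = q ^ 2 K ∏ p ^ 2` (the product over the primes `p ≤ P`, `p ∤ q`; e.g.
`Nat.chineseRemainderOfFinset` or induction over the finset of primes). All primes of `N` divide `q` or are `≤ P`,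
and `q ≤ P`. -/
def S_LOC : Prop := ∀ h M k j j' q P : ℕ, 0 < M → Squarefree k → Squarefree (k + h) →
  j' ^ 4 = j ^ 4 + h * q ^ 2 → 4 * M ∣ q → 0 < q → 0 < j → 0 < j' →
  Nat.Coprime j q → Nat.Coprime j' q → Nat.Coprime j j' → q ≤ P →
  ∃ N s₀ : ℕ, 0 < N ∧ (∀ p : ℕ, p.Prime → p ∣ N → p ≤ P) ∧
    ∀ s : ℕ, j' < s → s ≡ s₀ [MOD N] →
      ∃ n : ℕ, s ^ 4 = j' ^ 4 + q ^ 2 * n ∧ s ^ 4 = j ^ 4 + q ^ 2 * (n + h) ∧ n ≡ k [MOD M] ∧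
        ∀ p : ℕ, p.Prime → p ≤ P → ¬ p ^ 2 ∣ n ∧ ¬ p ^ 2 ∣ n + h

/-- PEL (60 lines). Proof: let `s < s'` be two such numbers with `p < p'`. Then
`(s'p - sp')(s'p + sp') = (m p'² - j²) p² - (m p² - j²) p'² = j² (p' - p)(p' + p) > 0`, so `s'p - sp' ≥ 1`, and
`s'p + sp' ≥ S (p + p')`; hence `S ≤ j² (p' - p)`. So the map `s ↦ j² p / S` (natural number division, `p` is determined by
`s`) is injective: `j² p' ≥ j² p + S`. Its values are at most `j² (2 S + j) / S ≤ 2 j² + j³ ≤ 3 j³`, because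
`p² ≤ s² + j² ≤ (2 S + j)²`. -/
def S_PEL : Prop := ∀ j m S : ℕ, 0 < j → 0 < m → 0 < S →
  {s : ℕ | S < s ∧ s ≤ 2 * S ∧ ∃ p : ℕ, s ^ 2 + j ^ 2 = m * p ^ 2}.ncard ≤ 3 * j ^ 3 + 1

/-- BIG (50 lines), `t_BIG (hP : S_PEL) : S_BIG`. Proof: `s ^ 2 + j ^ 2 = m p ^ 2` with
`1 ≤ m ≤ (4 S² + j²)/y² ≤ (4 + j²) S² / y²`; so the set is contained in the union over these `m` of the sets of PEL, and
`C = (4 + j²)(3 j³ + 1)`. -/
def S_BIG : Prop := ∀ j : ℕ, 0 < j → ∃ C : ℕ, ∀ S y : ℕ, 0 < S → 0 < y →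
  {s : ℕ | S < s ∧ s ≤ 2 * S ∧ ∃ p : ℕ, y < p ∧ p ^ 2 ∣ s ^ 2 + j ^ 2}.ncard * y ^ 2 ≤ C * S ^ 2

/-- CNT (70 lines). For one prime `p`, `p ∤ N`, `p ∤ 2 j`: the numbers `s ≡ s₀ (mod N)` in `(S, 2 S]` with
`p ^ 2 ∣ s ^ 4 - j ^ 4`, that is `s ^ 4 ≡ j ^ 4 (mod p ^ 2)`, lie in at most four classes modulo `N p ^ 2`, each with at most
`S / (N p ^ 2) + 1` members in `(S, 2 S]`. Proof: `s ^ 4 - j ^ 4 = (s - j)(s + j)(s ^ 2 + j ^ 2)` and `p` divides only one factor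
(`p` dividing two of them divides `2 j` or `2 j ^ 2`), so `p ^ 2` divides one factor; and `s ^ 2 ≡ t ^ 2 ≡ - j ^ 2 (mod p ^ 2)`
gives `p ^ 2 ∣ (s - t)(s + t)`, where `p` divides only one factor, so `t ≡ ± s (mod p ^ 2)`. -/
def S_CNT : Prop := ∀ j N s₀ p S : ℕ, 0 < j → 0 < N → p.Prime → ¬ p ∣ N → ¬ p ∣ 2 * j →
  {s : ℕ | S < s ∧ s ≤ 2 * S ∧ s ≡ s₀ [MOD N] ∧ s ^ 4 ≡ j ^ 4 [MOD p ^ 2]}.ncard ≤
    4 * (S / (N * p ^ 2) + 1)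

/-- SIV (130 lines), `t_SIV (hB : S_BIG) (hC : S_CNT) : S_SIV`. Proof: let `y = S / (200 N)`, `S` large, so that
`y ^ 2 ≥ 3 S + j`. The `s` with a prime `p`, `P < p ≤ y`: at most
`∑_{P < p ≤ y} 4 (S/(N p²) + 1) ≤ 4 S/(N P) + 4 y ≤ S/(5 N) + S/(50 N)` (`∑_{p > P} 1/p² ≤ 1/P`, by telescoping). The `s` with a
prime `p > y`: `p` divides only one of the factors of `s ^ 4 - j ^ 4 = (s - j)(s + j)(s ^ 2 + j ^ 2)` (as `p > 2 j`), `p ^ 2 > 3 S + j`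
does not divide the positive numbers `s - j`, `s + j`, so `p ^ 2 ∣ s ^ 2 + j ^ 2`, and by BIG there are at most
`C S ^ 2 / y ^ 2 ≤ C (400 N) ^ 2` such `s`, a constant, at most `S / (50 N)` for large `S`. -/
def S_SIV : Prop := ∀ j N s₀ P : ℕ, 0 < j → 0 < N → 20 ≤ P → 2 * j ≤ P →
  (∀ p : ℕ, p.Prime → p ∣ N → p ≤ P) → ∃ S₀ : ℕ, ∀ S : ℕ, S₀ ≤ S →
    4 * N * {s : ℕ | S < s ∧ s ≤ 2 * S ∧ s ≡ s₀ [MOD N] ∧
      ∃ p : ℕ, p.Prime ∧ P < p ∧ s ^ 4 ≡ j ^ 4 [MOD p ^ 2]}.ncard ≤ S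

/-- MAIN (150 lines), `t_MAIN (h1 : S_REP) (h2 : S_LOC) (h3 : S_SIV) : S_MAIN`. Proof: `j, j', q` from REP,
`P = 20 + q + 2 j + 2 j'`, `N`, `s₀` from LOC. For `S` large there are at least `S / N - 1` numbers `s ≡ s₀ (mod N)` in `(S, 2 S]`; by SIV for
`j` and for `j'` at most `S / (2 N)` of them have a prime `p > P` with `p² ∣ s⁴ - j⁴` or `p² ∣ s⁴ - j'⁴`; so at least `S / (4 N)` are good.
For the good `s` the number `n` of LOC is such that `n`, `n + h` are squarefree (a prime `p > P` with `p² ∣ n` has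
`s⁴ ≡ j'⁴ (mod p²)`, and `p² ∣ n + h` gives `s⁴ ≡ j⁴`). `n` is congruent: the triangle with the sides
`(s⁴ - j'⁴)/(s j' q)`, `2 s j' / q`, `(s⁴ + j'⁴)/(s j' q)` has area `(s⁴ - j'⁴)/q² = n`; the same for `n + h` with `j` (`j < j' < s` as `h > 0`).
Different `s` give different `n ≤ s⁴ ≤ 16 S⁴ ≤ X` for `S = ⌊X^(1/4)/2⌋`. -/
def S_MAIN : Prop := ∀ h M k : ℕ, 0 < h → 0 < M → IsCongruent h → Squarefree k → Squarefree (k + h) →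
  ∃ c : ℝ, 0 < c ∧ ∃ X₀ : ℕ, ∀ X : ℕ, X₀ ≤ X → c * (X : ℝ) ^ (1 / 4 : ℝ) ≤
    (({n : ℕ | n ≤ X ∧ n ≡ k [MOD M] ∧ Squarefree n ∧ Squarefree (n + h) ∧ IsCongruent n ∧
      IsCongruent (n + h)}.ncard : ℕ) : ℝ)

end Pool.Agent.T2h88.GP
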