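import Pool.Agent.T2h88.GP.Stm

/-!
# Project LN: congruent numbers in residue classes, uniformly for moduli `M ≤ X ^ (1/6 - ε)` (helper88)

Target (hard problem MP_05dcdc_nt): for `ε > 0` there are `c > 0`, `X₀` such that for `X ≥ X₀`, `M ≤ X ^ (1/6 - ε)` every
residue class modulo `M` which contains an odd squarefree number contains at least `c X ^ (1/2 - ε) / M ^ 2` odd squarefree
congruent numbers `n ≤ X` (the starting file OddResidueClasses has `M ≤ X ^ (1/336)`). So the least odd squarefree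
congruent number in such a class is `≤ C M ^ (6 + ε)`.

The numbers are `n = G q u v = u v (u² - q⁴ v²)`, `q` the product of the primes `≤ 1000`, with `u`, `v` in classes modulo `M'`.
File for task XXX: `Pool/Agent/T2h88/GP/T_XXX.lean`, `import Pool.Agent.T2h88.GP.Stm2`, theorem `t_XXX` in the namespace
`Pool.Agent.T2h88.GP`; the inputs named in the docstring are hypotheses, in the order given.
-/

set_option autoImplicit false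

namespace Pool.Agent.T2h88.GP

/-- `u v (u² - q⁴ v²)` -/
def G (q : ℕ) (u v : ℤ) : ℤ := u * v * (u ^ 2 - (q : ℤ) ^ 4 * v ^ 2)

/-- JAC (200 lines). Proof. Let `f(t) = t³ - t`; if `f(t) = a w⁴` with `w ≠ 0` then `u = t/w`, `v = 1/w` works.
(1) `p ≡ 3 (mod 4)`: `-1` is not a square and every square is a fourth power. So one of `a / 6`, `- a / 6` is a fourth power
`w⁴`, and `(u, v) = (2 w, w)` gives `6 w⁴`, `(u, v) = (-2 w, w)` gives `- 6 w⁴`.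
(2) `p ≡ 1 (mod 4)`: let `χ : MulChar (ZMod p) ℂ` have order `4`. For a multiplicative character `ψ` with `ψ ≠ 1`,
`ψ³ ≠ 1` put `T(c) = ∑_t ψ(t³ - c t)`. For `d ≠ 0`, `t ↦ d t` gives `T(d² c) = ψ(d)³ T(c)`, so `|T(d²)| = |T(1)|`. Also
`∑_c |T(c)|² = ∑_{t,s} ψ(t) conj ψ(s) ∑_c ψ(t² - c) conj ψ(s² - c)`, and the inner sum is `p - 1` for `t² = s²` and `-1` otherwise
(`c ↦ (t² - c)/(s² - c)` takes on `c ≠ s²` all values except `1`). So `∑_c |T(c)|² = p (p - 1)(1 + ψ(-1)) ≤ 2 p (p - 1)`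
(because `∑ ψ(t) = 0`), and the `(p - 1)/2` nonzero squares `c` give `(p - 1)/2 |T(1)|² ≤ 2 p (p - 1)`, `|T(1)| ≤ 2 √p`.
Apply this to `ψ = χ, χ², χ³`. `∑_{j<4} χ^j(c) = 4` if `c ≠ 0` is a fourth power, `0` otherwise (for `c = 0` all terms but
`j = 0` vanish; sum only over `f(t) ≠ 0`). So the sum over `t` with `f(t) ≠ 0` of `∑_j χ^j (f(t)/a)` is at least
`p - 3 - 6 √p > 0` for `p ≥ 53`; hence `f(t)/a` is a fourth power `w⁴ ≠ 0` for some `t`. -/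
def S_JAC : Prop := ∀ (p : ℕ) [Fact p.Prime], 53 ≤ p → ∀ a : ZMod p, a ≠ 0 →
  ∃ u v : ZMod p, u * v * (u ^ 2 - v ^ 2) = a

/-- GOOD (120 lines), `t_GOOD (h : S_JAC) : S_GOOD`. Proof: `Nat.recOnPosPrimePosCoprime` on `M` (with the coprimality as
part of the induction statement). Prime power `p ^ e`, `e ≥ 1`: `p ∤ q k`, so `p ≥ 53`; JAC with `a = k q²` gives
`u w (u² - w²) = k q²` in `ZMod p`, put `w = q² v`: `G q u v ≡ k (mod p)`. Lifting from `p ^ i` to `p ^ (i+1)`, `i ≥ 1`: replace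
`(u, v)` by `(λ u, λ v)`, `λ = 1 + p ^ i t`: `G q (λu) (λv) = λ⁴ G q u v ≡ G q u v + 4 p ^ i t G q u v (mod p ^ (i+1))`, and
`4 G q u v ≡ 4 k` is prime to `p`, so `t` can be chosen. Coprime products: Chinese remainder theorem. -/
def S_GOOD : Prop := ∀ q k M : ℕ, (∀ p : ℕ, p.Prime → p < 53 → p ∣ q) → 0 < M → Nat.Coprime M (q * k) →
  ∃ u v : ℤ, G q u v ≡ k [ZMOD M]

/-- BAD (60 lines). Proof: `v₀ = 0`, `v_{i+1} = k + q⁴ v_i³`. All `v_i` are divisible by `k`, and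
`v_{i+1} - v_i = q⁴ (v_i³ - v_{i-1}³)` is divisible by `(q k)^i` by induction (`v_i³ - v_{i-1}³ = (v_i - v_{i-1})(v_i² + v_i v_{i-1} + v_{i-1}²)`,
the second factor divisible by `k²`). So `G q 1 v_i = v_i - q⁴ v_i³ = k + v_i - v_{i+1} ≡ k (mod (q k)^i)`, and
`D ∣ (q k)^i` for large `i`, e.g. `i = D` (all primes of `D` divide `q k`). -/
def S_BAD : Prop := ∀ q k D : ℕ, 0 < D → (∀ p : ℕ, p.Prime → p ∣ D → p ∣ q * k) →
  ∃ v : ℤ, (k : ℤ) ∣ v ∧ G q 1 v ≡ k [ZMOD D]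

/-- LCN (100 lines), `t_LCN (h1 : S_GOOD) (h2 : S_BAD) : S_LCN`. Proof: `M = D M₂`, `D = gcd(M, (q k)^M)`, the primes of
`D` divide `q k`, and `M₂` is prime to `q k` (and to `D`). By the Chinese remainder theorem take `u ≡ 1`, `v ≡ v_BAD (mod D)`,
`(u, v) ≡ (u, v)_GOOD (mod M₂)`, reduced to `[0, M)`. `u` is prime to `M`: clear for primes of `D`; for `p ∣ M₂`, `G q u v ≡ k` is
prime to `p`. -/
def S_LCN : Prop := ∀ q k M : ℕ, (∀ p : ℕ, p.Prime → p < 53 → p ∣ q) → 0 < q → 0 < k → 0 < M →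
  ∃ u v : ℕ, u < M ∧ v < M ∧ Nat.Coprime u M ∧ G q u v ≡ k [ZMOD M] ∧
    ∀ p : ℕ, p.Prime → p ∣ M → p ∣ k → p ∣ v

/-- OM (60 lines). Proof: let `w` be the number of primes dividing `M`. `w! ≤ M` (the product of `w` distinct positive
integers is at least `w!`, and it divides `M`). `(K ^ (1/ε)) ^ w / w! ≤ exp (K ^ (1/ε))` (`Real.pow_div_factorial_le_exp`); raise to the
power `ε`: `K ^ w ≤ exp (ε K ^ (1/ε)) (w!) ^ ε`. -/
def S_OM : Prop := ∀ (K : ℕ) (ε : ℝ), 0 < ε → ∃ C : ℝ, 0 < C ∧ ∀ M : ℕ, 0 < M →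
  (K : ℝ) ^ (M.primeFactors.card) ≤ C * (M : ℝ) ^ ε

/-- SQR (90 lines). Proof: multiplicativity (`Nat.recOnPosPrimePosCoprime`, Chinese remainder theorem); for an odd prime power
at most `2` (two roots `r`, `s`: `p ^ e ∣ (r - s)(r + s)` and `p` divides only one factor), for `2 ^ e` at most `4`. -/
def S_SQR : Prop := ∀ m c : ℕ, 0 < m →
  ((Finset.range m).filter fun r => Nat.Coprime r m ∧ r ^ 2 ≡ c [MOD m]).card ≤
    2 ^ (m.primeFactors.card + 1)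

open scoped Classical in
/-- PRA (180 lines; Prachar's argument), `t_PRA (h1 : S_OM) (h2 : S_SQR) : S_PRA`. Proof. Primes `1000 < p ≤ Y / 1000`: at
most `Y / p² + 1` numbers `x` each (`p ∤ M`), in total `≤ Y / 1000 + Y / 1000`. Primes `p > Y / 1000` (so `p ≥ Y / 2000`):
`c + M x = p² m`, `m ≠ 0`, `|m| ≤ (A + 1) M Y / p² ≤ L := 4 · 10⁶ (A + 1) M / Y`. As `p ∤ M`, `gcd(m, M) = gcd(c, M) =: g`, `m = g m'`, and
`p² m' ≡ c / g (mod M / g)` with `m'` prime to `M / g`: for given `m'` the prime `p` (prime to `M / g`) is in one of at most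
`2 ^ (w + 1)` classes modulo `M / g` (SQR; `w` = number of primes of `M`), and `p ≤ R := √((A + 1) M Y)/√g`, so there are at most
`2 ^ (w + 1) (R g / M + 1)` such `p`, and `(p, m)` determine `x`. There are at most `2 L / g` numbers `m'`. Total at most
`2 ^ (w+1) (2 L / g)(R g / M + 1) ≤ 2 ^ (w+1) (2 L R / M + 2 L)`, `R ≤ √((A + 1) M Y)`, so
`L R / M ≤ C √(M / Y)`, `L ≤ C M / Y` with `C = C(A)`. By OM `2 ^ (w+1) ≤ C' M ^ (ε/2)`, and `M ^ (1/2 + ε) ≤ Y` gives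
`M ^ (ε/2) (√(M/Y) + M/Y) ≤ Y / 10 ^ 4 / C''` for large `Y` (`M ^ (1 + ε/2) ≤ Y^2 M ^ (-3ε/2)`; if `M ≤ Y` use
`M ^ (ε/2) ≤ Y ^ (ε/2)`; one may assume `ε ≤ 1`). -/
def S_PRA : Prop := ∀ (ε : ℝ) (A : ℕ), 0 < ε → ∃ Y₀ : ℕ, ∀ (M Y : ℕ) (c : ℤ), Y₀ ≤ Y → 0 < M →
  (M : ℝ) ^ (1 / 2 + ε) ≤ Y → |c| ≤ A * M * Y →
  50 * ((Finset.range Y).filter fun x : ℕ => c + M * x ≠ 0 ∧
    ∃ p : ℕ, p.Prime ∧ 1000 < p ∧ ¬ p ∣ M ∧ (p : ℤ) ^ 2 ∣ c + M * x).card ≤ Y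

open scoped Classical in
/-- TE (100 lines). Proof: primes `p ≤ Y`: at most `(Y/p + 1)² ≤ 4 Y² / p²` pairs, `∑_{p > 1000} 4 / p² ≤ 4 / 1000`. Primes `p > Y`: for every
`x` the positive number `u₀ + M (x + B Y) ≤ (B + 2) M Y ≤ (B + 2) Y³ ≤ Y⁴` has at most `3` prime factors `p > Y`, and for each of
them there is at most one `y < Y`; in total `≤ 3 Y ≤ Y² / 1000` pairs. -/
def S_TE : Prop := ∀ B : ℕ, 1 ≤ B → ∃ Y₀ : ℕ, ∀ M Y u₀ v₀ : ℕ, Y₀ ≤ Y → 0 < M → M ≤ Y ^ 2 → u₀ < M →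
  100 * (((Finset.range Y) ×ˢ (Finset.range Y)).filter fun w : ℕ × ℕ => ∃ p : ℕ, p.Prime ∧ 1000 < p ∧
    ¬ p ∣ M ∧ p ∣ u₀ + M * (w.1 + B * Y) ∧ p ∣ v₀ + M * (w.2 + 1)).card ≤ Y ^ 2

open scoped Classical in
/-- TF (50 lines). Proof: for each such prime `p` (at most `M.primeFactors.card`) `p ∣ v₀` (if there is such a `y`), and
`v₀ / p + (M / p)(y + 1) ≡ 0 (mod p)` with `M / p` prime to `p`, so `y` is in one class modulo `p`: at most `Y / p + 1 ≤ Y / z + 1` numbers `y < Y`. -/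
def S_TF : Prop := ∀ M z Y v₀ : ℕ, 0 < M → 0 < z →
  ((Finset.range Y).filter fun y : ℕ => ∃ p : ℕ, p.Prime ∧ p ∣ M ∧ ¬ p ^ 2 ∣ M ∧ z < p ∧
    p ^ 2 ∣ v₀ + M * (y + 1)).card ≤ M.primeFactors.card * (Y / z + 1)

/-- PAIR (200 lines), `t_PAIR (h1 : S_LCN) (h2 : S_PRA) (h3 : S_TE) (h4 : S_TF) : S_PAIR`. Proof. `u₀, v₀` from LCN (for the modulus
`M`, `M ≥ 4` as `q² ∣ M`, so `u₀ ≥ 1`), `B = 2 q²`, `u(x) = u₀ + M (x + B Y)`, `v(y) = v₀ + M (y + 1)`, `x, y < Y`. Then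
`q² v ≤ q² (M + M Y) < u`... (`q² v < q² M (Y + 1) ≤ 2 q² M Y ≤ u`), `G q u v ≡ k (mod M)`. Suppose that `n = G q u v > 0` is not squarefree,
`p² ∣ n`. (i) If `p² ∣ M` then `p² ∣ k`, impossible. (ii) If `p ∣ M`, `p² ∤ M`, then `p ∤ q` (`q² ∣ M`), `p > z := 200 (w + 1)`,
`w = M.primeFactors.card`; `p ∣ n ≡ k`, so `p ∣ k`, `p ∣ v₀`, `p ∤ u`, so `p² ∣ v`: case TF. (iii) If `p ∤ M` then `p > 1000`, `p ∤ 2 q`. If
`p` divides two of the factors `u`, `v`, `u - q² v`, `u + q² v` of `n` then `p ∣ u`, `p ∣ v`: case TE. Otherwise `p²` divides one factor: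
PRA, for `u` with `c = u₀ + M B Y`, for `v` with `c = v₀ + M`, for `u ∓ q² v` with fixed `y` and
`c = u₀ + M B Y ∓ q² v(y)`; `|c| ≤ A M Y`, `A = 4 B + 2`. The numbers of bad pairs are at most `Y²/50` four times, `Y²/100` (TE),
`Y w (Y/z + 1) ≤ Y²/200 + Y w ≤ Y²/100` (TF; need `w ≤ Y / 400`, given); together `≤ Y²/2`. (`M ≤ Y²` follows from
`M ^ (1/2 + ε) ≤ Y`.) -/
def S_PAIR : Prop := ∀ (q : ℕ) (ε : ℝ), 0 < ε → 0 < q → (∀ p : ℕ, p.Prime → p ≤ 1000 → p ∣ q) →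
  ∃ Y₀ : ℕ, ∀ M k Y : ℕ, Y₀ ≤ Y → 0 < M → q ^ 2 ∣ M →
    (∀ p : ℕ, p.Prime → p ∣ M → p ≤ 200 * (M.primeFactors.card + 1) → p ^ 2 ∣ M) →
    400 * (M.primeFactors.card + 1) ≤ Y → (M : ℝ) ^ (1 / 2 + ε) ≤ Y → Squarefree k →
    ∃ S : Finset (ℕ × ℕ), Y ^ 2 ≤ 2 * S.card ∧ ∀ w ∈ S, 0 < w.2 ∧ q ^ 2 * w.2 < w.1 ∧
      w.1 ≤ (2 * q ^ 2 + 2) * M * Y ∧ w.2 ≤ 2 * M * Y ∧
      w.1 * w.2 * (w.1 ^ 2 - q ^ 4 * w.2 ^ 2) ≡ k [MOD M] ∧
      Squarefree (w.1 * w.2 * (w.1 ^ 2 - q ^ 4 * w.2 ^ 2))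

/-- DIV (classical divisor bound; take it from the library or prove it, 80 lines) -/
def S_DIV : Prop := ∀ ε : ℝ, 0 < ε → ∃ C : ℝ, 0 < C ∧ ∀ n : ℕ, 0 < n →
  (n.divisors.card : ℝ) ≤ C * (n : ℝ) ^ ε

/-- LNK (200 lines), `t_LNK (h1 : S_PAIR) (h2 : S_OM) (h3 : S_DIV) : S_LNK`. Proof. We may assume `ε < 1/6` (else the bound is for
`M ≤ 1` and `X ^ (1/2 - ε)` is smaller: use the case of a smaller `ε`). Let `q = ∏ p` over the primes `p ≤ 1000`. Given `M`, let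
`w = M.primeFactors.card + q.primeFactors.card`, `E = ∏ p` over the primes `p ∣ M`, `p ≤ 200 (w + 1)`, `M' = M E q²`. Then
`q² ∣ M'`, `M'.primeFactors.card ≤ w`, and `p² ∣ M'` for the primes `p ∣ M'` with `p ≤ 200 (w + 1)`. `E ≤ primorial (200 (w+1)) ≤ 4 ^ (200 (w+1))`
(`primorial_le_4_pow`), so `M' ≤ C M ^ (1 + δ)` by OM. Let `Y = ⌊X ^ (1/4) / (C₁ M')⌋`, `C₁ = 2 q² + 3`; then
`M' ^ (1/2 + δ) ≤ Y`, because `M' ^ (3/2 + δ) ≤ C X ^ ((1/6 - ε)(1 + δ)(3/2 + δ))` and the exponent is `< 1/4` for small `δ = δ(ε)`. PAIR (with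
`ε := δ`) gives `≥ Y² / 2` pairs `(u, v)`; `n = u v (u² - q⁴ v²) ≤ u³ v ≤ (C₁ M' Y)⁴ ≤ X`; `n` is congruent: the triangle with the sides
`(u² - q⁴v²)/q`... precisely with `V = q² v`: sides `(u² - V²)/q`, `2 u V / q`, `(u² + V²)/q`, area `u V (u² - V²)/q² = n`. `n ≡ k (mod M')`, so
modulo `M`, and `n` is odd (`M'` even, `k` odd). `u ∣ n`, `v ∣ n`, so a given `n` comes from at most `(d(n))² ≤ C X ^ (ε/2)` pairs (DIV). So the number of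
`n` is at least `Y² / (2 C X ^ (ε/2)) ≥ c X ^ (1/2 - ε/2) / M'² ≥ c' X ^ (1/2 - ε) / M²` (`M ^ (2 δ) ≤ X ^ (ε/2)`). -/
def S_LNK : Prop := ∀ ε : ℝ, 0 < ε → ∃ c : ℝ, 0 < c ∧ ∃ X₀ : ℕ, ∀ X M k : ℕ, X₀ ≤ X → 0 < M →
  (M : ℝ) ≤ (X : ℝ) ^ (1 / 6 - ε) → Odd k → Squarefree k →
  c * (X : ℝ) ^ (1 / 2 - ε) / (M : ℝ) ^ 2 ≤
    (({n : ℕ | n ≤ X ∧ n ≡ k [MOD M] ∧ Odd n ∧ Squarefree n ∧ IsCongruent n}.ncard : ℕ) : ℝ)

end Pool.Agent.T2h88.GP
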