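import Pool.Agent.T2h88.GP.Stm2

/-!
# Task BAD (helper49): the classes at the bad primes
-/

set_option autoImplicit false

namespace Pool.Agent.T2h88.GP

namespace BAD

/-- the sequence -/
def v (q k : ℕ) : ℕ → ℤ
  | 0 => 0
  | i + 1 => k + (q : ℤ) ^ 4 * v q k i ^ 3

theorem dvd_v (q k i : ℕ) : (k : ℤ) ∣ v q k i := by
  induction i with
  | zero => exact dvd_zero _
  | succ i ih => exact dvd_add dvd_rfl (Dvd.dvd.mul_left (dvd_pow ih (by norm_num)) _)

theorem dvd_diff (q k i : ℕ) : ((q : ℤ) * k) ^ i ∣ v q k (i + 1) - v q k i := by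
  induction i with
  | zero => rw [pow_zero]; exact one_dvd _
  | succ i ih =>
    have e : v q k (i + 1 + 1) - v q k (i + 1) = (v q k (i + 1) - v q k i) *
        ((q : ℤ) ^ 4 * (v q k (i + 1) ^ 2 + v q k (i + 1) * v q k i + v q k i ^ 2)) := by
      have e1 : v q k (i + 1 + 1) = k + (q : ℤ) ^ 4 * v q k (i + 1) ^ 3 := rfl
      have e2 : v q k (i + 1) = k + (q : ℤ) ^ 4 * v q k i ^ 3 := rfl
      have e3 : v q k (i + 1 + 1) - v q k (i + 1) =
          (q : ℤ) ^ 4 * v q k (i + 1) ^ 3 - (q : ℤ) ^ 4 * v q k i ^ 3 := by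
        rw [e1]
        linear_combination -e2
      rw [e3]
      ring
    rw [e, pow_succ]
    refine mul_dvd_mul ih (mul_dvd_mul (dvd_pow_self _ (by norm_num)) ?_)
    refine dvd_add (dvd_add ?_ ?_) ?_
    · exact dvd_pow (dvd_v q k _) (by norm_num)
    · exact Dvd.dvd.mul_right (dvd_v q k _) _
    · exact dvd_pow (dvd_v q k _) (by norm_num)

theorem dvd_pow_self' (m D : ℕ) (hD : 0 < D) (h : ∀ p : ℕ, p.Prime → p ∣ D → p ∣ m) :
    D ∣ m ^ D := by
  rcases Nat.eq_zero_or_pos m with hm | hm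
  · rw [hm, zero_pow hD.ne']
    exact dvd_zero _
  · rw [← Nat.factorization_le_iff_dvd hD.ne' (pow_ne_zero _ hm.ne')]
    intro p
    rw [Nat.factorization_pow, Finsupp.smul_apply, smul_eq_mul]
    by_cases hp : p.Prime
    · by_cases hpD : p ∣ D
      · have h1 : 1 ≤ m.factorization p :=
          (hp.dvd_iff_one_le_factorization hm.ne').1 (h p hp hpD)
        have h2 : D.factorization p < D := Nat.factorization_lt p hD.ne'
        nlinarith
      · rw [Nat.factorization_eq_zero_of_not_dvd hpD]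
        exact Nat.zero_le _
    · rw [Nat.factorization_eq_zero_of_not_prime D hp]
      exact Nat.zero_le _

end BAD

theorem t_BAD : S_BAD := by
  intro q k D hD h
  refine ⟨BAD.v q k D, BAD.dvd_v q k D, ?_⟩
  have h1 : (D : ℤ) ∣ ((q : ℤ) * k) ^ D := by
    have := BAD.dvd_pow_self' (q * k) D hD h
    exact_mod_cast this
  have h2 := h1.trans (BAD.dvd_diff q k D)
  have e : (k : ℤ) - G q 1 (BAD.v q k D) = BAD.v q k (D + 1) - BAD.v q k D := by
    have e1 : BAD.v q k (D + 1) = k + (q : ℤ) ^ 4 * BAD.v q k D ^ 3 := rfl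
    rw [e1]
    unfold G
    ring
  rw [Int.modEq_iff_dvd, e]
  exact h2

end Pool.Agent.T2h88.GP
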