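import Pool.Agent.T2h88.GP.Stm

/-! BIG -/

set_option autoImplicit false

namespace Pool.Agent.T2h88.GP

/-- BIG. -/
theorem t_BIG (hP : S_PEL) : S_BIG := by
  intro j hj
  refine ⟨(4 + j ^ 2) * (3 * j ^ 3 + 1), ?_⟩
  intro S y hS hy
  classical
  set T : Set ℕ := {s : ℕ | S < s ∧ s ≤ 2 * S ∧ ∃ p : ℕ, y < p ∧ p ^ 2 ∣ s ^ 2 + j ^ 2} with hT
  set Mx : ℕ := (4 + j ^ 2) * S ^ 2 / y ^ 2 with hMx
  set U : ℕ → Set ℕ := fun m => {s : ℕ | S < s ∧ s ≤ 2 * S ∧ ∃ p : ℕ, s ^ 2 + j ^ 2 = m * p ^ 2} with hU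
  have hy2 : 0 < y ^ 2 := by positivity
  have hsub : T ⊆ ⋃ m ∈ Finset.Icc 1 Mx, U m := by
    intro s hs
    obtain ⟨h1, h2, p, hp, m, hm⟩ := hs
    rw [Set.mem_iUnion₂]
    refine ⟨m, ?_, h1, h2, p, by rw [hm]; ring⟩
    rw [Finset.mem_Icc]
    constructor
    · rcases Nat.eq_zero_or_pos m with h0 | h0
      · rw [h0, mul_zero] at hm
        have : 0 < s ^ 2 + j ^ 2 := by positivity
        omega
      · exact h0
    · rw [hMx, Nat.le_div_iff_mul_le hy2]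
      have e1 : y ^ 2 ≤ p ^ 2 := Nat.pow_le_pow_left hp.le 2
      have e2 : s ^ 2 ≤ (2 * S) ^ 2 := Nat.pow_le_pow_left h2 2
      have e3 : 1 ≤ S ^ 2 := Nat.one_le_pow _ _ hS
      calc m * y ^ 2 ≤ m * p ^ 2 := Nat.mul_le_mul_left _ e1
        _ = s ^ 2 + j ^ 2 := by rw [hm]; ring
        _ ≤ (4 + j ^ 2) * S ^ 2 := by nlinarith [Nat.mul_le_mul_left (j ^ 2) e3]
  have hfinU : ∀ m, (U m).Finite := fun m =>
    (Set.finite_Icc S (2 * S)).subset fun s hs => ⟨hs.1.le, hs.2.1⟩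
  have hfin : (⋃ m ∈ Finset.Icc 1 Mx, U m).Finite :=
    Set.Finite.biUnion (Finset.finite_toSet _) fun m _ => hfinU m
  have hcard : T.ncard ≤ Mx * (3 * j ^ 3 + 1) := by
    calc T.ncard ≤ (⋃ m ∈ Finset.Icc 1 Mx, U m).ncard := Set.ncard_le_ncard hsub hfin
      _ ≤ ∑ m ∈ Finset.Icc 1 Mx, (U m).ncard := Finset.set_ncard_biUnion_le _ _
      _ ≤ ∑ _m ∈ Finset.Icc 1 Mx, (3 * j ^ 3 + 1) := Finset.sum_le_sum fun m hm =>
          hP j m S hj (Finset.mem_Icc.1 hm).1 hS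
      _ = Mx * (3 * j ^ 3 + 1) := by rw [Finset.sum_const, Nat.card_Icc, smul_eq_mul, Nat.add_sub_cancel]
  have h1 : Mx * y ^ 2 ≤ (4 + j ^ 2) * S ^ 2 := Nat.div_mul_le_self _ _
  calc T.ncard * y ^ 2 ≤ Mx * (3 * j ^ 3 + 1) * y ^ 2 := Nat.mul_le_mul_right _ hcard
    _ = Mx * y ^ 2 * (3 * j ^ 3 + 1) := by ring
    _ ≤ (4 + j ^ 2) * S ^ 2 * (3 * j ^ 3 + 1) := Nat.mul_le_mul_right _ h1
    _ = _ := by ring

end Pool.Agent.T2h88.GP
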