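import Pool.Agent.T2h88.GP.Stm

/-! CNT -/

set_option autoImplicit false

namespace Pool.Agent.T2h88.GP

theorem cnt_class (S D : ℕ) (hD : 0 < D) (A : Set ℕ) (hA : ∀ s ∈ A, S < s ∧ s ≤ 2 * S)
    (hc : ∀ s ∈ A, ∀ s' ∈ A, s ≡ s' [MOD D]) : A.ncard ≤ S / D + 1 := by
  classical
  have h1 := Set.ncard_le_ncard_of_injOn (s := A) (t := ((Finset.range (S / D + 1) : Finset ℕ) : Set ℕ))
    (fun s => (s - S - 1) / D) (by
      intro s hs
      rw [Finset.coe_range, Set.mem_Iio, Nat.lt_succ_iff]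
      apply Nat.div_le_div_right
      have := hA s hs
      omega)
    (by
      intro s hs s' hs' h
      have h0 := hA s hs
      have h0' := hA s' hs'
      dsimp only at h
      have h2 : s - S - 1 ≡ s' - S - 1 [MOD D] := by
        have h3 := hc s hs s' hs'
        apply Nat.ModEq.add_right_cancel' (S + 1)
        have e1 : s - S - 1 + (S + 1) = s := by omega
        have e2 : s' - S - 1 + (S + 1) = s' := by omega
        rw [e1, e2]
        exact h3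
      have h3 : (s - S - 1) % D = (s' - S - 1) % D := h2
      have h4 := Nat.div_add_mod (s - S - 1) D
      have h5 := Nat.div_add_mod (s' - S - 1) D
      rw [h, h3] at h4
      omega)
    (Finset.finite_toSet _)
  rw [Set.ncard_coe_finset, Finset.card_range] at h1
  exact h1

theorem cnt_fac (p : ℕ) (hp : p.Prime) (s j : ℤ) (h2j : ¬ (p : ℤ) ∣ 2 * j)
    (h : (p : ℤ) ^ 2 ∣ s ^ 4 - j ^ 4) :
    (p : ℤ) ^ 2 ∣ s - j ∨ (p : ℤ) ^ 2 ∣ s + j ∨ (p : ℤ) ^ 2 ∣ s ^ 2 + j ^ 2 := by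
  have hpp : Prime (p : ℤ) := Nat.prime_iff_prime_int.1 hp
  have hp2 : ¬ (p : ℤ) ∣ 2 := fun h' => h2j (Dvd.dvd.mul_right h' j)
  have hpj : ¬ (p : ℤ) ∣ j := fun h' => h2j (Dvd.dvd.mul_left h' 2)
  have h2jj : ¬ (p : ℤ) ∣ 2 * j * j := by
    intro h'
    rcases hpp.dvd_or_dvd h' with h1 | h1
    · exact h2j h1
    · exact hpj h1
  have hcop : ∀ x : ℤ, ¬ (p : ℤ) ∣ x → IsCoprime ((p : ℤ) ^ 2) x := fun x hx =>
    ((hpp.coprime_iff_not_dvd).2 hx).pow_left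
  have hfac : s ^ 4 - j ^ 4 = (s - j) * ((s + j) * (s ^ 2 + j ^ 2)) := by ring
  rw [hfac] at h
  by_cases h1 : (p : ℤ) ∣ s - j
  · left
    have h3 : ¬ (p : ℤ) ∣ s + j := by
      intro h'
      apply h2j
      have := dvd_sub h' h1
      have e : s + j - (s - j) = 2 * j := by ring
      rwa [e] at this
    have h4 : ¬ (p : ℤ) ∣ s ^ 2 + j ^ 2 := by
      intro h'
      apply h2jj
      have := dvd_sub h' (Dvd.dvd.mul_right h1 (s + j))
      have e : s ^ 2 + j ^ 2 - (s - j) * (s + j) = 2 * j * j := by ring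
      rwa [e] at this
    have h5 : IsCoprime ((p : ℤ) ^ 2) ((s + j) * (s ^ 2 + j ^ 2)) := (hcop _ h3).mul_right (hcop _ h4)
    exact h5.dvd_of_dvd_mul_right h
  · right
    have h' := (hcop _ h1).dvd_of_dvd_mul_left h
    by_cases h3 : (p : ℤ) ∣ s + j
    · left
      have h4 : ¬ (p : ℤ) ∣ s ^ 2 + j ^ 2 := by
        intro h''
        apply h2jj
        have := dvd_sub h'' (Dvd.dvd.mul_right h3 (s - j))
        have e : s ^ 2 + j ^ 2 - (s + j) * (s - j) = 2 * j * j := by ring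
        rwa [e] at this
      exact (hcop _ h4).dvd_of_dvd_mul_right h'
    · right
      exact (hcop _ h3).dvd_of_dvd_mul_left h'

theorem cnt_fac2 (p : ℕ) (hp : p.Prime) (s t j : ℤ) (h2j : ¬ (p : ℤ) ∣ 2 * j)
    (h : (p : ℤ) ^ 2 ∣ s ^ 2 + j ^ 2) (ht : (p : ℤ) ^ 2 ∣ t ^ 2 + j ^ 2) :
    (p : ℤ) ^ 2 ∣ s - t ∨ (p : ℤ) ^ 2 ∣ s - -t := by
  have hpp : Prime (p : ℤ) := Nat.prime_iff_prime_int.1 hp
  have hp2 : ¬ (p : ℤ) ∣ 2 := fun h' => h2j (Dvd.dvd.mul_right h' j)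
  have hpj : ¬ (p : ℤ) ∣ j := fun h' => h2j (Dvd.dvd.mul_left h' 2)
  have hcop : ∀ x : ℤ, ¬ (p : ℤ) ∣ x → IsCoprime ((p : ℤ) ^ 2) x := fun x hx =>
    ((hpp.coprime_iff_not_dvd).2 hx).pow_left
  have h1 : (p : ℤ) ^ 2 ∣ (s - t) * (s - -t) := by
    have := dvd_sub h ht
    have e : s ^ 2 + j ^ 2 - (t ^ 2 + j ^ 2) = (s - t) * (s - -t) := by ring
    rwa [e] at this
  by_cases h2 : (p : ℤ) ∣ s - t
  · left
    have h3 : ¬ (p : ℤ) ∣ s - -t := by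
      intro h'
      have h4 : (p : ℤ) ∣ 2 * s := by
        have := dvd_add h2 h'
        have e : s - t + (s - -t) = 2 * s := by ring
        rwa [e] at this
      have h5 : (p : ℤ) ∣ s := by
        rcases hpp.dvd_or_dvd h4 with h6 | h6
        · exact absurd h6 hp2
        · exact h6
      have h6 : (p : ℤ) ∣ s ^ 2 + j ^ 2 := (dvd_pow_self _ (by norm_num)).trans h
      have h7 : (p : ℤ) ∣ j ^ 2 := by
        have := dvd_sub h6 (dvd_pow h5 (two_ne_zero))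
        rwa [add_sub_cancel_left] at this
      exact hpj (hpp.dvd_of_dvd_pow h7)
    exact (hcop _ h3).dvd_of_dvd_mul_right h1
  · right
    exact (hcop _ h2).dvd_of_dvd_mul_left h1

/-- CNT. -/
theorem t_CNT : S_CNT := by
  intro j N s₀ p S hj hN hp hpN h2j
  classical
  have h2j' : ¬ (p : ℤ) ∣ 2 * (j : ℤ) := by
    intro h
    exact h2j (by exact_mod_cast h)
  obtain ⟨t, ht⟩ : ∃ t : ℤ, (∃ s : ℤ, (p : ℤ) ^ 2 ∣ s ^ 2 + (j : ℤ) ^ 2) → (p : ℤ) ^ 2 ∣ t ^ 2 + (j : ℤ) ^ 2 := by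
    by_cases h : ∃ s : ℤ, (p : ℤ) ^ 2 ∣ s ^ 2 + (j : ℤ) ^ 2
    · obtain ⟨t, ht⟩ := h
      exact ⟨t, fun _ => ht⟩
    · exact ⟨0, fun h' => absurd h' h⟩
  let a : Fin 4 → ℤ := ![(j : ℤ), -(j : ℤ), t, -t]
  set A : Fin 4 → Set ℕ := fun i => {s : ℕ | S < s ∧ s ≤ 2 * S ∧ s ≡ s₀ [MOD N] ∧ (p : ℤ) ^ 2 ∣ (s : ℤ) - a i} with hA
  set T : Set ℕ := {s : ℕ | S < s ∧ s ≤ 2 * S ∧ s ≡ s₀ [MOD N] ∧ s ^ 4 ≡ j ^ 4 [MOD p ^ 2]} with hT
  have hsub : T ⊆ ⋃ i ∈ (Finset.univ : Finset (Fin 4)), A i := by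
    rintro s ⟨h1, h2, h3, h4⟩
    have h5 : (p : ℤ) ^ 2 ∣ (s : ℤ) ^ 4 - (j : ℤ) ^ 4 := by
      have h6 := (Nat.modEq_iff_dvd.1 h4.symm)
      push_cast at h6
      exact h6
    rw [Set.mem_iUnion₂]
    rcases cnt_fac p hp s j h2j' h5 with h | h | h
    · exact ⟨0, Finset.mem_univ _, h1, h2, h3, h⟩
    · exact ⟨1, Finset.mem_univ _, h1, h2, h3, by
        show (p : ℤ) ^ 2 ∣ (s : ℤ) - -(j : ℤ)
        rwa [sub_neg_eq_add]⟩
    · rcases cnt_fac2 p hp s t j h2j' h (ht ⟨s, h⟩) with h' | h'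
      · exact ⟨2, Finset.mem_univ _, h1, h2, h3, h'⟩
      · exact ⟨3, Finset.mem_univ _, h1, h2, h3, h'⟩
  have hfinA : ∀ i, (A i).Finite := fun i =>
    (Set.finite_Icc S (2 * S)).subset fun s hs => ⟨hs.1.le, hs.2.1⟩
  have hfin : (⋃ i ∈ (Finset.univ : Finset (Fin 4)), A i).Finite :=
    Set.Finite.biUnion (Finset.finite_toSet _) fun m _ => hfinA m
  have hcop : Nat.Coprime N (p ^ 2) := by
    apply Nat.Coprime.pow_right
    rw [Nat.coprime_comm]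
    exact (Nat.Prime.coprime_iff_not_dvd hp).2 hpN
  have hcl : ∀ i, (A i).ncard ≤ S / (N * p ^ 2) + 1 := by
    intro i
    apply cnt_class S (N * p ^ 2) (Nat.mul_pos hN (by have := hp.pos; positivity))
    · intro s hs
      exact ⟨hs.1, hs.2.1⟩
    · intro s hs s' hs'
      rw [← Nat.modEq_and_modEq_iff_modEq_mul hcop]
      refine ⟨hs.2.2.1.trans hs'.2.2.1.symm, ?_⟩
      rw [Nat.modEq_iff_dvd]
      have := dvd_sub hs'.2.2.2 hs.2.2.2
      rw [sub_sub_sub_cancel_right] at this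
      push_cast
      exact this
  calc T.ncard ≤ (⋃ i ∈ (Finset.univ : Finset (Fin 4)), A i).ncard := Set.ncard_le_ncard hsub hfin
    _ ≤ ∑ i ∈ (Finset.univ : Finset (Fin 4)), (A i).ncard := Finset.set_ncard_biUnion_le _ _
    _ ≤ ∑ _i ∈ (Finset.univ : Finset (Fin 4)), (S / (N * p ^ 2) + 1) := Finset.sum_le_sum fun i _ => hcl i
    _ = 4 * (S / (N * p ^ 2) + 1) := by simp

end Pool.Agent.T2h88.GP
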