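import Pool.Agent.T2h88.GP.H58

/-!
# GP-DBL: duplication (helper58)
-/

set_option autoImplicit false

namespace Pool.Agent.T2h88.GP

open H58

theorem t_DBL : S_DBL := by
  intro h A B C D P
  have hA := odd_A P
  have hB := odd_B P
  have hC := odd_C P
  have a2 := P.eqA
  have b2 := P.eqB
  have hC1 : ¬ (2 : ℤ) ∣ C ^ 4 + (h : ℤ) ^ 2 * D ^ 4 := by
    intro h2
    have h3 : (2 : ℤ) ∣ C ^ 4 := by
      have e : C ^ 4 = (C ^ 4 + (h : ℤ) ^ 2 * D ^ 4) - (h : ℤ) ^ 2 * D ^ 4 := by ring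
      rw [e]
      exact dvd_sub h2 (Dvd.dvd.mul_left (dvd_pow P.two (by norm_num)) _)
    exact hC (two_prime.dvd_of_dvd_pow h3)
  have hABC : ¬ (2 : ℤ) ∣ A * B * C := odd_mul (odd_mul hA hB) hC
  have hD1 : 2 * (A * B * C) * D ≠ 0 :=
    mul_ne_zero (mul_ne_zero two_ne_zero (ne_of_odd hABC)) P.nz
  obtain ⟨A', B', C', D', g, P', hg, -, e2⟩ := reduce h (A ^ 2 * C ^ 2 - h * D ^ 2 * B ^ 2)
    (B ^ 2 * C ^ 2 + h * D ^ 2 * A ^ 2) (C ^ 4 + (h : ℤ) ^ 2 * D ^ 4) (2 * (A * B * C) * D)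
    (by
      have e : (2 * (A * B * C) * D) ^ 2 = 4 * A ^ 2 * B ^ 2 * C ^ 2 * D ^ 2 := by ring
      rw [e, a2, b2]
      ring)
    (by
      have e : (2 * (A * B * C) * D) ^ 2 = 4 * A ^ 2 * B ^ 2 * C ^ 2 * D ^ 2 := by ring
      rw [e, a2, b2]
      ring)
    hC1 hD1 ⟨A * B * C * D, by ring⟩
  refine ⟨A', B', C', D', P', ?_⟩
  have h1 : padicValInt 2 (2 * (A * B * C) * D) = padicValInt 2 D + 1 := by
    rw [padicValInt.mul (mul_ne_zero two_ne_zero (ne_of_odd hABC)) P.nz,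
      padicValInt.mul two_ne_zero (ne_of_odd hABC), val_odd hABC]
    have : padicValInt 2 (2 : ℤ) = 1 := padicValInt.self (by norm_num)
    rw [this]
    ring
  have h2 : padicValInt 2 (2 * (A * B * C) * D) = padicValInt 2 D' := by
    rw [e2, padicValInt.mul P'.nz (ne_of_odd hg), val_odd hg, add_zero]
  rw [← h2, h1]

end Pool.Agent.T2h88.GP
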