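import Pool.Agent.T2h88.GP.Stm2
import Pool.Agent.H510R2.Div

set_option autoImplicit false

namespace Pool.Agent.T2h88.GP

theorem t_DIV : S_DIV := fun ε hε => Pool.Agent.H510R2.divisor_bound ε hε

end Pool.Agent.T2h88.GP
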