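import Pool.Agent.T2h88.GP.Stm2

/-!
# Task GOOD (helper94): `G q u v ≡ k (mod M)` is solvable for `M` prime to `q k`
-/

set_option autoImplicit false

namespace Pool.Agent.T2h88.GP

/-- congruences for `G` -/
theorem good_G_congr (q : ℕ) (n u v u' v' : ℤ) (hu : u ≡ u' [ZMOD n]) (hv : v ≡ v' [ZMOD n]) :
    G q u v ≡ G q u' v' [ZMOD n] := by
  unfold G
  exact (hu.mul hv).mul ((hu.pow 2).sub ((Int.ModEq.refl ((q : ℤ) ^ 4)).mul (hv.pow 2)))

/-- Chinese remainder theorem for two coprime moduli -/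
theorem good_crt (a b : ℕ) (hab : Nat.Coprime a b) (x y : ℤ) :
    ∃ z : ℤ, z ≡ x [ZMOD a] ∧ z ≡ y [ZMOD b] := by
  obtain ⟨s, t, hst⟩ := (Nat.isCoprime_iff_coprime.2 hab)
  refine ⟨x * (t * b) + y * (s * a), ?_, ?_⟩
  · apply Int.ModEq.symm
    rw [Int.modEq_iff_dvd]
    refine ⟨s * (y - x), ?_⟩
    linear_combination x * hst
  · apply Int.ModEq.symm
    rw [Int.modEq_iff_dvd]
    refine ⟨t * (x - y), ?_⟩
    linear_combination y * hst

/-- prime powers -/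
theorem good_pp (h : S_JAC) (q k p : ℕ) (hq : ∀ p : ℕ, p.Prime → p < 53 → p ∣ q) (hp : p.Prime)
    (hpqk : ¬ p ∣ q * k) (e : ℕ) :
    ∃ u v : ℤ, G q u v ≡ k [ZMOD ((p : ℤ) ^ (e + 1))] := by
  have hpq : ¬ p ∣ q := fun hh => hpqk (Dvd.dvd.mul_right hh k)
  have hpk : ¬ p ∣ k := fun hh => hpqk (Dvd.dvd.mul_left hh q)
  have h53 : 53 ≤ p := by
    by_contra hlt
    exact hpq (hq p hp (by omega))
  have : Fact p.Prime := ⟨hp⟩
  have hq0 : (q : ZMod p) ≠ 0 := fun h0 => hpq ((ZMod.natCast_eq_zero_iff q p).1 h0)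
  have hk0 : (k : ZMod p) ≠ 0 := fun h0 => hpk ((ZMod.natCast_eq_zero_iff k p).1 h0)
  have h40 : (4 : ZMod p) ≠ 0 := by
    intro h0
    have h1 : ((4 : ℕ) : ZMod p) = 0 := by exact_mod_cast h0
    have h2 := Nat.le_of_dvd (by norm_num) ((ZMod.natCast_eq_zero_iff 4 p).1 h1)
    omega
  induction e with
  | zero =>
    obtain ⟨u, w, huw⟩ := h p h53 ((k : ZMod p) * (q : ZMod p) ^ 2) (mul_ne_zero hk0 (pow_ne_zero _ hq0))
    refine ⟨(u.val : ℤ), ((w * ((q : ZMod p) ^ 2)⁻¹).val : ℤ), ?_⟩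
    rw [zero_add, pow_one, ← ZMod.intCast_eq_intCast_iff]
    unfold G
    push_cast
    rw [ZMod.natCast_zmod_val, ZMod.natCast_zmod_val]
    have h3 : u * (w * ((q : ZMod p) ^ 2)⁻¹) * (u ^ 2 - (q : ZMod p) ^ 4 * (w * ((q : ZMod p) ^ 2)⁻¹) ^ 2)
        = (u * w * (u ^ 2 - w ^ 2)) * ((q : ZMod p) ^ 2)⁻¹ := by
      field_simp
    rw [h3, huw]
    field_simp
  | succ e ih =>
    obtain ⟨u, v, huv⟩ := ih
    obtain ⟨r, hr⟩ := (Int.modEq_iff_dvd.1 huv.symm)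
    -- `G q u v - k = p ^ (e + 1) * r`
    have hGk : ((G q u v : ℤ) : ZMod p) = (k : ZMod p) := by
      have h1 : (G q u v : ℤ) ≡ k [ZMOD (p : ℤ)] := by
        refine Int.ModEq.of_dvd ?_ huv
        exact dvd_pow_self _ (Nat.succ_ne_zero e)
      have h2 := (ZMod.intCast_eq_intCast_iff _ _ p).2 h1
      rw [h2]
      push_cast
      rfl
    set t : ZMod p := -(r : ZMod p) * (4 * (k : ZMod p))⁻¹ with ht
    have hdiv : (p : ℤ) ∣ r + 4 * (t.val : ℤ) * G q u v := by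
      rw [← ZMod.intCast_zmod_eq_zero_iff_dvd]
      push_cast
      rw [ZMod.natCast_zmod_val, hGk, ht]
      field_simp
      ring
    obtain ⟨m, hm⟩ := hdiv
    set P : ℤ := (p : ℤ) ^ (e + 1) with hP
    set T : ℤ := (t.val : ℤ) with hT
    refine ⟨(1 + P * T) * u, (1 + P * T) * v, ?_⟩
    have hPP : (p : ℤ) ^ (e + 1 + 1) = P * p := by rw [hP, pow_succ]
    rw [hPP]
    apply Int.ModEq.symm
    rw [Int.modEq_iff_dvd]
    have hPd : P = p * (p : ℤ) ^ e := by rw [hP, pow_succ, mul_comm]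
    refine ⟨m + (p : ℤ) ^ e * (6 * T ^ 2 + 4 * P * T ^ 3 + P ^ 2 * T ^ 4) * G q u v, ?_⟩
    have h5 : G q ((1 + P * T) * u) ((1 + P * T) * v) = (1 + P * T) ^ 4 * G q u v := by
      unfold G
      ring
    rw [h5]
    have h6 : P * ↑p * (m + (p : ℤ) ^ e * (6 * T ^ 2 + 4 * P * T ^ 3 + P ^ 2 * T ^ 4) * G q u v)
        = P * (p * m) + P * (p * (p : ℤ) ^ e) * ((6 * T ^ 2 + 4 * P * T ^ 3 + P ^ 2 * T ^ 4) * G q u v) := by
      ring
    rw [h6, ← hPd, ← hm]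
    linear_combination hr

theorem t_GOOD (h : S_JAC) : S_GOOD := by
  intro q k M hq
  induction M using Nat.recOnPosPrimePosCoprime with
  | prime_pow p n hp hn =>
    intro _ hco
    obtain ⟨e, rfl⟩ : ∃ e, n = e + 1 := ⟨n - 1, by omega⟩
    have hpqk : ¬ p ∣ q * k := by
      have h1 : Nat.Coprime p (q * k) := Nat.Coprime.coprime_dvd_left (dvd_pow_self p (by omega)) hco
      exact (Nat.Prime.coprime_iff_not_dvd hp).1 h1
    obtain ⟨u, v, huv⟩ := good_pp h q k p hq hp hpqk e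
    refine ⟨u, v, ?_⟩
    push_cast
    exact huv
  | zero => intro h0; exact absurd h0 (lt_irrefl 0)
  | one =>
    intro _ _
    refine ⟨0, 0, ?_⟩
    exact_mod_cast Int.modEq_one
  | coprime a b ha hb hab iha ihb =>
    intro _ hco
    obtain ⟨u₁, v₁, h₁⟩ := iha (by omega) (Nat.Coprime.coprime_mul_right hco)
    obtain ⟨u₂, v₂, h₂⟩ := ihb (by omega) (Nat.Coprime.coprime_mul_left hco)
    obtain ⟨u, hu₁, hu₂⟩ := good_crt a b hab u₁ u₂
    obtain ⟨v, hv₁, hv₂⟩ := good_crt a b hab v₁ v₂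
    refine ⟨u, v, ?_⟩
    have h3 : G q u v ≡ k [ZMOD a] := (good_G_congr q a u v u₁ v₁ hu₁ hv₁).trans h₁
    have h4 : G q u v ≡ k [ZMOD b] := (good_G_congr q b u v u₂ v₂ hu₂ hv₂).trans h₂
    push_cast
    apply Int.ModEq.symm
    rw [Int.modEq_iff_dvd]
    exact (Nat.isCoprime_iff_coprime.2 hab).mul_dvd (Int.modEq_iff_dvd.1 h3.symm) (Int.modEq_iff_dvd.1 h4.symm)

end Pool.Agent.T2h88.GP
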