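import Pool.Agent.T2h88.GP.Stm

set_option autoImplicit false

namespace Pool.Agent.T2h88.GP

namespace HEN

theorem step {Q N p j : ℕ} {c s : ℤ} (h16 : 16 ∣ Q) (hp : p.Prime) (hpQ : p ∣ Q)
    (hj : Nat.Coprime j Q) (hc : c ≡ (j : ℤ) ^ 4 [ZMOD Q]) (hs : s ^ 4 ≡ c [ZMOD (Q * N : ℕ)]) :
    ∃ s : ℤ, s ^ 4 ≡ c [ZMOD (Q * (p * N) : ℕ)] := by
  obtain ⟨Q', rfl⟩ := h16
  have hpI : Prime (p : ℤ) := Nat.prime_iff_prime_int.1 hp
  obtain ⟨e, he⟩ := hs.dvd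
  obtain ⟨f, hf⟩ := hc.dvd
  have hpQ' : (p : ℤ) ∣ ((16 * Q' : ℕ) : ℤ) := Int.natCast_dvd_natCast.2 hpQ
  have hps : ¬ (p : ℤ) ∣ s := by
    intro h
    have h1 : (p : ℤ) ∣ (j : ℤ) ^ 4 := by
      have e1 : (j : ℤ) ^ 4 = s ^ 4 + ((16 * Q' : ℕ) : ℤ) * ((N : ℤ) * e + f) := by
        have h2 : (((16 * Q' * N : ℕ)) : ℤ) = ((16 * Q' : ℕ) : ℤ) * N := by push_cast; ring
        rw [h2] at he
        linear_combination he + hf
      rw [e1]
      exact dvd_add (dvd_pow h (by norm_num)) (hpQ'.mul_right _)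
    have h2 : p ∣ j := Int.natCast_dvd_natCast.1 (hpI.dvd_of_dvd_pow h1)
    exact Nat.Prime.not_coprime_iff_dvd.2 ⟨p, hp, h2, hpQ⟩ hj
  have hcop : IsCoprime (s ^ 3) (p : ℤ) :=
    IsCoprime.pow_left ((hpI.coprime_iff_not_dvd.2 hps).symm)
  obtain ⟨a, b, hab⟩ := hcop
  have h2U : (p : ℤ) ∣ 2 * ((Q' : ℤ) * N) := by
    have h3 : (p : ℤ) ∣ 2 * (Q' : ℤ) := by
      by_cases h2 : p = 2
      · subst h2
        exact dvd_mul_right _ _
      · have h4 : (p : ℤ) ∣ 16 * (Q' : ℤ) := by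
          have := hpQ'
          push_cast at this
          exact this
        rcases hpI.dvd_or_dvd h4 with h5 | h5
        · exfalso
          have h6 : (p : ℤ) ∣ (2 : ℤ) ^ 4 := by
            have : (2 : ℤ) ^ 4 = 16 := by norm_num
            rwa [this]
          have h7 := Int.natCast_dvd_natCast.1 (hpI.dvd_of_dvd_pow h6)
          exact h2 ((Nat.prime_dvd_prime_iff_eq hp Nat.prime_two).1 h7)
        · exact h5.mul_left 2
    obtain ⟨x, hx⟩ := h3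
    exact ⟨x * N, by linear_combination (N : ℤ) * hx⟩
  obtain ⟨x, hx⟩ := h2U
  refine ⟨s + 4 * ((Q' : ℤ) * N) * (a * e), ?_⟩
  rw [Int.modEq_iff_dvd]
  refine ⟨b * e - x * (3 * s ^ 2 * (a * e) ^ 2 + 8 * s * ((Q' : ℤ) * N) * (a * e) ^ 3 +
    8 * ((Q' : ℤ) * N) ^ 2 * (a * e) ^ 4), ?_⟩
  push_cast at he hx ⊢
  have h8 : c = s ^ 4 + 16 * Q' * N * e := by linear_combination he
  rw [h8]
  have h9 : e = a * s ^ 3 * e + b * p * e := by linear_combination (-e) * hab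
  linear_combination (16 * (Q' : ℤ) * N) * (h9 - (3 * s ^ 2 * (a * e) ^ 2 +
    8 * s * ((Q' : ℤ) * N) * (a * e) ^ 3 + 8 * ((Q' : ℤ) * N) ^ 2 * (a * e) ^ 4) * hx)

end HEN

theorem t_HEN : S_HEN := by
  intro Q N j c h16 hQ hN hpN hj hc
  induction N using Nat.strong_induction_on with
  | _ N ih =>
    by_cases h1 : N = 1
    · subst h1
      refine ⟨j, ?_⟩
      rw [mul_one]
      exact hc.symm
    · obtain ⟨p, hp, hpd⟩ := Nat.exists_prime_and_dvd h1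
      obtain ⟨N', rfl⟩ := hpd
      have hN' : 0 < N' := Nat.pos_of_ne_zero (by
        rintro rfl
        simp at hN)
      obtain ⟨s, hs⟩ := ih N' (by
        have := hp.two_le
        nlinarith) hN' fun q hq hqN => hpN q hq (hqN.mul_left p)
      exact HEN.step h16 hp (hpN p hp (dvd_mul_right p N')) hj hc hs

end Pool.Agent.T2h88.GP
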