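import Pool.Agent.T2h88.GP.Stm

/-! Task INI: the first point (helper7). -/

set_option autoImplicit false

namespace Pool.Agent.T2h88.GP

namespace INI

theorem int_of_sq {u : ℚ} {z : ℤ} (h : u ^ 2 = (z : ℚ)) : ∃ A : ℤ, (A : ℚ) = u := by
  obtain ⟨y, hy⟩ := IsIntegrallyClosed.exists_algebraMap_eq_of_isIntegral_pow (R := ℤ) (x := u)
    (n := 2) two_pos (by
      rw [h]
      exact isIntegral_algebraMap (R := ℤ) (A := ℚ) (x := z))
  exact ⟨y, hy⟩

theorem mod8 : ∀ A B C : ZMod 8, B ^ 2 = 2 * C ^ 2 - A ^ 2 → C ^ 2 - A ^ 2 = 0 ∨ C ^ 2 - A ^ 2 = 4 := by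
  decide

theorem odd8 : ∀ D : ZMod 8, D = 1 ∨ D = 3 ∨ D = 5 ∨ D = 7 → D ^ 2 = 1 := by
  decide

end INI

open INI in
theorem t_INI : S_INI := by
  intro h hsq ⟨a, b, c, _, _, _, h1, h2⟩
  obtain ⟨x, hx⟩ : ∃ x : ℚ, x = c / 2 := ⟨_, rfl⟩
  have hD0 : (x.den : ℚ) ≠ 0 := by exact_mod_cast x.den_nz
  have hxC : x * x.den = x.num := Rat.mul_den_eq_num x
  have hA2 : ((x.den : ℚ) * ((a - b) / 2)) ^ 2 = ((x.num ^ 2 - h * (x.den : ℤ) ^ 2 : ℤ) : ℚ) := by
    push_cast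
    rw [← hxC, hx, h2]
    have hc2 : c ^ 2 = a ^ 2 + b ^ 2 := h1.symm
    ring_nf
    rw [hc2]
    ring
  have hB2 : ((x.den : ℚ) * ((a + b) / 2)) ^ 2 = ((x.num ^ 2 + h * (x.den : ℤ) ^ 2 : ℤ) : ℚ) := by
    push_cast
    rw [← hxC, hx, h2]
    have hc2 : c ^ 2 = a ^ 2 + b ^ 2 := h1.symm
    ring_nf
    rw [hc2]
    ring
  obtain ⟨A, hA⟩ := int_of_sq hA2
  obtain ⟨B, hB⟩ := int_of_sq hB2
  rw [← hA] at hA2
  rw [← hB] at hB2
  have eA : A ^ 2 = x.num ^ 2 - h * (x.den : ℤ) ^ 2 := by exact_mod_cast hA2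
  have eB : B ^ 2 = x.num ^ 2 + h * (x.den : ℤ) ^ 2 := by exact_mod_cast hB2
  refine ⟨A, B, x.num, x.den, eA, eB, ?_, ?_, ?_⟩
  · exact Int.isCoprime_iff_gcd_eq_one.2 x.reduced
  · exact_mod_cast x.den_nz
  · by_contra hodd
    have h4 : ¬ 4 ∣ h := by
      intro h5
      have h6 := hsq 2 (by simpa using h5)
      rw [Nat.isUnit_iff] at h6
      omega
    have hDm : ((x.den : ℤ) : ZMod 8) ^ 2 = 1 := by
      apply odd8
      have h7 : (x.den : ℤ) % 8 = 1 ∨ (x.den : ℤ) % 8 = 3 ∨ (x.den : ℤ) % 8 = 5 ∨ (x.den : ℤ) % 8 = 7 := by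
        omega
      have h8 : ∀ r : ℤ, (x.den : ℤ) % 8 = r → ((x.den : ℤ) : ZMod 8) = (r : ZMod 8) := by
        intro r hr
        rw [← hr]
        exact ((ZMod.intCast_eq_intCast_iff _ _ 8).2 (Int.mod_modEq _ _)).symm
      rcases h7 with h7 | h7 | h7 | h7
      · left
        rw [h8 _ h7]
        rfl
      · right; left
        rw [h8 _ h7]
        rfl
      · right; right; left
        rw [h8 _ h7]
        rfl
      · right; right; right
        rw [h8 _ h7]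
        rfl
    have eA8 := congrArg (fun z : ℤ => (z : ZMod 8)) eA
    have eB8 := congrArg (fun z : ℤ => (z : ZMod 8)) eB
    simp only [Int.cast_pow, Int.cast_sub, Int.cast_add, Int.cast_mul, hDm, mul_one] at eA8 eB8
    have hh : (((h : ℕ) : ℤ) : ZMod 8) = (x.num : ZMod 8) ^ 2 - (A : ZMod 8) ^ 2 := by
      rw [eA8]
      ring
    have h9 := mod8 (A : ZMod 8) (B : ZMod 8) (x.num : ZMod 8) (by
      rw [eB8, hh]
      ring)
    rw [← hh, Int.cast_natCast] at h9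
    rcases h9 with h9 | h9
    · have h10 := (ZMod.natCast_eq_zero_iff h 8).1 h9
      omega
    · have h10 : ((h : ℕ) : ZMod 8) = ((4 : ℕ) : ZMod 8) := h9
      rw [ZMod.natCast_eq_natCast_iff] at h10
      have h11 : h % 8 = 4 % 8 := h10
      omega

end Pool.Agent.T2h88.GP
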