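import Pool.Agent.T2h88.GP.Stm2

/-! JAC: `u v (u² - v²)` takes all nonzero values modulo a prime `p ≥ 53`. -/

set_option autoImplicit false

namespace Pool.Agent.T2h88.GP

namespace JAC

open Finset

variable {p : ℕ} [Fact p.Prime]

lemma psi0 (ψ : MulChar (ZMod p) ℂ) : ψ 0 = 0 := ψ.map_nonunit not_isUnit_zero

lemma psi_mul_inv (ψ : MulChar (ZMod p) ℂ) (x : ZMod p) :
    ψ x * ψ⁻¹ x = 1 - if x = 0 then 1 else 0 := by
  rw [MulChar.inv_apply']
  by_cases hx : x = 0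
  · simp [hx, psi0]
  · rw [← map_mul, mul_inv_cancel₀ hx, map_one, if_neg hx, sub_zero]

lemma inner_sum (ψ : MulChar (ZMod p) ℂ) (h1 : ψ ≠ 1) (A B : ZMod p) :
    ∑ c, ψ (A - c) * ψ⁻¹ (B - c) = (if A = B then (p : ℂ) else 0) - 1 := by
  have h2 : ∑ c, ψ (A - c) * ψ⁻¹ (B - c) = ∑ x : ZMod p, ψ (x + (A - B)) * ψ⁻¹ x := by
    refine Fintype.sum_equiv (Equiv.subLeft B) _ _ fun c => ?_
    have e1 : (Equiv.subLeft B) c = B - c := rfl
    have e2 : A - c = (B - c) + (A - B) := by ring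
    rw [e1, ← e2]
  rw [h2]
  split_ifs with h
  · subst h
    simp only [sub_self, add_zero, psi_mul_inv, Finset.sum_sub_distrib, Finset.sum_ite_eq',
      Finset.mem_univ, if_true]
    simp
  · have hD : A - B ≠ 0 := sub_ne_zero.2 h
    set D := A - B with hDdef
    have h3 : ∀ x : ZMod p, ψ (x + D) * ψ⁻¹ x = ψ (1 + D * x⁻¹) - if x = 0 then 1 else 0 := by
      intro x
      by_cases hx : x = 0
      · subst hx
        rw [MulChar.inv_apply']
        simp [psi0]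
      · rw [MulChar.inv_apply', ← map_mul, if_neg hx, sub_zero]
        congr 1
        field_simp
    simp only [h3, Finset.sum_sub_distrib, Finset.sum_ite_eq', Finset.mem_univ, if_true]
    have h4 : ∑ x : ZMod p, ψ (1 + D * x⁻¹) = ∑ x : ZMod p, ψ x := by
      have h5 : ∑ x : ZMod p, ψ (1 + D * x⁻¹) = ∑ x : ZMod p, ψ (1 + D * x) :=
        Fintype.sum_equiv (Equiv.mk (fun x : ZMod p => x⁻¹) (fun x => x⁻¹) (fun x => inv_inv x)
          (fun x => inv_inv x)) _ _ fun x => rfl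
      rw [h5]
      exact Fintype.sum_equiv ((Equiv.mulLeft₀ D hD).trans (Equiv.addLeft 1)) _ _ fun x => rfl
    rw [h4, MulChar.sum_eq_zero_of_ne_one h1]

/-- the character sum -/
noncomputable def T (ψ : MulChar (ZMod p) ℂ) (c : ZMod p) : ℂ := ∑ t, ψ (t ^ 3 - c * t)

lemma card2 (c : ZMod p) : (univ.filter (fun d : ZMod p => d ^ 2 = c)).card ≤ 2 := by
  rcases (univ.filter (fun d : ZMod p => d ^ 2 = c)).eq_empty_or_nonempty with h | ⟨d0, h0⟩
  · rw [h]; simp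
  · have hsub : univ.filter (fun d : ZMod p => d ^ 2 = c) ⊆ {d0, -d0} := by
      intro d hd
      rw [Finset.mem_filter] at hd h0
      rw [Finset.mem_insert, Finset.mem_singleton]
      exact sq_eq_sq_iff_eq_or_eq_neg.1 (hd.2.trans h0.2.symm)
    exact (Finset.card_le_card hsub).trans Finset.card_le_two

lemma second (ψ : MulChar (ZMod p) ℂ) (h1 : ψ ≠ 1) : ∑ c, ‖T ψ c‖ ^ 2 ≤ 2 * (p : ℝ) ^ 2 := by
  have hT : ∀ c, T ψ c = ∑ t, ψ t * ψ (t ^ 2 - c) := by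
    intro c
    unfold T
    refine Finset.sum_congr rfl fun t _ => ?_
    rw [← map_mul]
    congr 1
    ring
  have hTc : ∀ c, star (T ψ c) = ∑ s, ψ⁻¹ s * ψ⁻¹ (s ^ 2 - c) := by
    intro c
    rw [hT, star_sum]
    refine Finset.sum_congr rfl fun t _ => ?_
    rw [star_mul', MulChar.star_apply', MulChar.star_apply']
  have h2 : ((∑ c, ‖T ψ c‖ ^ 2 : ℝ) : ℂ) =
      (p : ℂ) * ∑ t, ∑ s, (if t ^ 2 = s ^ 2 then ψ t * ψ⁻¹ s else 0) := by
    have h3 : ((∑ c, ‖T ψ c‖ ^ 2 : ℝ) : ℂ) = ∑ c, T ψ c * star (T ψ c) := by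
      push_cast
      refine Finset.sum_congr rfl fun c _ => ?_
      rw [Complex.star_def, Complex.mul_conj']
    rw [h3]
    have h4 : ∀ c, T ψ c * star (T ψ c) =
        ∑ t, ∑ s, (ψ t * ψ⁻¹ s) * (ψ (t ^ 2 - c) * ψ⁻¹ (s ^ 2 - c)) := by
      intro c
      rw [hTc, hT, Finset.sum_mul_sum]
      refine Finset.sum_congr rfl fun t _ => Finset.sum_congr rfl fun s _ => ?_
      ring
    simp only [h4]
    rw [Finset.sum_comm]
    have h5 : ∀ t : ZMod p, ∑ c, ∑ s, (ψ t * ψ⁻¹ s) * (ψ (t ^ 2 - c) * ψ⁻¹ (s ^ 2 - c)) =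
        ∑ s, ((p : ℂ) * (if t ^ 2 = s ^ 2 then ψ t * ψ⁻¹ s else 0) - ψ t * ψ⁻¹ s) := by
      intro t
      rw [Finset.sum_comm]
      refine Finset.sum_congr rfl fun s _ => ?_
      rw [← Finset.mul_sum, inner_sum ψ h1]
      split_ifs <;> ring
    simp only [h5, Finset.sum_sub_distrib]
    have h6 : ∑ t, ∑ s, ψ t * ψ⁻¹ s = 0 := by
      rw [← Finset.sum_mul_sum, MulChar.sum_eq_zero_of_ne_one h1, zero_mul]
    rw [h6, sub_zero, Finset.mul_sum]
    refine Finset.sum_congr rfl fun t _ => ?_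
    rw [Finset.mul_sum]
  have h3 : ‖((∑ c, ‖T ψ c‖ ^ 2 : ℝ) : ℂ)‖ ≤ 2 * (p : ℝ) ^ 2 := by
    rw [h2, norm_mul]
    have h4 : ‖∑ t, ∑ s, (if t ^ 2 = s ^ 2 then ψ t * ψ⁻¹ s else 0)‖ ≤ ∑ _t : ZMod p, (2 : ℝ) := by
      refine (norm_sum_le _ _).trans (Finset.sum_le_sum fun t _ => ?_)
      refine (norm_sum_le _ _).trans ?_
      have h5 : ∀ s : ZMod p, ‖(if t ^ 2 = s ^ 2 then ψ t * ψ⁻¹ s else 0)‖ ≤
          if s ^ 2 = t ^ 2 then (1 : ℝ) else 0 := by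
        intro s
        by_cases hs : t ^ 2 = s ^ 2
        · rw [if_pos hs, if_pos hs.symm, norm_mul]
          have a1 : ‖ψ t‖ ≤ 1 := DirichletCharacter.norm_le_one ψ t
          have a2 : ‖ψ⁻¹ s‖ ≤ 1 := DirichletCharacter.norm_le_one ψ⁻¹ s
          exact mul_le_one₀ a1 (norm_nonneg _) a2
        · rw [if_neg hs, if_neg (fun h => hs h.symm), norm_zero]
      refine (Finset.sum_le_sum fun s _ => h5 s).trans ?_
      rw [← Finset.sum_filter, Finset.sum_const, nsmul_eq_mul, mul_one]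
      exact_mod_cast card2 (t ^ 2)
    have h6 : ∑ _t : ZMod p, (2 : ℝ) = 2 * p := by
      rw [Finset.sum_const, Finset.card_univ, ZMod.card, nsmul_eq_mul, mul_comm]
    rw [h6] at h4
    have h7 : ‖(p : ℂ)‖ = p := by simp
    rw [h7]
    calc (p : ℝ) * _ ≤ (p : ℝ) * (2 * p) := mul_le_mul_of_nonneg_left h4 (Nat.cast_nonneg _)
      _ = _ := by ring
  rw [Complex.norm_real, Real.norm_eq_abs] at h3
  exact (le_abs_self _).trans h3

lemma norm_T_sq (ψ : MulChar (ZMod p) ℂ) {d : ZMod p} (hd : d ≠ 0) :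
    ‖T ψ (d ^ 2)‖ = ‖T ψ 1‖ := by
  have h1 : T ψ (d ^ 2) = ψ (d ^ 3) * T ψ 1 := by
    unfold T
    rw [Finset.mul_sum]
    symm
    refine Fintype.sum_equiv (Equiv.mulLeft₀ d hd) _ _ fun t => ?_
    rw [← map_mul]
    congr 1
    have e1 : (Equiv.mulLeft₀ d hd) t = d * t := rfl
    rw [e1]
    ring
  have h2 : IsUnit (d ^ 3) := (isUnit_iff_ne_zero.2 hd).pow 3
  have h3 : ‖ψ (d ^ 3)‖ = 1 := by
    have := DirichletCharacter.unit_norm_eq_one ψ h2.unit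
    rwa [IsUnit.unit_spec] at this
  rw [h1, norm_mul, h3, one_mul]

lemma T_bound (ψ : MulChar (ZMod p) ℂ) (h1 : ψ ≠ 1) :
    ((p : ℝ) - 1) * ‖T ψ 1‖ ^ 2 ≤ 4 * (p : ℝ) ^ 2 := by
  have h2 := second ψ h1
  have h3 : ∑ d : ZMod p, ‖T ψ (d ^ 2)‖ ^ 2 ≤ 2 * ∑ c, ‖T ψ c‖ ^ 2 := by
    rw [← Finset.sum_fiberwise univ (fun d : ZMod p => d ^ 2) (fun d => ‖T ψ (d ^ 2)‖ ^ 2),
      Finset.mul_sum]
    refine Finset.sum_le_sum fun c _ => ?_
    have h4 : ∑ d ∈ univ.filter (fun d : ZMod p => d ^ 2 = c), ‖T ψ (d ^ 2)‖ ^ 2 =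
        ∑ _d ∈ univ.filter (fun d : ZMod p => d ^ 2 = c), ‖T ψ c‖ ^ 2 := by
      refine Finset.sum_congr rfl fun d hd => ?_
      rw [(Finset.mem_filter.1 hd).2]
    rw [h4, Finset.sum_const, nsmul_eq_mul]
    exact mul_le_mul_of_nonneg_right (by exact_mod_cast card2 c) (by positivity)
  have h5 : ((p : ℝ) - 1) * ‖T ψ 1‖ ^ 2 ≤ ∑ d : ZMod p, ‖T ψ (d ^ 2)‖ ^ 2 := by
    have h6 : ∑ d : ZMod p, (1 - (if d = 0 then (1 : ℝ) else 0)) * ‖T ψ 1‖ ^ 2 =
        ((p : ℝ) - 1) * ‖T ψ 1‖ ^ 2 := by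
      rw [← Finset.sum_mul, Finset.sum_sub_distrib, Finset.sum_ite_eq' univ (0 : ZMod p)]
      simp
    rw [← h6]
    refine Finset.sum_le_sum fun d _ => ?_
    by_cases hd : d = 0
    · rw [if_pos hd, sub_self, zero_mul]
      positivity
    · rw [if_neg hd, sub_zero, one_mul, norm_T_sq ψ hd]
  linarith

lemma ker (χ : MulChar (ZMod p) ℂ) (hχ : orderOf χ = 4) {c : ZMod p} (hc : c ≠ 0)
    (h : χ c = 1) : ∃ w : ZMod p, w ≠ 0 ∧ c = w ^ 4 := by
  obtain ⟨g, hg⟩ := IsCyclic.exists_generator (α := (ZMod p)ˣ)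
  obtain ⟨m, hm⟩ := (Submonoid.mem_powers_iff _ _).1 (mem_powers_iff_mem_zpowers.2
    (hg (Units.mk0 c hc)))
  have hcm : c = (g : ZMod p) ^ m := by
    have := congrArg Units.val hm
    simpa using this.symm
  have h1 : χ (g : ZMod p) ^ m = 1 := by rw [← map_pow, ← hcm, h]
  have h2 : χ ^ m = 1 := by
    rw [MulChar.eq_one_iff]
    intro y
    obtain ⟨i, hi⟩ := (Submonoid.mem_powers_iff _ _).1 (mem_powers_iff_mem_zpowers.2 (hg y))
    rw [MulChar.pow_apply_coe, ← hi, Units.val_pow_eq_pow_val, map_pow, ← pow_mul, mul_comm i m,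
      pow_mul, h1, one_pow]
  have h3 : 4 ∣ m := hχ ▸ orderOf_dvd_of_pow_eq_one h2
  obtain ⟨l, rfl⟩ := h3
  refine ⟨(g : ZMod p) ^ l, pow_ne_zero _ g.ne_zero, ?_⟩
  rw [hcm, ← pow_mul, mul_comm]

lemma main1 (h53 : 53 ≤ p) (h4 : p % 4 = 1) {a : ZMod p} (ha : a ≠ 0) :
    ∃ t w : ZMod p, w ≠ 0 ∧ t ^ 3 - t = a * w ^ 4 := by
  by_contra hcon
  push Not at hcon
  have hdvd : 4 ∣ Fintype.card (ZMod p) - 1 := by
    rw [ZMod.card]; omega
  obtain ⟨χ, hχ⟩ := MulChar.exists_mulChar_orderOf (ZMod p) (n := 4) hdvd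
    (Complex.isPrimitiveRoot_exp 4 (by norm_num))
  have hne : ∀ j : ℕ, 0 < j → j < 4 → χ ^ j ≠ 1 := by
    intro j hj0 hj4 h
    have := hχ ▸ orderOf_dvd_of_pow_eq_one h
    have := Nat.le_of_dvd hj0 this
    omega
  have hχ4 : χ ^ 4 = 1 := hχ ▸ pow_orderOf_eq_one χ
  set z : ZMod p → ℂ := fun t => χ ((t ^ 3 - t) * a⁻¹) with hz
  have hA : ∀ t : ZMod p, z t + z t ^ 2 + z t ^ 3 = if t ^ 3 - t = 0 then 0 else -1 := by
    intro t
    by_cases ht : t ^ 3 - t = 0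
    · simp [hz, ht, psi0]
    · rw [if_neg ht]
      have hx : (t ^ 3 - t) * a⁻¹ ≠ 0 := mul_ne_zero ht (inv_ne_zero ha)
      have h5 : z t ^ 4 = 1 := by
        have h6 : (χ ^ 4) ((t ^ 3 - t) * a⁻¹) = z t ^ 4 := MulChar.pow_apply' χ (by norm_num) _
        rw [← h6, hχ4, MulChar.one_apply (isUnit_iff_ne_zero.2 hx)]
      have h7 : z t ≠ 1 := by
        intro h8
        obtain ⟨w, hw, hw2⟩ := ker χ hχ hx h8
        refine hcon t w hw ?_
        rw [← hw2]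
        field_simp
      have h9 : (z t - 1) * (z t + z t ^ 2 + z t ^ 3 + 1) = 0 := by
        have : (z t - 1) * (z t + z t ^ 2 + z t ^ 3 + 1) = z t ^ 4 - 1 := by ring
        rw [this, h5, sub_self]
      have h10 := (mul_eq_zero.1 h9).resolve_left (sub_ne_zero.2 h7)
      linear_combination h10
  have hS : ∑ t, (z t + z t ^ 2 + z t ^ 3) =
      (χ ^ 1) a⁻¹ * T (χ ^ 1) 1 + (χ ^ 2) a⁻¹ * T (χ ^ 2) 1 + (χ ^ 3) a⁻¹ * T (χ ^ 3) 1 := by
    unfold T
    rw [Finset.mul_sum, Finset.mul_sum, Finset.mul_sum, ← Finset.sum_add_distrib,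
      ← Finset.sum_add_distrib]
    refine Finset.sum_congr rfl fun t _ => ?_
    have e : ∀ j : ℕ, j ≠ 0 → (χ ^ j) a⁻¹ * (χ ^ j) (t ^ 3 - 1 * t) = z t ^ j := by
      intro j hj
      rw [← map_mul, MulChar.pow_apply' χ hj]
      simp only [hz]
      congr 2
      ring
    rw [e 1 (by norm_num), e 2 (by norm_num), e 3 (by norm_num), pow_one]
  have hcard : (univ.filter fun t : ZMod p => t ^ 3 - t = 0).card ≤ 3 := by
    have hsub : (univ.filter fun t : ZMod p => t ^ 3 - t = 0) ⊆ {0, 1, -1} := by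
      intro t ht
      rw [Finset.mem_filter] at ht
      have h5 : t * ((t - 1) * (t + 1)) = 0 := by rw [← ht.2]; ring
      simp only [Finset.mem_insert, Finset.mem_singleton]
      rcases mul_eq_zero.1 h5 with h | h
      · exact Or.inl h
      · rcases mul_eq_zero.1 h with h | h
        · exact Or.inr (Or.inl (sub_eq_zero.1 h))
        · exact Or.inr (Or.inr (eq_neg_of_add_eq_zero_left h))
    exact (Finset.card_le_card hsub).trans Finset.card_le_three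
  have hS2 : ∑ t, (z t + z t ^ 2 + z t ^ 3) =
      ((((univ.filter fun t : ZMod p => t ^ 3 - t = 0).card : ℝ) - p : ℝ) : ℂ) := by
    simp only [hA]
    have e : ∀ t : ZMod p, (if t ^ 3 - t = 0 then (0 : ℂ) else -1) =
        (if t ^ 3 - t = 0 then (1 : ℂ) else 0) - 1 := by
      intro t; split_ifs <;> ring
    simp only [e, Finset.sum_sub_distrib, ← Finset.sum_filter, Finset.sum_const, Finset.card_univ,
      ZMod.card, nsmul_eq_mul, mul_one]
    push_cast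
    rfl
  have hnorm : (p : ℝ) - 3 ≤ ‖T (χ ^ 1) 1‖ + ‖T (χ ^ 2) 1‖ + ‖T (χ ^ 3) 1‖ := by
    have h5 : (p : ℝ) - 3 ≤ ‖∑ t, (z t + z t ^ 2 + z t ^ 3)‖ := by
      rw [hS2, Complex.norm_real, Real.norm_eq_abs, abs_sub_comm]
      refine le_trans ?_ (le_abs_self _)
      have : (((univ.filter fun t : ZMod p => t ^ 3 - t = 0).card : ℕ) : ℝ) ≤ 3 := by
        exact_mod_cast hcard
      linarith
    refine h5.trans ?_
    rw [hS]
    have e : ∀ j : ℕ, ‖(χ ^ j) a⁻¹ * T (χ ^ j) 1‖ ≤ ‖T (χ ^ j) 1‖ := by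
      intro j
      rw [norm_mul]
      exact mul_le_of_le_one_left (norm_nonneg _) (DirichletCharacter.norm_le_one (χ ^ j) a⁻¹)
    exact (norm_add₃_le).trans (add_le_add (add_le_add (e 1) (e 2)) (e 3))
  have b1 := T_bound (χ ^ 1) (hne 1 (by norm_num) (by norm_num))
  have b2 := T_bound (χ ^ 2) (hne 2 (by norm_num) (by norm_num))
  have b3 := T_bound (χ ^ 3) (hne 3 (by norm_num) (by norm_num))
  have hp : (53 : ℝ) ≤ p := by exact_mod_cast h53
  set x := ‖T (χ ^ 1) 1‖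
  set y := ‖T (χ ^ 2) 1‖
  set w := ‖T (χ ^ 3) 1‖
  have h6 : ((p : ℝ) - 3) ^ 2 ≤ 3 * (x ^ 2 + y ^ 2 + w ^ 2) := by
    have h7 : ((p : ℝ) - 3) ^ 2 ≤ (x + y + w) ^ 2 :=
      pow_le_pow_left₀ (by linarith) hnorm 2
    nlinarith [sq_nonneg (x - y), sq_nonneg (y - w), sq_nonneg (x - w)]
  have h8 : ((p : ℝ) - 1) * ((p : ℝ) - 3) ^ 2 ≤ 36 * (p : ℝ) ^ 2 := by
    have h9 : ((p : ℝ) - 1) * ((p : ℝ) - 3) ^ 2 ≤ ((p : ℝ) - 1) * (3 * (x ^ 2 + y ^ 2 + w ^ 2)) :=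
      mul_le_mul_of_nonneg_left h6 (by linarith)
    nlinarith
  nlinarith [mul_nonneg (sq_nonneg (p : ℝ)) (by linarith : (0 : ℝ) ≤ (p : ℝ) - 53)]

lemma sq_or (h3 : p % 4 = 3) (c : ZMod p) : IsSquare c ∨ IsSquare (-c) := by
  by_cases hc : c = 0
  · left; rw [hc]; exact IsSquare.zero
  by_cases h : IsSquare c
  · exact Or.inl h
  · right
    have hneg : ¬ IsSquare (-1 : ZMod p) := fun h5 => (ZMod.exists_sq_eq_neg_one_iff.1 h5) h3
    have e1 : quadraticChar (ZMod p) c = -1 := quadraticChar_neg_one_iff_not_isSquare.2 h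
    have e2 : quadraticChar (ZMod p) (-1) = -1 := quadraticChar_neg_one_iff_not_isSquare.2 hneg
    have e3 : quadraticChar (ZMod p) (-c) = 1 := by
      rw [← neg_one_mul, map_mul, e1, e2]; norm_num
    exact (quadraticChar_one_iff_isSquare (neg_ne_zero.2 hc)).1 e3

lemma four_or (h3 : p % 4 = 3) (c : ZMod p) : ∃ r : ZMod p, c = r ^ 4 ∨ c = - r ^ 4 := by
  have key : ∀ c : ZMod p, IsSquare c → ∃ r : ZMod p, c = r ^ 4 := by
    rintro c ⟨s, rfl⟩
    rcases sq_or h3 s with ⟨r, hr⟩ | ⟨r, hr⟩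
    · exact ⟨r, by rw [hr]; ring⟩
    · refine ⟨r, ?_⟩
      have : s * s = (-s) * (-s) := by ring
      rw [this, hr]; ring
  rcases sq_or h3 c with h | h
  · obtain ⟨r, hr⟩ := key c h
    exact ⟨r, Or.inl hr⟩
  · obtain ⟨r, hr⟩ := key _ h
    exact ⟨r, Or.inr (by rw [← hr, neg_neg])⟩

end JAC

open JAC in
theorem t_JAC : S_JAC := by
  intro p _ h53 a ha
  have hpr : p.Prime := Fact.out
  have hodd : p % 2 = 1 := by
    rcases hpr.eq_two_or_odd with h | h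
    · omega
    · exact h
  have hmod : p % 4 = 1 ∨ p % 4 = 3 := by omega
  rcases hmod with h | h
  · obtain ⟨t, w, hw, hE⟩ := main1 h53 h ha
    refine ⟨t / w, 1 / w, ?_⟩
    have e : t / w * (1 / w) * ((t / w) ^ 2 - (1 / w) ^ 2) = (t ^ 3 - t) / w ^ 4 := by
      field_simp
    rw [e, hE]
    field_simp
  · have h6 : (6 : ZMod p) ≠ 0 := by
      intro h7
      have h8 : ((6 : ℕ) : ZMod p) = 0 := by exact_mod_cast h7
      rw [ZMod.natCast_eq_zero_iff] at h8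
      have := Nat.le_of_dvd (by norm_num) h8
      omega
    obtain ⟨r, hr⟩ := four_or h (a / 6)
    rcases hr with hr | hr
    · refine ⟨2 * r, r, ?_⟩
      have : a = 6 * r ^ 4 := by rw [← hr]; field_simp
      rw [this]; ring
    · refine ⟨-2 * r, r, ?_⟩
      have : a = 6 * (-r ^ 4) := by rw [← hr]; field_simp
      rw [this]; ring

end Pool.Agent.T2h88.GP
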