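import Pool.Agent.T2h88.GP.Stm2

/-!
# Task LCN (helper94): local solutions for all moduli
-/

set_option autoImplicit false

namespace Pool.Agent.T2h88.GP

/-- congruences for `G` -/
theorem lcn_G_congr (q : ℕ) (n u v u' v' : ℤ) (hu : u ≡ u' [ZMOD n]) (hv : v ≡ v' [ZMOD n]) :
    G q u v ≡ G q u' v' [ZMOD n] := by
  unfold G
  exact (hu.mul hv).mul ((hu.pow 2).sub ((Int.ModEq.refl ((q : ℤ) ^ 4)).mul (hv.pow 2)))

/-- Chinese remainder theorem for two coprime moduli -/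
theorem lcn_crt (a b : ℕ) (hab : Nat.Coprime a b) (x y : ℤ) :
    ∃ z : ℤ, z ≡ x [ZMOD a] ∧ z ≡ y [ZMOD b] := by
  obtain ⟨s, t, hst⟩ := (Nat.isCoprime_iff_coprime.2 hab)
  refine ⟨x * (t * b) + y * (s * a), ?_, ?_⟩
  · apply Int.ModEq.symm
    rw [Int.modEq_iff_dvd]
    refine ⟨s * (y - x), ?_⟩
    linear_combination x * hst
  · apply Int.ModEq.symm
    rw [Int.modEq_iff_dvd]
    refine ⟨t * (x - y), ?_⟩
    linear_combination y * hst

/-- the part of `M` made of the primes dividing `a` -/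
theorem lcn_split (a : ℕ) : ∀ M : ℕ, 0 < M → ∃ D M₂ : ℕ, M = D * M₂ ∧ 0 < D ∧ 0 < M₂ ∧
    (∀ p : ℕ, p.Prime → p ∣ D → p ∣ a) ∧ Nat.Coprime M₂ a := by
  intro M
  induction M using Nat.strong_induction_on with
  | _ M ih =>
    intro hM
    by_cases hg : Nat.gcd M a = 1
    · exact ⟨1, M, (one_mul M).symm, one_pos, hM,
        fun p hp h1 => absurd (Nat.dvd_one.1 h1) hp.ne_one, hg⟩
    · obtain ⟨M', hM'⟩ := Nat.gcd_dvd_left M a
      have hg0 : 0 < Nat.gcd M a := Nat.gcd_pos_of_pos_left a hM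
      have hM'0 : 0 < M' := by
        rcases Nat.eq_zero_or_pos M' with h0 | h0
        · rw [h0, mul_zero] at hM'; omega
        · exact h0
      have hlt : M' < M := by
        have h2 : 2 ≤ Nat.gcd M a := by omega
        calc M' < 2 * M' := by omega
          _ ≤ Nat.gcd M a * M' := Nat.mul_le_mul_right _ h2
          _ = M := hM'.symm
      obtain ⟨D, M₂, h1, h2, h3, h4, h5⟩ := ih M' hlt hM'0
      refine ⟨Nat.gcd M a * D, M₂, ?_, Nat.mul_pos hg0 h2, h3, ?_, h5⟩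
      · rw [mul_assoc, ← h1]; exact hM'
      · intro p hp hpd
        rcases (Nat.Prime.dvd_mul hp).1 hpd with h6 | h6
        · exact h6.trans (Nat.gcd_dvd_right M a)
        · exact h4 p hp h6

theorem t_LCN (h1 : S_GOOD) (h2 : S_BAD) : S_LCN := by
  intro q k M hq hq0 hk0 hM
  obtain ⟨D, M₂, hMD, hD0, hM₂0, hDp, hco⟩ := lcn_split (q * k) M hM
  obtain ⟨u₂, v₂, hG₂⟩ := h1 q k M₂ hq hM₂0 hco
  obtain ⟨v₁, hkv, hG₁⟩ := h2 q k D hD0 hDp
  have hDM : Nat.Coprime D M₂ := by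
    refine Nat.Coprime.symm ?_
    rw [Nat.coprime_iff_gcd_eq_one]
    by_contra hne
    obtain ⟨p, hp, hpd⟩ := Nat.exists_prime_and_dvd hne
    have hp1 : p ∣ M₂ := hpd.trans (Nat.gcd_dvd_left _ _)
    have hp2 : p ∣ D := hpd.trans (Nat.gcd_dvd_right _ _)
    have hp3 : p ∣ q * k := hDp p hp hp2
    exact Nat.not_coprime_of_dvd_of_dvd hp.one_lt hp1 hp3 hco
  obtain ⟨U, hU₁, hU₂⟩ := lcn_crt D M₂ hDM 1 u₂
  obtain ⟨V, hV₁, hV₂⟩ := lcn_crt D M₂ hDM v₁ v₂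
  have hMz : (0 : ℤ) < (M : ℤ) := by exact_mod_cast hM
  have hu0 : 0 ≤ U % (M : ℤ) := Int.emod_nonneg _ hMz.ne'
  have hv0 : 0 ≤ V % (M : ℤ) := Int.emod_nonneg _ hMz.ne'
  obtain ⟨u, hu⟩ := Int.eq_ofNat_of_zero_le hu0
  obtain ⟨v, hv⟩ := Int.eq_ofNat_of_zero_le hv0
  have huM : u < M := by
    have h3 : (u : ℤ) < M := by rw [← hu]; exact Int.emod_lt_of_pos _ hMz
    exact_mod_cast h3
  have hvM : v < M := by
    have h3 : (v : ℤ) < M := by rw [← hv]; exact Int.emod_lt_of_pos _ hMz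
    exact_mod_cast h3
  have huU : (u : ℤ) ≡ U [ZMOD M] := by rw [← hu]; exact Int.mod_modEq _ _
  have hvV : (v : ℤ) ≡ V [ZMOD M] := by rw [← hv]; exact Int.mod_modEq _ _
  have hDdvd : (D : ℤ) ∣ (M : ℤ) := by exact_mod_cast Dvd.intro _ hMD.symm
  have hM₂dvd : (M₂ : ℤ) ∣ (M : ℤ) := by exact_mod_cast Dvd.intro_left _ hMD.symm
  have huD : (u : ℤ) ≡ 1 [ZMOD D] := (huU.of_dvd hDdvd).trans hU₁
  have hvD : (v : ℤ) ≡ v₁ [ZMOD D] := (hvV.of_dvd hDdvd).trans hV₁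
  have huM₂ : (u : ℤ) ≡ u₂ [ZMOD M₂] := (huU.of_dvd hM₂dvd).trans hU₂
  have hvM₂ : (v : ℤ) ≡ v₂ [ZMOD M₂] := (hvV.of_dvd hM₂dvd).trans hV₂
  have hGD : G q u v ≡ k [ZMOD D] := (lcn_G_congr q D u v 1 v₁ huD hvD).trans hG₁
  have hGM₂ : G q u v ≡ k [ZMOD M₂] := (lcn_G_congr q M₂ u v u₂ v₂ huM₂ hvM₂).trans hG₂
  refine ⟨u, v, huM, hvM, ?_, ?_, ?_⟩
  · rw [Nat.coprime_iff_gcd_eq_one]
    by_contra hne
    obtain ⟨p, hp, hpd⟩ := Nat.exists_prime_and_dvd hne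
    have hp1 : p ∣ u := hpd.trans (Nat.gcd_dvd_left _ _)
    have hp2 : p ∣ M := hpd.trans (Nat.gcd_dvd_right _ _)
    rw [hMD] at hp2
    rcases (Nat.Prime.dvd_mul hp).1 hp2 with hp3 | hp3
    · have h4 : (p : ℤ) ∣ 1 - (u : ℤ) := by
        have h5 : (D : ℤ) ∣ 1 - (u : ℤ) := Int.modEq_iff_dvd.1 huD
        exact (by exact_mod_cast hp3 : (p : ℤ) ∣ (D : ℤ)).trans h5
      have h6 : (p : ℤ) ∣ 1 := by
        have h7 : (p : ℤ) ∣ (u : ℤ) := by exact_mod_cast hp1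
        have h8 := dvd_add h4 h7
        simpa using h8
      have h9 : p ∣ 1 := by exact_mod_cast h6
      exact hp.ne_one (Nat.dvd_one.1 h9)
    · have h4 : (p : ℤ) ∣ (k : ℤ) - G q u v :=
        (by exact_mod_cast hp3 : (p : ℤ) ∣ (M₂ : ℤ)).trans (Int.modEq_iff_dvd.1 hGM₂)
      have h5 : (p : ℤ) ∣ G q u v := by
        unfold G
        exact Dvd.dvd.mul_right (Dvd.dvd.mul_right (by exact_mod_cast hp1) _) _
      have h6 : (p : ℤ) ∣ (k : ℤ) := by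
        have h8 := dvd_add h4 h5
        simpa using h8
      have h7 : p ∣ k := by exact_mod_cast h6
      exact Nat.not_coprime_of_dvd_of_dvd hp.one_lt hp3 (Dvd.dvd.mul_left h7 q) hco
  · rw [hMD]
    push_cast
    apply Int.ModEq.symm
    rw [Int.modEq_iff_dvd]
    exact (Nat.isCoprime_iff_coprime.2 hDM).mul_dvd (Int.modEq_iff_dvd.1 hGD.symm)
      (Int.modEq_iff_dvd.1 hGM₂.symm)
  · intro p hp hpM hpk
    rw [hMD] at hpM
    rcases (Nat.Prime.dvd_mul hp).1 hpM with hp3 | hp3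
    · have h4 : (p : ℤ) ∣ v₁ - (v : ℤ) :=
        (by exact_mod_cast hp3 : (p : ℤ) ∣ (D : ℤ)).trans (Int.modEq_iff_dvd.1 hvD)
      have h5 : (p : ℤ) ∣ v₁ := (by exact_mod_cast hpk : (p : ℤ) ∣ (k : ℤ)).trans hkv
      have h6 : (p : ℤ) ∣ (v : ℤ) := by
        have h8 := dvd_sub h5 h4
        simpa using h8
      exact_mod_cast h6
    · exact absurd hco (Nat.not_coprime_of_dvd_of_dvd hp.one_lt hp3 (Dvd.dvd.mul_left hpk q))

end Pool.Agent.T2h88.GP
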