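import Pool.Agent.T2h88.GP.Stm2

set_option autoImplicit false

namespace Pool.Agent.T2h88.GP

namespace LNKE

open Filter

theorem exists_q : ∃ q : ℕ, 0 < q ∧ ∀ p : ℕ, p.Prime → p ≤ 1000 → p ∣ q := by
  refine ⟨∏ p ∈ (Finset.range 1001).filter Nat.Prime, p, ?_, ?_⟩
  · exact Finset.prod_pos fun p hp => (Finset.mem_filter.1 hp).2.pos
  · intro p hp hle
    exact Finset.dvd_prod_of_mem _ (Finset.mem_filter.2 ⟨Finset.mem_range.2 (by omega), hp⟩)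

/-- the modulus `M'` -/
theorem modulus (q : ℕ) (hq : 0 < q) (h2 : S_OM) (ε : ℝ) (hε : 0 < ε) :
    ∃ C : ℝ, 1 ≤ C ∧ ∀ M : ℕ, 0 < M → ∃ M' : ℕ, 0 < M' ∧ M ∣ M' ∧ q ^ 2 ∣ M' ∧
      (∀ p : ℕ, p.Prime → p ∣ M' → p ≤ 200 * (M'.primeFactors.card + 1) → p ^ 2 ∣ M') ∧
      (M' : ℝ) ≤ C * (M : ℝ) ^ (1 + ε) := by
  obtain ⟨K, hK⟩ : ∃ K : ℕ, K = 4 ^ 200 := ⟨_, rfl⟩
  have hKr : (K : ℝ) = (4 : ℝ) ^ 200 := by
    rw [hK, Nat.cast_pow, Nat.cast_ofNat]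
  obtain ⟨C, hC, hCM⟩ := h2 K ε hε
  set b : ℕ := q.primeFactors.card with hb
  refine ⟨max 1 ((q : ℝ) ^ 2 * 4 ^ (200 * (b + 1)) * C), le_max_left _ _, fun M hM => ?_⟩
  set w : ℕ := M.primeFactors.card + b with hw
  set E : ℕ := ∏ p ∈ M.primeFactors.filter (fun p => p ≤ 200 * (w + 1)), p with hE
  have hE0 : 0 < E := Finset.prod_pos fun p hp =>
    (Nat.prime_of_mem_primeFactors (Finset.mem_filter.1 hp).1).pos
  have hEM : E ∣ M := (Finset.prod_dvd_prod_of_subset _ _ _ (Finset.filter_subset _ _)).trans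
    (Nat.prod_primeFactors_dvd M)
  have hE4 : E ≤ 4 ^ (200 * (w + 1)) := by
    refine le_trans ?_ (primorial_le_four_pow (200 * (w + 1)))
    unfold primorial
    refine Nat.le_of_dvd (Finset.prod_pos fun p hp => (Finset.mem_filter.1 hp).2.pos) ?_
    refine Finset.prod_dvd_prod_of_subset _ _ _ ?_
    intro p hp
    rw [Finset.mem_filter] at hp
    rw [Finset.mem_filter, Finset.mem_range]
    exact ⟨by omega, Nat.prime_of_mem_primeFactors hp.1⟩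
  set M' : ℕ := M * E * q ^ 2 with hM'
  have hM'0 : 0 < M' := by positivity
  have hcard : M'.primeFactors.card ≤ w := by
    have h1 : M'.primeFactors ⊆ M.primeFactors ∪ q.primeFactors := by
      intro p hp
      have hpp := Nat.prime_of_mem_primeFactors hp
      have hpd := Nat.dvd_of_mem_primeFactors hp
      rw [Finset.mem_union, Nat.mem_primeFactors, Nat.mem_primeFactors]
      rcases hpp.dvd_mul.1 hpd with h | h
      · left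
        refine ⟨hpp, ?_, hM.ne'⟩
        rcases hpp.dvd_mul.1 h with h | h
        · exact h
        · exact h.trans hEM
      · right
        exact ⟨hpp, hpp.dvd_of_dvd_pow h, hq.ne'⟩
    exact (Finset.card_le_card h1).trans (Finset.card_union_le _ _)
  refine ⟨M', hM'0, ⟨E * q ^ 2, by rw [hM']; ring⟩, ⟨M * E, by rw [hM']; ring⟩, ?_, ?_⟩
  · intro p hp hpd hple
    have hple' : p ≤ 200 * (w + 1) := by
      refine hple.trans ?_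
      gcongr
    by_cases hpq : p ∣ q
    · exact (pow_dvd_pow_of_dvd hpq 2).trans ⟨M * E, by rw [hM']; ring⟩
    · have hpM : p ∣ M := by
        rcases hp.dvd_mul.1 hpd with h | h
        · rcases hp.dvd_mul.1 h with h | h
          · exact h
          · exact h.trans hEM
        · exact absurd (hp.dvd_of_dvd_pow h) hpq
      have hpE : p ∣ E := Finset.dvd_prod_of_mem _
        (Finset.mem_filter.2 ⟨Nat.mem_primeFactors.2 ⟨hp, hpM, hM.ne'⟩, hple'⟩)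
      rw [pow_two]
      exact (mul_dvd_mul hpM hpE).trans ⟨q ^ 2, by rw [hM']⟩
  · have hMr : (1 : ℝ) ≤ (M : ℝ) := by exact_mod_cast hM
    have h4 : (4 : ℝ) ^ (200 * (w + 1)) =
        4 ^ (200 * (b + 1)) * (K : ℝ) ^ (M.primeFactors.card) := by
      rw [hKr, ← pow_mul, ← pow_add]
      congr 1
      rw [hw]
      ring
    have h5 : (E : ℝ) ≤ 4 ^ (200 * (b + 1)) * (C * (M : ℝ) ^ ε) := by
      have : (E : ℝ) ≤ (4 : ℝ) ^ (200 * (w + 1)) := by exact_mod_cast hE4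
      refine this.trans ?_
      rw [h4]
      gcongr
      exact hCM M hM
    have h6 : (M' : ℝ) = (M : ℝ) * E * (q : ℝ) ^ 2 := by
      rw [hM']
      push_cast
      ring
    have h7 : (M : ℝ) ^ (1 + ε) = M * (M : ℝ) ^ ε := by
      rw [Real.rpow_add (by linarith), Real.rpow_one]
    rw [h6, h7]
    calc (M : ℝ) * E * (q : ℝ) ^ 2 ≤ (M : ℝ) * (4 ^ (200 * (b + 1)) * (C * (M : ℝ) ^ ε)) * (q : ℝ) ^ 2 := by
          gcongr
      _ = ((q : ℝ) ^ 2 * 4 ^ (200 * (b + 1)) * C) * (M * (M : ℝ) ^ ε) := by ring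
      _ ≤ max 1 ((q : ℝ) ^ 2 * 4 ^ (200 * (b + 1)) * C) * (M * (M : ℝ) ^ ε) := by
          gcongr
          exact le_max_right _ _

theorem congr_of {q u v : ℕ} (hq : 0 < q) (hv : 0 < v) (h : q ^ 2 * v < u) :
    IsCongruent (u * v * (u ^ 2 - q ^ 4 * v ^ 2)) := by
  have hlt : q ^ 4 * v ^ 2 < u ^ 2 := by
    have := Nat.pow_lt_pow_left h (n := 2) two_ne_zero
    calc q ^ 4 * v ^ 2 = (q ^ 2 * v) ^ 2 := by ring
      _ < u ^ 2 := this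
  have hu : 0 < u := by omega
  have hq' : (0 : ℚ) < q := by exact_mod_cast hq
  have hv' : (0 : ℚ) < v := by exact_mod_cast hv
  have hu' : (0 : ℚ) < u := by exact_mod_cast hu
  have hlt' : (q : ℚ) ^ 4 * v ^ 2 < u ^ 2 := by exact_mod_cast hlt
  refine ⟨((u : ℚ) ^ 2 - q ^ 4 * v ^ 2) / q, 2 * u * q * v, ((u : ℚ) ^ 2 + q ^ 4 * v ^ 2) / q,
    div_pos (by linarith) hq', by positivity, by positivity, ?_, ?_⟩
  · field_simp
    ring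
  · rw [Nat.cast_mul, Nat.cast_mul, Nat.cast_sub hlt.le]
    push_cast
    field_simp

/-- the main estimate for a fixed small `ε` -/
theorem small (h1 : S_PAIR) (h2 : S_OM) (h3 : S_DIV) (ε : ℝ) (hε : 0 < ε) (hε1 : ε ≤ 1 / 12) :
    ∃ c : ℝ, 0 < c ∧ ∃ X₀ : ℕ, ∀ X M k : ℕ, X₀ ≤ X → 0 < M →
      (M : ℝ) ≤ (X : ℝ) ^ (1 / 6 - ε) → Even k → Squarefree k →
      c * (X : ℝ) ^ (1 / 2 - ε) / (M : ℝ) ^ 2 ≤
        (({n : ℕ | n ≤ X ∧ n ≡ k [MOD M] ∧ Even n ∧ Squarefree n ∧ IsCongruent n}.ncard : ℕ) : ℝ) := by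
  classical
  obtain ⟨q, hq0, hq⟩ := exists_q
  obtain ⟨C₂, hC₂1, hmod⟩ := modulus q hq0 h2 ε hε
  obtain ⟨Y₀, hpair⟩ := h1 q ε hε hq0 hq
  obtain ⟨C₃, hC₃, hom⟩ := h2 2 (1 / 4) (by norm_num)
  obtain ⟨C₄, hC₄, hdiv⟩ := h3 (ε / 3) (by positivity)
  set C₁ : ℝ := 2 * (q : ℝ) ^ 2 + 3 with hC₁
  have hC₁0 : 0 < C₁ := by positivity
  have hC₂0 : 0 < C₂ := by linarith
  -- large X
  have hL1 : ∀ᶠ X : ℕ in atTop,
      C₁ * C₂ * (400 * (C₃ * C₂ ^ (1 / 4 : ℝ)) + Y₀ + 3) + 1 ≤ (X : ℝ) ^ (1 / 24 : ℝ) :=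
    ((tendsto_rpow_atTop (by norm_num : (0 : ℝ) < 1 / 24)).comp
      tendsto_natCast_atTop_atTop).eventually_ge_atTop _
  have hL2 : ∀ᶠ X : ℕ in atTop, 2 * C₁ * C₂ ^ (3 / 2 + ε) ≤ (X : ℝ) ^ (ε / 2) :=
    ((tendsto_rpow_atTop (by positivity : (0 : ℝ) < ε / 2)).comp
      tendsto_natCast_atTop_atTop).eventually_ge_atTop _
  obtain ⟨X₀, hX₀⟩ := eventually_atTop.1 (hL1.and (hL2.and (eventually_ge_atTop 1)))
  refine ⟨1 / (8 * C₁ ^ 2 * C₂ ^ 2 * C₄ ^ 2), by positivity, X₀, ?_⟩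
  intro X M k hX hM hMX hko hk
  obtain ⟨hx1, hx2, hXpos⟩ := hX₀ X hX
  set x : ℝ := (X : ℝ) with hx
  have hx0 : (1 : ℝ) ≤ x := by rw [hx]; exact_mod_cast hXpos
  have hxpos : 0 < x := by linarith
  set m : ℝ := (M : ℝ) with hm
  have hm1 : (1 : ℝ) ≤ m := by rw [hm]; exact_mod_cast hM
  have hm0 : 0 < m := by linarith
  obtain ⟨M', hM'0, hMM', hqM', hsq, hM'le⟩ := hmod M hM
  set m' : ℝ := (M' : ℝ) with hm'
  have hm'1 : (1 : ℝ) ≤ m' := by rw [hm']; exact_mod_cast hM'0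
  have hm'0 : 0 < m' := by linarith
  have hMe : m ^ (1 + ε) ≤ x ^ ((1 / 6 - ε) * (1 + ε)) := by
    rw [Real.rpow_mul hxpos.le]
    exact Real.rpow_le_rpow hm0.le hMX (by linarith)
  have hm'6 : m' ≤ C₂ * x ^ (1 / 6 : ℝ) := by
    refine hM'le.trans ?_
    refine mul_le_mul_of_nonneg_left (hMe.trans ?_) hC₂0.le
    exact Real.rpow_le_rpow_of_exponent_le hx0 (by nlinarith)
  have hm'32 : m' ^ (3 / 2 + ε) ≤ C₂ ^ (3 / 2 + ε) * x ^ (1 / 4 - ε / 2) := by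
    calc m' ^ (3 / 2 + ε) ≤ (C₂ * x ^ ((1 / 6 - ε) * (1 + ε))) ^ (3 / 2 + ε) := by
          refine Real.rpow_le_rpow hm'0.le (hM'le.trans ?_) (by linarith)
          exact mul_le_mul_of_nonneg_left hMe hC₂0.le
      _ = C₂ ^ (3 / 2 + ε) * x ^ ((1 / 6 - ε) * (1 + ε) * (3 / 2 + ε)) := by
          rw [Real.mul_rpow hC₂0.le (Real.rpow_nonneg hxpos.le _), ← Real.rpow_mul hxpos.le]
      _ ≤ C₂ ^ (3 / 2 + ε) * x ^ (1 / 4 - ε / 2) := by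
          refine mul_le_mul_of_nonneg_left ?_ (Real.rpow_nonneg hC₂0.le _)
          refine Real.rpow_le_rpow_of_exponent_le hx0 ?_
          have e1 : 0 ≤ ε ^ 2 := by positivity
          have e2 : 0 ≤ ε ^ 3 := by positivity
          nlinarith
  set T : ℝ := x ^ (1 / 4 : ℝ) / (C₁ * m') with hT
  have hT0 : 0 < T := by positivity
  have hT1 : 2 * m' ^ (1 / 2 + ε) ≤ T := by
    rw [hT, le_div_iff₀ (by positivity)]
    have e1 : m' ^ (1 / 2 + ε) * m' = m' ^ (3 / 2 + ε) := by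
      rw [← Real.rpow_add_one hm'0.ne']
      congr 1
      ring
    calc 2 * m' ^ (1 / 2 + ε) * (C₁ * m') = 2 * C₁ * (m' ^ (1 / 2 + ε) * m') := by ring
      _ = 2 * C₁ * m' ^ (3 / 2 + ε) := by rw [e1]
      _ ≤ 2 * C₁ * (C₂ ^ (3 / 2 + ε) * x ^ (1 / 4 - ε / 2)) := by gcongr
      _ = (2 * C₁ * C₂ ^ (3 / 2 + ε)) * x ^ (1 / 4 - ε / 2) := by ring
      _ ≤ x ^ (ε / 2) * x ^ (1 / 4 - ε / 2) := by gcongr
      _ = x ^ (1 / 4 : ℝ) := by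
          rw [← Real.rpow_add hxpos]
          congr 1
          ring
  have hx24 : (1 : ℝ) ≤ x ^ (1 / 24 : ℝ) := Real.one_le_rpow hx0 (by norm_num)
  have hT2 : (400 * (C₃ * C₂ ^ (1 / 4 : ℝ)) + Y₀ + 3) * x ^ (1 / 24 : ℝ) ≤ T := by
    rw [hT, le_div_iff₀ (by positivity)]
    have e1 : x ^ (1 / 4 : ℝ) = x ^ (1 / 24 : ℝ) * x ^ (1 / 24 : ℝ) * x ^ (1 / 6 : ℝ) := by
      rw [← Real.rpow_add hxpos, ← Real.rpow_add hxpos]
      congr 1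
      norm_num
    rw [e1]
    have e2 : 0 ≤ 400 * (C₃ * C₂ ^ (1 / 4 : ℝ)) + (Y₀ : ℝ) + 3 := by positivity
    calc (400 * (C₃ * C₂ ^ (1 / 4 : ℝ)) + Y₀ + 3) * x ^ (1 / 24 : ℝ) * (C₁ * m')
        ≤ (400 * (C₃ * C₂ ^ (1 / 4 : ℝ)) + Y₀ + 3) * x ^ (1 / 24 : ℝ) *
          (C₁ * (C₂ * x ^ (1 / 6 : ℝ))) := by gcongr
      _ = (C₁ * C₂ * (400 * (C₃ * C₂ ^ (1 / 4 : ℝ)) + Y₀ + 3)) * x ^ (1 / 24 : ℝ) *
          x ^ (1 / 6 : ℝ) := by ring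
      _ ≤ x ^ (1 / 24 : ℝ) * x ^ (1 / 24 : ℝ) * x ^ (1 / 6 : ℝ) := by
          gcongr
          linarith
  have hT3 : 400 * (C₃ * C₂ ^ (1 / 4 : ℝ)) * x ^ (1 / 24 : ℝ) + Y₀ + 3 ≤ T := by
    refine le_trans ?_ hT2
    have : ((Y₀ : ℝ) + 3) * 1 ≤ ((Y₀ : ℝ) + 3) * x ^ (1 / 24 : ℝ) := by gcongr
    nlinarith
  have hA0 : 0 ≤ 400 * (C₃ * C₂ ^ (1 / 4 : ℝ)) * x ^ (1 / 24 : ℝ) := by positivity
  have hY0r : (0 : ℝ) ≤ (Y₀ : ℝ) := Nat.cast_nonneg _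
  set Y : ℕ := ⌊T⌋₊ with hY
  have hYT : (Y : ℝ) ≤ T := Nat.floor_le hT0.le
  have hTY : T < Y + 1 := Nat.lt_floor_add_one T
  have hYhalf : T / 2 ≤ (Y : ℝ) := by linarith
  have hYY₀ : Y₀ ≤ Y := by
    have : (Y₀ : ℝ) ≤ (Y : ℝ) := by linarith
    exact_mod_cast this
  have hYw : 400 * (M'.primeFactors.card + 1) ≤ Y := by
    have e1 : ((M'.primeFactors.card + 1 : ℕ) : ℝ) ≤ (2 : ℝ) ^ (M'.primeFactors.card) := by
      have : M'.primeFactors.card + 1 ≤ 2 ^ M'.primeFactors.card :=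
        Nat.lt_two_pow_self
      exact_mod_cast this
    have e2 : (2 : ℝ) ^ (M'.primeFactors.card) ≤ C₃ * m' ^ (1 / 4 : ℝ) := by
      have := hom M' hM'0
      simpa using this
    have e3 : m' ^ (1 / 4 : ℝ) ≤ C₂ ^ (1 / 4 : ℝ) * x ^ (1 / 24 : ℝ) := by
      calc m' ^ (1 / 4 : ℝ) ≤ (C₂ * x ^ (1 / 6 : ℝ)) ^ (1 / 4 : ℝ) :=
            Real.rpow_le_rpow hm'0.le hm'6 (by norm_num)
        _ = C₂ ^ (1 / 4 : ℝ) * x ^ (1 / 24 : ℝ) := by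
            rw [Real.mul_rpow hC₂0.le (Real.rpow_nonneg hxpos.le _), ← Real.rpow_mul hxpos.le]
            norm_num
    have e4 : (400 : ℝ) * ((M'.primeFactors.card + 1 : ℕ) : ℝ) ≤
        400 * (C₃ * C₂ ^ (1 / 4 : ℝ)) * x ^ (1 / 24 : ℝ) := by
      calc (400 : ℝ) * ((M'.primeFactors.card + 1 : ℕ) : ℝ) ≤ 400 * (C₃ * m' ^ (1 / 4 : ℝ)) := by
            gcongr
            exact e1.trans e2
        _ ≤ 400 * (C₃ * (C₂ ^ (1 / 4 : ℝ) * x ^ (1 / 24 : ℝ))) := by gcongr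
        _ = 400 * (C₃ * C₂ ^ (1 / 4 : ℝ)) * x ^ (1 / 24 : ℝ) := by ring
    have e5 : ((400 * (M'.primeFactors.card + 1) : ℕ) : ℝ) ≤ (Y : ℝ) := by
      push_cast at e4 ⊢
      linarith
    exact_mod_cast e5
  have hYm : m' ^ (1 / 2 + ε) ≤ (Y : ℝ) := by linarith
  obtain ⟨S, hS, hSw⟩ := hpair M' k Y hYY₀ hM'0 hqM' hsq hYw hYm hk
  -- the numbers
  set f : ℕ × ℕ → ℕ := fun w => w.1 * w.2 * (w.1 ^ 2 - q ^ 4 * w.2 ^ 2) with hf
  have hbound : ∀ w ∈ S, f w ≤ X := by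
    intro w hw
    obtain ⟨a1, a2, a3, a4, -, -⟩ := hSw w hw
    have b1 : ((w.1 : ℕ) : ℝ) ≤ C₁ * m' * Y := by
      have : ((w.1 : ℕ) : ℝ) ≤ ((2 * q ^ 2 + 2) * M' * Y : ℕ) := by exact_mod_cast a3
      refine this.trans ?_
      push_cast
      rw [hC₁]
      gcongr
      norm_num
    have b2 : ((w.2 : ℕ) : ℝ) ≤ C₁ * m' * Y := by
      have : ((w.2 : ℕ) : ℝ) ≤ (2 * M' * Y : ℕ) := by exact_mod_cast a4
      refine this.trans ?_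
      push_cast
      have : (2 : ℝ) ≤ C₁ := by
        rw [hC₁]
        nlinarith [sq_nonneg (q : ℝ)]
      gcongr
    have b3 : C₁ * m' * Y ≤ x ^ (1 / 4 : ℝ) := by
      have : C₁ * m' * Y ≤ C₁ * m' * T := by gcongr
      refine this.trans (le_of_eq ?_)
      rw [hT]
      field_simp
    have b4 : ((f w : ℕ) : ℝ) ≤ (x ^ (1 / 4 : ℝ)) ^ 4 := by
      have c1 : f w ≤ w.1 * w.2 * w.1 ^ 2 := Nat.mul_le_mul_left _ (Nat.sub_le _ _)
      have c2 : ((f w : ℕ) : ℝ) ≤ (w.1 : ℝ) * w.2 * (w.1 : ℝ) ^ 2 := by exact_mod_cast c1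
      have c3 : (w.1 : ℝ) ≤ x ^ (1 / 4 : ℝ) := b1.trans b3
      have c4 : (w.2 : ℝ) ≤ x ^ (1 / 4 : ℝ) := b2.trans b3
      refine c2.trans ?_
      calc (w.1 : ℝ) * w.2 * (w.1 : ℝ) ^ 2 ≤
            x ^ (1 / 4 : ℝ) * x ^ (1 / 4 : ℝ) * (x ^ (1 / 4 : ℝ)) ^ 2 := by gcongr
        _ = (x ^ (1 / 4 : ℝ)) ^ 4 := by ring
    have b5 : (x ^ (1 / 4 : ℝ)) ^ 4 = x := by
      rw [← Real.rpow_natCast, ← Real.rpow_mul hxpos.le]
      norm_num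
    rw [b5] at b4
    have b6 : ((f w : ℕ) : ℝ) ≤ ((X : ℕ) : ℝ) := b4
    exact Nat.cast_le.1 b6
  have hfpos : ∀ w ∈ S, 0 < f w := by
    intro w hw
    obtain ⟨a1, a2, -, -, -, a6⟩ := hSw w hw
    exact Nat.pos_of_ne_zero a6.ne_zero
  set N : ℕ := ⌊(C₄ * x ^ (ε / 3)) ^ 2⌋₊ with hN
  have hcardle : S.card ≤ N * (S.image f).card := by
    refine Finset.card_le_mul_card_image_of_maps_to (fun w hw => Finset.mem_image_of_mem f hw) N ?_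
    intro a ha
    obtain ⟨w₀, hw₀, hw₀a⟩ := Finset.mem_image.1 ha
    have ha0 : 0 < a := hw₀a ▸ hfpos w₀ hw₀
    have haX : a ≤ X := hw₀a ▸ hbound w₀ hw₀
    have hsub : S.filter (fun w => f w = a) ⊆ a.divisors ×ˢ a.divisors := by
      intro w hw
      rw [Finset.mem_filter] at hw
      rw [Finset.mem_product, Nat.mem_divisors, Nat.mem_divisors]
      refine ⟨⟨?_, ha0.ne'⟩, ⟨?_, ha0.ne'⟩⟩
      · rw [← hw.2, hf]
        exact ⟨w.2 * (w.1 ^ 2 - q ^ 4 * w.2 ^ 2), by ring⟩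
      · rw [← hw.2, hf]
        exact ⟨w.1 * (w.1 ^ 2 - q ^ 4 * w.2 ^ 2), by ring⟩
    refine (Finset.card_le_card hsub).trans ?_
    rw [Finset.card_product]
    refine Nat.le_floor ?_
    have e1 : (a.divisors.card : ℝ) ≤ C₄ * x ^ (ε / 3) := by
      refine (hdiv a ha0).trans ?_
      have : (a : ℝ) ≤ x := by rw [hx]; exact_mod_cast haX
      gcongr
    push_cast
    rw [pow_two]
    gcongr
  have himg : ((S.image f).card : ℝ) ≤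
      (({n : ℕ | n ≤ X ∧ n ≡ k [MOD M] ∧ Even n ∧ Squarefree n ∧ IsCongruent n}.ncard : ℕ) : ℝ) := by
    have hfin : {n : ℕ | n ≤ X ∧ n ≡ k [MOD M] ∧ Even n ∧ Squarefree n ∧ IsCongruent n}.Finite :=
      (Set.finite_Iic X).subset fun n hn => hn.1
    rw [← Set.ncard_coe_finset]
    refine Nat.cast_le.2 (Set.ncard_le_ncard ?_ hfin)
    intro n hn
    obtain ⟨w, hw, hwn⟩ := Finset.mem_image.1 (Finset.mem_coe.1 hn)
    obtain ⟨a1, a2, a3, a4, a5, a6⟩ := hSw w hw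
    subst hwn
    refine ⟨hbound w hw, a5.of_dvd hMM', ?_, a6, congr_of hq0 a1 a2⟩
    have h2M : 2 ∣ M' := by
      have : 2 ∣ q := hq 2 Nat.prime_two (by norm_num)
      exact (this.trans (dvd_pow_self q two_ne_zero)).trans hqM'
    have h6 : f w ≡ k [MOD 2] := a5.of_dvd h2M
    rw [Nat.even_iff] at hko ⊢
    unfold Nat.ModEq at h6
    omega
  -- the final computation
  have hNle : (N : ℝ) ≤ C₄ ^ 2 * x ^ (2 * ε / 3) := by
    refine (Nat.floor_le (by positivity)).trans (le_of_eq ?_)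
    rw [mul_pow, ← Real.rpow_natCast (x ^ (ε / 3)), ← Real.rpow_mul hxpos.le]
    congr 2
    push_cast
    ring
  have hSlow : x ^ (1 / 2 : ℝ) / (8 * C₁ ^ 2 * m' ^ 2) ≤ (S.card : ℝ) := by
    have e1 : ((Y : ℝ)) ^ 2 ≤ 2 * S.card := by exact_mod_cast hS
    have e2 : (T / 2) ^ 2 ≤ (Y : ℝ) ^ 2 := by gcongr
    have e3 : x ^ (1 / 2 : ℝ) = (x ^ (1 / 4 : ℝ)) ^ 2 := by
      rw [← Real.rpow_natCast, ← Real.rpow_mul hxpos.le]
      norm_num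
    have e4 : x ^ (1 / 2 : ℝ) / (8 * C₁ ^ 2 * m' ^ 2) = (T / 2) ^ 2 / 2 := by
      rw [e3, hT]
      field_simp
      norm_num
    rw [e4]
    linarith
  have hm'2 : m' ^ 2 ≤ C₂ ^ 2 * m ^ 2 * x ^ (ε / 3) := by
    have e1 : m ^ (1 + ε) = m * m ^ ε := by rw [Real.rpow_add hm0, Real.rpow_one]
    have e2 : (m ^ ε) ^ 2 ≤ x ^ (ε / 3) := by
      have e3 : m ≤ x ^ (1 / 6 : ℝ) :=
        hMX.trans (Real.rpow_le_rpow_of_exponent_le hx0 (by linarith))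
      calc (m ^ ε) ^ 2 ≤ ((x ^ (1 / 6 : ℝ)) ^ ε) ^ 2 := by gcongr
        _ = x ^ (ε / 3) := by
            rw [← Real.rpow_natCast, ← Real.rpow_mul hxpos.le, ← Real.rpow_mul hxpos.le]
            congr 1
            push_cast
            ring
    calc m' ^ 2 ≤ (C₂ * m ^ (1 + ε)) ^ 2 := by gcongr
      _ = C₂ ^ 2 * m ^ 2 * (m ^ ε) ^ 2 := by rw [e1]; ring
      _ ≤ C₂ ^ 2 * m ^ 2 * x ^ (ε / 3) := by gcongr
  have hfinal : (S.card : ℝ) ≤ (C₄ ^ 2 * x ^ (2 * ε / 3)) * ((S.image f).card : ℝ) := by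
    have e1 : (S.card : ℝ) ≤ (N : ℝ) * ((S.image f).card : ℝ) := by exact_mod_cast hcardle
    refine e1.trans ?_
    gcongr
  refine le_trans ?_ himg
  have hP : 0 < C₄ ^ 2 * x ^ (2 * ε / 3) := by positivity
  have h8 : (S.card : ℝ) / (C₄ ^ 2 * x ^ (2 * ε / 3)) ≤ ((S.image f).card : ℝ) := by
    rw [div_le_iff₀ hP]
    linarith
  refine le_trans ?_ h8
  rw [le_div_iff₀ hP]
  refine le_trans ?_ hSlow
  rw [le_div_iff₀ (by positivity)]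
  have e9 : x ^ (1 / 2 : ℝ) = x ^ (1 / 2 - ε) * x ^ (2 * ε / 3) * x ^ (ε / 3) := by
    rw [← Real.rpow_add hxpos, ← Real.rpow_add hxpos]
    congr 1
    ring
  rw [e9]
  have e10 : 1 / (8 * C₁ ^ 2 * C₂ ^ 2 * C₄ ^ 2) * x ^ (1 / 2 - ε) / m ^ 2 *
      (C₄ ^ 2 * x ^ (2 * ε / 3)) * (8 * C₁ ^ 2 * m' ^ 2) =
      x ^ (1 / 2 - ε) * x ^ (2 * ε / 3) * (m' ^ 2 / (C₂ ^ 2 * m ^ 2)) := by
    field_simp
  rw [e10]
  refine mul_le_mul_of_nonneg_left ?_ (by positivity)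
  rw [div_le_iff₀ (by positivity)]
  linarith

end LNKE

/-- the even classes -/
def S_LNKE : Prop := ∀ ε : ℝ, 0 < ε → ∃ c : ℝ, 0 < c ∧ ∃ X₀ : ℕ, ∀ X M k : ℕ, X₀ ≤ X → 0 < M →
  (M : ℝ) ≤ (X : ℝ) ^ (1 / 6 - ε) → Even k → Squarefree k →
  c * (X : ℝ) ^ (1 / 2 - ε) / (M : ℝ) ^ 2 ≤
    (({n : ℕ | n ≤ X ∧ n ≡ k [MOD M] ∧ Even n ∧ Squarefree n ∧ IsCongruent n}.ncard : ℕ) : ℝ)

theorem t_LNKE (h1 : S_PAIR) (h2 : S_OM) (h3 : S_DIV) : S_LNKE := by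
  intro ε hε
  obtain ⟨c, hc, X₀, h⟩ := LNKE.small h1 h2 h3 (min ε (1 / 12)) (lt_min hε (by norm_num))
    (min_le_right _ _)
  refine ⟨c, hc, max X₀ 1, fun X M k hX hM hMX hko hk => ?_⟩
  have hx0 : (1 : ℝ) ≤ (X : ℝ) := by
    have : 1 ≤ X := (le_max_right _ _).trans hX
    exact_mod_cast this
  have hmin : min ε (1 / 12) ≤ ε := min_le_left _ _
  refine le_trans ?_ (h X M k ((le_max_left _ _).trans hX) hM
    (hMX.trans (Real.rpow_le_rpow_of_exponent_le hx0 (by linarith))) hko hk)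
  have e1 : (X : ℝ) ^ (1 / 2 - ε) ≤ (X : ℝ) ^ (1 / 2 - min ε (1 / 12)) :=
    Real.rpow_le_rpow_of_exponent_le hx0 (by linarith)
  gcongr

end Pool.Agent.T2h88.GP
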