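import Pool.Agent.T2h88.GP.Stm

set_option autoImplicit false

namespace Pool.Agent.T2h88.GP

namespace LOC

theorem aux (p a s : ℕ) (hp : p.Prime) (h2 : p ≠ 2) (ha : ¬ p ∣ a)
    (hs : s ≡ a * (1 + p) [MOD p ^ 2]) : ¬ s ^ 4 ≡ a ^ 4 [MOD p ^ 2] ∧ ¬ p ∣ s := by
  constructor
  · intro h
    have h3 : (a * (1 + p)) ^ 4 ≡ a ^ 4 [MOD p ^ 2] := ((hs.pow 4).symm).trans h
    have h4 : ((p ^ 2 : ℕ) : ℤ) ∣ (((a * (1 + p)) ^ 4 : ℕ) : ℤ) - ((a ^ 4 : ℕ) : ℤ) :=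
      (Nat.modEq_iff_dvd.1 h3.symm)
    have h5 : (((a * (1 + p)) ^ 4 : ℕ) : ℤ) - ((a ^ 4 : ℕ) : ℤ) =
        (p : ℤ) * ((a : ℤ) ^ 4 * (4 + (p : ℤ) * (6 + 4 * p + p ^ 2))) := by
      push_cast
      ring
    rw [h5] at h4
    have h6 : (p : ℤ) * p ∣ (p : ℤ) * ((a : ℤ) ^ 4 * (4 + (p : ℤ) * (6 + 4 * p + p ^ 2))) := by
      have : ((p ^ 2 : ℕ) : ℤ) = (p : ℤ) * p := by push_cast; ring
      rwa [this] at h4
    have hp0 : (p : ℤ) ≠ 0 := by exact_mod_cast hp.ne_zero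
    have h7 : (p : ℤ) ∣ (a : ℤ) ^ 4 * (4 + (p : ℤ) * (6 + 4 * p + p ^ 2)) :=
      (mul_dvd_mul_iff_left hp0).1 h6
    have hpi : Prime (p : ℤ) := Nat.prime_iff_prime_int.1 hp
    rcases hpi.dvd_or_dvd h7 with h8 | h8
    · exact ha (by exact_mod_cast hpi.dvd_of_dvd_pow h8)
    · have h9 : (p : ℤ) ∣ 4 := by
        have h10 : (p : ℤ) ∣ (p : ℤ) * (6 + 4 * p + p ^ 2) := Dvd.intro _ rfl
        exact (Int.dvd_add_left h10).1 h8
      have h11 : p ∣ 2 ^ 2 := by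
        have : p ∣ 4 := by exact_mod_cast h9
        simpa using this
      exact h2 ((Nat.prime_dvd_prime_iff_eq hp Nat.prime_two).1 (hp.dvd_of_dvd_pow h11))
  · intro h
    have h3 : s ≡ a * (1 + p) [MOD p] := hs.of_dvd (dvd_pow_self p two_ne_zero)
    have h4 : p ∣ a * (1 + p) := (h3.dvd_iff dvd_rfl).1 h
    rcases (hp.dvd_mul).1 h4 with h5 | h5
    · exact ha h5
    · have h6 : p ∣ 1 := (Nat.dvd_add_left dvd_rfl).1 h5
      exact hp.one_lt.ne' (Nat.dvd_one.1 h6)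

theorem not_sq {p k : ℕ} (hp : p.Prime) (hk : Squarefree k) : ¬ p ^ 2 ∣ k := by
  rw [pow_two]
  exact (Nat.squarefree_iff_prime_squarefree.1 hk) p hp

/-- a prime `p` not dividing `q` -/
theorem prime_case {h j j' q p s n : ℕ} (hp : p.Prime) (hpq : ¬ p ∣ q) (h2q : 2 ∣ q)
    (cop : Nat.Coprime j j')
    (h1 : s ^ 4 = j' ^ 4 + q ^ 2 * n) (h2 : s ^ 4 = j ^ 4 + q ^ 2 * (n + h))
    (hs : s ≡ (if ¬ p ∣ j * j' then 0 else if p ∣ j then j' * (1 + p) else j * (1 + p)) [MOD p ^ 2]) :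
    ¬ p ^ 2 ∣ n ∧ ¬ p ^ 2 ∣ n + h := by
  have hp2 : p ≠ 2 := by
    rintro rfl
    exact hpq h2q
  have e1 : p ^ 2 ∣ n → s ^ 4 ≡ j' ^ 4 [MOD p ^ 2] := by
    intro hd
    have : j' ^ 4 + q ^ 2 * n ≡ j' ^ 4 + 0 [MOD p ^ 2] :=
      Nat.ModEq.add_left _ ((Nat.modEq_zero_iff_dvd).2 (hd.mul_left _))
    rw [h1]
    simpa using this
  have e2 : p ^ 2 ∣ n + h → s ^ 4 ≡ j ^ 4 [MOD p ^ 2] := by
    intro hd
    have : j ^ 4 + q ^ 2 * (n + h) ≡ j ^ 4 + 0 [MOD p ^ 2] :=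
      Nat.ModEq.add_left _ ((Nat.modEq_zero_iff_dvd).2 (hd.mul_left _))
    rw [h2]
    simpa using this
  have hpp : p ∣ p ^ 2 := dvd_pow_self p two_ne_zero
  by_cases hjj : p ∣ j * j'
  · rw [if_neg (not_not.2 hjj)] at hs
    by_cases hj : p ∣ j
    · rw [if_pos hj] at hs
      have hj' : ¬ p ∣ j' := fun h3 => hp.one_lt.ne' (Nat.dvd_one.1 (cop ▸ Nat.dvd_gcd hj h3))
      obtain ⟨a1, a2⟩ := aux p j' s hp hp2 hj' hs
      refine ⟨fun hd => a1 (e1 hd), fun hd => a2 ?_⟩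
      have h3 : s ^ 4 ≡ j ^ 4 [MOD p] := (e2 hd).of_dvd hpp
      exact hp.dvd_of_dvd_pow ((h3.dvd_iff dvd_rfl).2 (hj.trans (dvd_pow_self j (by norm_num))))
    · rw [if_neg hj] at hs
      have hj' : p ∣ j' := (hp.dvd_mul.1 hjj).resolve_left hj
      obtain ⟨a1, a2⟩ := aux p j s hp hp2 hj hs
      refine ⟨fun hd => a2 ?_, fun hd => a1 (e2 hd)⟩
      have h3 : s ^ 4 ≡ j' ^ 4 [MOD p] := (e1 hd).of_dvd hpp
      exact hp.dvd_of_dvd_pow ((h3.dvd_iff dvd_rfl).2 (hj'.trans (dvd_pow_self j' (by norm_num))))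
  · rw [if_pos hjj] at hs
    have h3 : p ∣ s := by
      have : p ^ 2 ∣ s := (Nat.modEq_zero_iff_dvd).1 hs
      exact hpp.trans this
    have h4 : p ∣ s ^ 4 := h3.trans (dvd_pow_self s (by norm_num))
    constructor
    · intro hd
      have h5 : p ∣ j' ^ 4 := (((e1 hd).of_dvd hpp).dvd_iff dvd_rfl).1 h4
      exact hjj ((hp.dvd_of_dvd_pow h5).mul_left _)
    · intro hd
      have h5 : p ∣ j ^ 4 := (((e2 hd).of_dvd hpp).dvd_iff dvd_rfl).1 h4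
      exact hjj ((hp.dvd_of_dvd_pow h5).mul_right _)

end LOC

open LOC in
theorem t_LOC (hH : S_HEN) : S_LOC := by
  intro h M k j j' q P hM hk hkh hj hMq hq hj0 hj'0 cop1 cop2 cop3 hqP
  have h2q : 2 ∣ q := (Dvd.intro (2 * M) (by ring)).trans hMq
  have hMq' : M ∣ q := (Dvd.intro_left 4 rfl).trans hMq
  set K : ℕ := M * q ^ 2 with hK
  have hK0 : 0 < K := by positivity
  obtain ⟨s₁, hs₁⟩ := hH (q ^ 2) K j' ((j' : ℤ) ^ 4 + (q : ℤ) ^ 2 * k)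
    (by
      obtain ⟨w, hw⟩ := hMq
      exact ⟨(M * w) ^ 2, by rw [hw]; ring⟩)
    (by positivity) hK0
    (by
      intro p hp hd
      rcases hp.dvd_mul.1 hd with h1 | h1
      · exact (h1.trans hMq').trans (dvd_pow_self q two_ne_zero)
      · exact h1)
    (cop2.pow_right 2)
    (by
      have : (j' : ℤ) ^ 4 + (q : ℤ) ^ 2 * k ≡ (j' : ℤ) ^ 4 + 0 [ZMOD ((q ^ 2 : ℕ) : ℤ)] := by
        refine Int.ModEq.add_left _ ?_
        refine (Int.modEq_zero_iff_dvd).2 ?_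
        push_cast
        exact Dvd.intro _ rfl
      simpa using this)
  set R : ℕ := q ^ 2 * K with hR
  have hR0 : 0 < R := by positivity
  obtain ⟨s₂, hs₂⟩ : ∃ s₂ : ℕ, (s₂ : ℤ) ≡ s₁ [ZMOD (R : ℤ)] := by
    refine ⟨(s₁ % (R : ℤ)).toNat, ?_⟩
    rw [Int.toNat_of_nonneg (Int.emod_nonneg _ (by exact_mod_cast hR0.ne'))]
    exact Int.mod_modEq _ _
  -- the primes not dividing `q`
  set T : Finset ℕ := (Finset.range (P + 1)).filter fun p => p.Prime ∧ ¬ p ∣ q with hT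
  set a : ℕ → ℕ := fun p =>
    if ¬ p ∣ j * j' then 0 else if p ∣ j then j' * (1 + p) else j * (1 + p) with ha
  have hTp : ∀ p ∈ T, p.Prime ∧ ¬ p ∣ q ∧ p ≤ P := by
    intro p hp
    rw [hT, Finset.mem_filter, Finset.mem_range] at hp
    exact ⟨hp.2.1, hp.2.2, by omega⟩
  have hpw : (T : Set ℕ).Pairwise (Function.onFun Nat.Coprime fun p => p ^ 2) := by
    intro p hp p' hp' hne
    exact Nat.Coprime.pow 2 2 ((Nat.coprime_primes (hTp p hp).1 (hTp p' hp').1).2 hne)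
  obtain ⟨x, hx⟩ := Nat.chineseRemainderOfFinset a (fun p => p ^ 2) T
    (fun p hp => pow_ne_zero 2 (hTp p hp).1.ne_zero) hpw
  set N₂ : ℕ := ∏ p ∈ T, p ^ 2 with hN₂
  have hN₂0 : 0 < N₂ := Finset.prod_pos fun p hp => pow_pos (hTp p hp).1.pos 2
  have hcop : Nat.Coprime R N₂ := by
    refine Nat.Coprime.prod_right fun p hp => Nat.Coprime.pow_right 2 ?_
    obtain ⟨hpp, hpq, -⟩ := hTp p hp
    refine Nat.Coprime.symm ((Nat.Prime.coprime_iff_not_dvd hpp).2 fun hd => hpq ?_)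
    rcases hpp.dvd_mul.1 hd with h1 | h1
    · exact hpp.dvd_of_dvd_pow h1
    · rcases hpp.dvd_mul.1 h1 with h2 | h2
      · exact h2.trans hMq'
      · exact hpp.dvd_of_dvd_pow h2
  obtain ⟨s₀, hs₀1, hs₀2⟩ := Nat.chineseRemainder hcop s₂ x
  refine ⟨R * N₂, s₀, by positivity, ?_, ?_⟩
  · intro p hp hd
    rcases hp.dvd_mul.1 hd with h1 | h1
    · have h3 : p ∣ q := by
        rcases hp.dvd_mul.1 h1 with h1 | h1
        · exact hp.dvd_of_dvd_pow h1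
        · rcases hp.dvd_mul.1 h1 with h2 | h2
          · exact h2.trans hMq'
          · exact hp.dvd_of_dvd_pow h2
      exact (Nat.le_of_dvd hq h3).trans hqP
    · obtain ⟨p', hp', h2⟩ := (hp.prime.dvd_finset_prod_iff _).1 h1
      have h3 : p = p' := (Nat.prime_dvd_prime_iff_eq hp (hTp p' hp').1).1 (hp.dvd_of_dvd_pow h2)
      rw [h3]
      exact (hTp p' hp').2.2
  · intro s hsj hs
    have hsR : s ≡ s₂ [MOD R] := (hs.of_dvd (Dvd.intro _ rfl)).trans hs₀1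
    have hsN : s ≡ x [MOD N₂] := (hs.of_dvd (Dvd.intro_left _ rfl)).trans hs₀2
    have hz : (s : ℤ) ^ 4 ≡ (j' : ℤ) ^ 4 + (q : ℤ) ^ 2 * k [ZMOD (R : ℤ)] := by
      have h1 : (s : ℤ) ≡ s₁ [ZMOD (R : ℤ)] := ((Int.natCast_modEq_iff).2 hsR).trans hs₂
      exact (h1.pow 4).trans hs₁
    obtain ⟨t, ht⟩ := hz.symm.dvd
    have hn1 : (s : ℤ) ^ 4 - (j' : ℤ) ^ 4 = (q : ℤ) ^ 2 * (k + K * t) := by
      have : (R : ℤ) = (q : ℤ) ^ 2 * K := by rw [hR]; push_cast; ring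
      rw [this] at ht
      linear_combination ht
    have hpos : (0 : ℤ) ≤ k + K * t := by
      have h1 : (j' : ℤ) ^ 4 ≤ (s : ℤ) ^ 4 := by
        have : (j' : ℤ) ≤ s := by exact_mod_cast hsj.le
        gcongr
      have h2 : (0 : ℤ) < (q : ℤ) ^ 2 := by positivity
      by_contra hc
      push Not at hc
      nlinarith
    obtain ⟨n, hn⟩ := Int.eq_ofNat_of_zero_le hpos
    have hn2 : s ^ 4 = j' ^ 4 + q ^ 2 * n := by
      rw [hn] at hn1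
      have : (s : ℤ) ^ 4 = (j' : ℤ) ^ 4 + (q : ℤ) ^ 2 * n := by linarith
      exact_mod_cast this
    have hn3 : s ^ 4 = j ^ 4 + q ^ 2 * (n + h) := by
      rw [hn2, hj]
      ring
    have hnK : n ≡ k [MOD K] := by
      refine (Int.natCast_modEq_iff).1 ?_
      refine Int.ModEq.symm ((Int.modEq_iff_dvd).2 ⟨t, ?_⟩)
      linarith
    refine ⟨n, hn2, hn3, hnK.of_dvd (Dvd.intro _ rfl), ?_⟩
    intro p hp hpP
    by_cases hpq : p ∣ q
    · have h1 : p ^ 2 ∣ K := (pow_dvd_pow_of_dvd hpq 2).trans (Dvd.intro_left _ rfl)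
      have h2 : n ≡ k [MOD p ^ 2] := hnK.of_dvd h1
      refine ⟨fun hd => not_sq hp hk ((h2.dvd_iff dvd_rfl).1 hd), fun hd => not_sq hp hkh ?_⟩
      exact ((Nat.ModEq.add_right h h2).dvd_iff dvd_rfl).1 hd
    · have hpT : p ∈ T := by
        rw [hT, Finset.mem_filter, Finset.mem_range]
        exact ⟨by omega, hp, hpq⟩
      have h1 : p ^ 2 ∣ N₂ := Finset.dvd_prod_of_mem _ hpT
      have h2 : s ≡ a p [MOD p ^ 2] := (hsN.of_dvd h1).trans (hx p hpT)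
      exact prime_case hp hpq h2q cop3 hn2 hn3 h2

end Pool.Agent.T2h88.GP
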