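import Pool.Agent.T2h88.GP.Stm

/-! Task MAIN of project GP. -/

set_option autoImplicit false

namespace Pool.Agent.T2h88.GP

namespace Main

/-- the congruent number from a difference of fourth powers -/
lemma cong_of {s j q n : ℕ} (hs : j < s) (hj : 0 < j) (hq : 0 < q) (h : s ^ 4 = j ^ 4 + q ^ 2 * n) :
    IsCongruent n := by
  have hs0 : 0 < s := by omega
  have hsQ : (0 : ℚ) < s := by exact_mod_cast hs0
  have hjQ : (0 : ℚ) < j := by exact_mod_cast hj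
  have hqQ : (0 : ℚ) < q := by exact_mod_cast hq
  have hsj : (j : ℚ) < s := by exact_mod_cast hs
  have hQ : (s : ℚ) ^ 4 = j ^ 4 + q ^ 2 * n := by exact_mod_cast h
  have h4 : (j : ℚ) ^ 4 < s ^ 4 := by gcongr
  have hden : (0 : ℚ) < s * j * q := by positivity
  refine ⟨((s : ℚ) ^ 4 - j ^ 4) / (s * j * q), 2 * s * j / q, ((s : ℚ) ^ 4 + j ^ 4) / (s * j * q),
    div_pos (by linarith) hden, by positivity, by positivity, ?_, ?_⟩
  · field_simp
    ring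
  · have h5 : (s : ℚ) ^ 4 - j ^ 4 = q ^ 2 * n := by rw [hQ]; ring
    rw [h5]
    field_simp

/-- the number of members of a residue class in `(S, 2 S]` -/
lemma count_class (N s₀ S : ℕ) (hN : 0 < N) :
    S ≤ N * ({s : ℕ | S < s ∧ s ≤ 2 * S ∧ s ≡ s₀ [MOD N]}.ncard + 1) := by
  have h1 : {s : ℕ | S < s ∧ s ≤ 2 * S ∧ s ≡ s₀ [MOD N]} =
      ↑((Finset.Ioc S (2 * S)).filter fun s => s ≡ s₀ [MOD N]) := by
    ext s
    simp [and_assoc]
  rw [h1, Set.ncard_coe_finset]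
  have h2 := Nat.Ioc_filter_modEq_card S (2 * S) hN s₀
  set c : ℕ := ((Finset.Ioc S (2 * S)).filter fun s => s ≡ s₀ [MOD N]).card with hc
  have hNQ : (0 : ℚ) < N := by exact_mod_cast hN
  have h3 : ⌊(((2 * S : ℕ) : ℚ) - s₀) / N⌋ - ⌊((S : ℚ) - s₀) / N⌋ ≤ (c : ℤ) := by
    rw [h2]; exact le_max_left _ _
  have h4 : ((((2 * S : ℕ) : ℚ) - s₀) / N) < ⌊(((2 * S : ℕ) : ℚ) - s₀) / N⌋ + 1 := Int.lt_floor_add_one _
  have h5 : (⌊((S : ℚ) - s₀) / N⌋ : ℚ) ≤ ((S : ℚ) - s₀) / N := Int.floor_le _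
  have h6 : ((⌊(((2 * S : ℕ) : ℚ) - s₀) / N⌋ : ℚ)) - ⌊((S : ℚ) - s₀) / N⌋ ≤ c := by exact_mod_cast h3
  have h7 : (((2 * S : ℕ) : ℚ) - s₀) / N - ((S : ℚ) - s₀) / N = S / N := by
    push_cast; ring
  have h8 : (S : ℚ) / N ≤ c + 1 := by linarith
  rw [div_le_iff₀ hNQ] at h8
  have h9 : (S : ℚ) ≤ (N : ℚ) * (c + 1) := by linarith
  exact_mod_cast h9

end Main

open Main

/-- task MAIN -/
theorem t_MAIN (h1 : S_REP) (h2 : S_LOC) (h3 : S_SIV) : S_MAIN := by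
  intro h M k hh hM hc hk hkh
  obtain ⟨j, j', q, e1, hq4, hq, hj, hj', c1, c2, c3⟩ := h1 h M hh hM hc
  set P : ℕ := 20 + q + 2 * j + 2 * j' with hP
  obtain ⟨N, s₀, hN, hNP, hs⟩ := h2 h M k j j' q P hM hk hkh e1 hq4 hq hj hj' c1 c2 c3 (by omega)
  obtain ⟨S1, hS1⟩ := h3 j N s₀ P hj hN (by omega) (by omega) hNP
  obtain ⟨S2, hS2⟩ := h3 j' N s₀ P hj' hN (by omega) (by omega) hNP
  have hjj : j < j' := by
    have : j ^ 4 < j' ^ 4 := by
      rw [e1]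
      have : 0 < h * q ^ 2 := by positivity
      omega
    exact lt_of_pow_lt_pow_left₀ 4 (Nat.zero_le _) this
  set Sm : ℕ := S1 + S2 + 4 * N + j' with hSm
  have hNR : (0 : ℝ) < N := by exact_mod_cast hN
  refine ⟨1 / (16 * N), by positivity, (4 * Sm) ^ 4, fun X hX => ?_⟩
  set r : ℝ := (X : ℝ) ^ (1 / 4 : ℝ) with hr
  have hX0 : (0 : ℝ) ≤ X := Nat.cast_nonneg _
  have hr0 : 0 ≤ r := Real.rpow_nonneg hX0 _
  have hr4 : r ^ 4 = X := by
    rw [hr, ← Real.rpow_natCast, ← Real.rpow_mul hX0]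
    norm_num
  have hrS : 4 * (Sm : ℝ) ≤ r := by
    have h5 : (4 * (Sm : ℝ)) ^ 4 ≤ r ^ 4 := by
      rw [hr4]; exact_mod_cast hX
    exact le_of_pow_le_pow_left₀ (by norm_num) hr0 h5
  set S : ℕ := ⌊r / 2⌋₊ with hS
  have hSle : (S : ℝ) ≤ r / 2 := Nat.floor_le (by positivity)
  have hSlt : r / 2 < S + 1 := Nat.lt_floor_add_one _
  have hSm1 : (1 : ℝ) ≤ Sm := by
    have : 1 ≤ Sm := by omega
    exact_mod_cast this
  have hSge : r / 4 ≤ S := by
    have : 4 ≤ r := by linarith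
    linarith
  have hSSm : Sm ≤ S := by
    have : (Sm : ℝ) ≤ S := by linarith
    exact_mod_cast this
  have hSX : (2 * S) ^ 4 ≤ X := by
    have h5 : (2 * (S : ℝ)) ^ 4 ≤ r ^ 4 := by
      have : 2 * (S : ℝ) ≤ r := by linarith
      gcongr
    rw [hr4] at h5
    exact_mod_cast h5
  -- the sets
  set A : Set ℕ := {s : ℕ | S < s ∧ s ≤ 2 * S ∧ s ≡ s₀ [MOD N]} with hA
  set B1 : Set ℕ := {s : ℕ | S < s ∧ s ≤ 2 * S ∧ s ≡ s₀ [MOD N] ∧
      ∃ p : ℕ, p.Prime ∧ P < p ∧ s ^ 4 ≡ j ^ 4 [MOD p ^ 2]} with hB1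
  set B2 : Set ℕ := {s : ℕ | S < s ∧ s ≤ 2 * S ∧ s ≡ s₀ [MOD N] ∧
      ∃ p : ℕ, p.Prime ∧ P < p ∧ s ^ 4 ≡ j' ^ 4 [MOD p ^ 2]} with hB2
  set T : Set ℕ := {n : ℕ | n ≤ X ∧ n ≡ k [MOD M] ∧ Squarefree n ∧ Squarefree (n + h) ∧ IsCongruent n ∧
      IsCongruent (n + h)} with hT
  have hAfin : A.Finite := (Set.finite_Iic (2 * S)).subset fun s hs => hs.2.1
  have hB1fin : B1.Finite := (Set.finite_Iic (2 * S)).subset fun s hs => hs.2.1
  have hB2fin : B2.Finite := (Set.finite_Iic (2 * S)).subset fun s hs => hs.2.1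
  have hTfin : T.Finite := (Set.finite_Iic X).subset fun s hs => hs.1
  have hGfin : (A \ (B1 ∪ B2)).Finite := hAfin.subset Set.diff_subset
  have hcardA : A.ncard ≤ (A \ (B1 ∪ B2)).ncard + (B1.ncard + B2.ncard) := by
    calc A.ncard ≤ ((A \ (B1 ∪ B2)) ∪ (B1 ∪ B2)).ncard := by
          apply Set.ncard_le_ncard _ (hGfin.union (hB1fin.union hB2fin))
          rw [Set.diff_union_self]
          exact Set.subset_union_left
      _ ≤ (A \ (B1 ∪ B2)).ncard + (B1 ∪ B2).ncard := Set.ncard_union_le _ _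
      _ ≤ _ := by
          gcongr
          exact Set.ncard_union_le _ _
  have hc1 : S ≤ N * (A.ncard + 1) := count_class N s₀ S hN
  have hc2 : 4 * N * B1.ncard ≤ S := hS1 S (by omega)
  have hc3 : 4 * N * B2.ncard ≤ S := hS2 S (by omega)
  have hG : S ≤ 4 * N * (A \ (B1 ∪ B2)).ncard := by
    have h6 : N * A.ncard ≤ N * ((A \ (B1 ∪ B2)).ncard + (B1.ncard + B2.ncard)) :=
      Nat.mul_le_mul_left _ hcardA
    have h7 : 4 * N ≤ S := by omega
    nlinarith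
  -- the map
  have hmap : ∀ s ∈ A \ (B1 ∪ B2), ∃ n : ℕ, s ^ 4 = j' ^ 4 + q ^ 2 * n ∧ n ∈ T := by
    rintro s ⟨⟨hs1, hs2, hs3⟩, hsB⟩
    have hnB1 : s ∉ B1 := fun hx => hsB (Or.inl hx)
    have hnB2 : s ∉ B2 := fun hx => hsB (Or.inr hx)
    have hjs : j' < s := by omega
    obtain ⟨n, hn1, hn2, hn3, hn4⟩ := hs s hjs hs3
    refine ⟨n, hn1, ?_, hn3, ?_, ?_, cong_of hjs hj' hq hn1, cong_of (hjj.trans hjs) hj hq hn2⟩
    · calc n ≤ q ^ 2 * n := Nat.le_mul_of_pos_left _ (by positivity)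
        _ ≤ j' ^ 4 + q ^ 2 * n := Nat.le_add_left _ _
        _ = s ^ 4 := hn1.symm
        _ ≤ (2 * S) ^ 4 := Nat.pow_le_pow_left hs2 4
        _ ≤ X := hSX
    · rw [Nat.squarefree_iff_prime_squarefree]
      intro p hp hpn
      rw [← sq] at hpn
      rcases le_or_gt p P with hpP | hpP
      · exact (hn4 p hp hpP).1 hpn
      · refine hnB2 ⟨hs1, hs2, hs3, p, hp, hpP, ?_⟩
        rw [hn1]
        obtain ⟨d, hd⟩ := hpn
        have : j' ^ 4 + q ^ 2 * n ≡ j' ^ 4 + 0 [MOD p ^ 2] := by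
          apply Nat.ModEq.add_left
          rw [Nat.modEq_zero_iff_dvd]
          exact Dvd.dvd.mul_left ⟨d, hd⟩ _
        simpa using this
    · rw [Nat.squarefree_iff_prime_squarefree]
      intro p hp hpn
      rw [← sq] at hpn
      rcases le_or_gt p P with hpP | hpP
      · exact (hn4 p hp hpP).2 hpn
      · refine hnB1 ⟨hs1, hs2, hs3, p, hp, hpP, ?_⟩
        rw [hn2]
        have : j ^ 4 + q ^ 2 * (n + h) ≡ j ^ 4 + 0 [MOD p ^ 2] := by
          apply Nat.ModEq.add_left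
          rw [Nat.modEq_zero_iff_dvd]
          exact Dvd.dvd.mul_left hpn _
        simpa using this
  choose! f hf1 hf2 using hmap
  have hinj : Set.InjOn f (A \ (B1 ∪ B2)) := by
    intro s hs s' hs' hss
    have e := hf1 s hs
    have e' := hf1 s' hs'
    rw [hss, ← e'] at e
    exact Nat.pow_left_injective (by norm_num : 4 ≠ 0) e
  have hcard : (A \ (B1 ∪ B2)).ncard ≤ T.ncard := Set.ncard_le_ncard_of_injOn f hf2 hinj hTfin
  have hfin : S ≤ 4 * N * T.ncard := hG.trans (Nat.mul_le_mul_left _ hcard)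
  have hfinR : (S : ℝ) ≤ 4 * N * T.ncard := by exact_mod_cast hfin
  rw [div_mul_eq_mul_div, one_mul, div_le_iff₀ (by positivity)]
  calc r ≤ 4 * S := by linarith
    _ ≤ 4 * (4 * N * T.ncard) := by linarith
    _ = T.ncard * (16 * N) := by ring

end Pool.Agent.T2h88.GP
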