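import Pool.Agent.T2h88.GP.Stm2

/-!
# Task OM (helper94): `K ^ ω(M) ≤ C M ^ ε`
-/

set_option autoImplicit false

namespace Pool.Agent.T2h88.GP

/-- the product of `w` distinct positive integers is at least `w!` -/
theorem om_factorial (s : Finset ℕ) : (∀ x ∈ s, 0 < x) → s.card.factorial ≤ ∏ x ∈ s, x := by
  induction s using Finset.induction_on_max with
  | empty => intro _; simp
  | insert a t hat ih =>
    intro hpos
    have hnot : a ∉ t := fun h => lt_irrefl _ (hat a h)
    rw [Finset.card_insert_of_notMem hnot, Finset.prod_insert hnot, Nat.factorial_succ]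
    have h1 : t.card + 1 ≤ a := by
      have hsub : t ⊆ Finset.Ico 1 a := by
        intro x hx
        rw [Finset.mem_Ico]
        exact ⟨hpos x (Finset.mem_insert_of_mem hx), hat x hx⟩
      have h2 := Finset.card_le_card hsub
      rw [Nat.card_Ico] at h2
      have h3 : 0 < a := hpos a (Finset.mem_insert_self a t)
      omega
    exact Nat.mul_le_mul h1 (ih fun x hx => hpos x (Finset.mem_insert_of_mem hx))

theorem t_OM : S_OM := by
  intro K ε hε
  set L : ℝ := (K : ℝ) ^ (1 / ε) with hL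
  have hL0 : 0 ≤ L := Real.rpow_nonneg (Nat.cast_nonneg K) _
  refine ⟨Real.exp (ε * L), Real.exp_pos _, ?_⟩
  intro M hM
  set w := M.primeFactors.card with hw
  have hfac : w.factorial ≤ M := by
    refine (om_factorial M.primeFactors fun x hx => (Nat.prime_of_mem_primeFactors hx).pos).trans ?_
    exact Nat.le_of_dvd hM (Nat.prod_primeFactors_dvd M)
  have h1 : L ^ w / (w.factorial : ℝ) ≤ Real.exp L := Real.pow_div_factorial_le_exp L hL0 w
  have hf0 : (0 : ℝ) < (w.factorial : ℝ) := by exact_mod_cast Nat.factorial_pos w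
  have h2 : L ^ w ≤ Real.exp L * (M : ℝ) := by
    rw [div_le_iff₀ hf0] at h1
    refine h1.trans (mul_le_mul_of_nonneg_left ?_ (Real.exp_pos _).le)
    exact_mod_cast hfac
  have h3 : (L ^ w) ^ ε ≤ (Real.exp L * (M : ℝ)) ^ ε :=
    Real.rpow_le_rpow (pow_nonneg hL0 w) h2 hε.le
  have h4 : (L ^ w) ^ ε = (K : ℝ) ^ w := by
    rw [hL, ← Real.rpow_natCast ((K : ℝ) ^ (1 / ε)) w, ← Real.rpow_mul (Nat.cast_nonneg K),
      ← Real.rpow_mul (Nat.cast_nonneg K), ← Real.rpow_natCast (K : ℝ) w]
    congr 1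
    field_simp
  have h5 : (Real.exp L * (M : ℝ)) ^ ε = Real.exp (ε * L) * (M : ℝ) ^ ε := by
    rw [Real.mul_rpow (Real.exp_pos _).le (Nat.cast_nonneg M), ← Real.exp_mul, mul_comm L ε]
  rw [h4, h5] at h3
  exact h3

end Pool.Agent.T2h88.GP
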