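import Pool.Agent.T2h88.GP.Stm2

/-! # PAIR: many pairs with squarefree values -/

set_option autoImplicit false

namespace Pool.Agent.T2h88.GP

namespace PairX

lemma cop {p : ℕ} (hp : p.Prime) {X : ℤ} (hX : ¬ (p : ℤ) ∣ X) : IsCoprime ((p : ℤ) ^ 2) X :=
  ((Nat.prime_iff_prime_int.1 hp).irreducible.coprime_iff_not_dvd.2 hX).pow_left

lemma fac (q : ℕ) (U V : ℤ) :
    U * V * (U ^ 2 - (q : ℤ) ^ 4 * V ^ 2) = U * V * (U - q ^ 2 * V) * (U + q ^ 2 * V) := by ring

/-- if `p` divides `V` but not `U` -/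
lemma dvd_V {p : ℕ} (hp : p.Prime) (q : ℕ) {U V : ℤ} (hV : (p : ℤ) ∣ V) (hU : ¬ (p : ℤ) ∣ U)
    (h : (p : ℤ) ^ 2 ∣ U * V * (U ^ 2 - (q : ℤ) ^ 4 * V ^ 2)) : (p : ℤ) ^ 2 ∣ V := by
  have h1 : ¬ (p : ℤ) ∣ U - q ^ 2 * V := fun h2 => hU (by
    have := dvd_add h2 (Dvd.dvd.mul_left hV ((q : ℤ) ^ 2))
    simpa using this)
  have h2 : ¬ (p : ℤ) ∣ U + q ^ 2 * V := fun h2 => hU (by
    have := dvd_sub h2 (Dvd.dvd.mul_left hV ((q : ℤ) ^ 2))
    simpa using this)
  have h3 : IsCoprime ((p : ℤ) ^ 2) (U * (U - q ^ 2 * V) * (U + q ^ 2 * V)) :=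
    ((cop hp hU).mul_right (cop hp h1)).mul_right (cop hp h2)
  refine h3.dvd_of_dvd_mul_right ?_
  rw [fac] at h
  have e : V * (U * (U - q ^ 2 * V) * (U + q ^ 2 * V)) =
      U * V * (U - q ^ 2 * V) * (U + q ^ 2 * V) := by ring
  rw [e]
  exact h

lemma four {p : ℕ} (hp : p.Prime) (hp2 : 2 < p) (q : ℕ) (hq : ¬ (p : ℤ) ∣ q) {U V : ℤ}
    (hUV : ¬ ((p : ℤ) ∣ U ∧ (p : ℤ) ∣ V))
    (h : (p : ℤ) ^ 2 ∣ U * V * (U ^ 2 - (q : ℤ) ^ 4 * V ^ 2)) :
    (p : ℤ) ^ 2 ∣ U ∨ (p : ℤ) ^ 2 ∣ V ∨ (p : ℤ) ^ 2 ∣ U - q ^ 2 * V ∨ (p : ℤ) ^ 2 ∣ U + q ^ 2 * V := by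
  have hpp := Nat.prime_iff_prime_int.1 hp
  by_cases hV : (p : ℤ) ∣ V
  · exact Or.inr (Or.inl (dvd_V hp q hV (fun hU => hUV ⟨hU, hV⟩) h))
  by_cases hU : (p : ℤ) ∣ U
  · left
    have hqV : ¬ (p : ℤ) ∣ q ^ 2 * V := fun h1 => by
      rcases hpp.dvd_or_dvd h1 with h2 | h2
      · exact hq (hpp.dvd_of_dvd_pow h2)
      · exact hV h2
    have h1 : ¬ (p : ℤ) ∣ U - q ^ 2 * V := fun h2 => hqV (by
      have := dvd_sub hU h2
      simpa using this)
    have h2 : ¬ (p : ℤ) ∣ U + q ^ 2 * V := fun h2 => hqV (by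
      have := dvd_sub h2 hU
      simpa using this)
    have h3 : IsCoprime ((p : ℤ) ^ 2) (V * (U - q ^ 2 * V) * (U + q ^ 2 * V)) :=
      ((cop hp hV).mul_right (cop hp h1)).mul_right (cop hp h2)
    refine h3.dvd_of_dvd_mul_right ?_
    rw [fac] at h
    have e : U * (V * (U - q ^ 2 * V) * (U + q ^ 2 * V)) =
        U * V * (U - q ^ 2 * V) * (U + q ^ 2 * V) := by ring
    rw [e]
    exact h
  · right; right
    rw [fac] at h
    by_cases h1 : (p : ℤ) ∣ U - q ^ 2 * V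
    · left
      have h2 : ¬ (p : ℤ) ∣ U + q ^ 2 * V := fun h2 => by
        have h3 : (p : ℤ) ∣ 2 * U := by
          have := dvd_add h1 h2
          have e : U - q ^ 2 * V + (U + q ^ 2 * V) = 2 * U := by ring
          rwa [e] at this
        rcases hpp.dvd_or_dvd h3 with h4 | h4
        · have h5 : p ∣ 2 := by exact_mod_cast h4
          have := Nat.le_of_dvd (by norm_num) h5
          omega
        · exact hU h4
      have h3 : IsCoprime ((p : ℤ) ^ 2) (U * V * (U + q ^ 2 * V)) :=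
        ((cop hp hU).mul_right (cop hp hV)).mul_right (cop hp h2)
      refine h3.dvd_of_dvd_mul_right ?_
      have e : (U - q ^ 2 * V) * (U * V * (U + q ^ 2 * V)) =
        U * V * (U - q ^ 2 * V) * (U + q ^ 2 * V) := by ring
      rw [e]
      exact h
    · right
      have h3 : IsCoprime ((p : ℤ) ^ 2) (U * V * (U - q ^ 2 * V)) :=
        ((cop hp hU).mul_right (cop hp hV)).mul_right (cop hp h1)
      refine h3.dvd_of_dvd_mul_right ?_
      have e : (U + q ^ 2 * V) * (U * V * (U - q ^ 2 * V)) =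
        U * V * (U - q ^ 2 * V) * (U + q ^ 2 * V) := by ring
      rw [e]
      exact h

lemma le_sq {M Y : ℕ} {ε : ℝ} (hε : 0 < ε) (hM : 0 < M) (h : (M : ℝ) ^ (1 / 2 + ε) ≤ Y) :
    M ≤ Y ^ 2 := by
  have hM1 : (1 : ℝ) ≤ M := by exact_mod_cast hM
  have h1 : Real.sqrt M ≤ Y := by
    rw [Real.sqrt_eq_rpow]
    exact (Real.rpow_le_rpow_of_exponent_le hM1 (by linarith)).trans h
  have h2 := Real.sqrt_le_left (Nat.cast_nonneg Y) |>.1 h1
  exact_mod_cast h2

open scoped Classical in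
/-- the exceptional set of PRA -/
noncomputable def Bd (M Y : ℕ) (c : ℤ) : Finset ℕ := (Finset.range Y).filter fun x : ℕ => c + M * x ≠ 0 ∧
    ∃ p : ℕ, p.Prime ∧ 1000 < p ∧ ¬ p ∣ M ∧ (p : ℤ) ^ 2 ∣ c + M * x

open scoped Classical in
noncomputable def Be (M Y B u₀ v₀ : ℕ) : Finset (ℕ × ℕ) :=
  ((Finset.range Y) ×ˢ (Finset.range Y)).filter fun w : ℕ × ℕ => ∃ p : ℕ, p.Prime ∧ 1000 < p ∧
    ¬ p ∣ M ∧ p ∣ u₀ + M * (w.1 + B * Y) ∧ p ∣ v₀ + M * (w.2 + 1)

open scoped Classical in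
noncomputable def Bf (M z Y v₀ : ℕ) : Finset ℕ :=
  (Finset.range Y).filter fun y : ℕ => ∃ p : ℕ, p.Prime ∧ p ∣ M ∧ ¬ p ^ 2 ∣ M ∧ z < p ∧
    p ^ 2 ∣ v₀ + M * (y + 1)

/-- many good pairs -/
lemma count {Y : ℕ} (B1 B2 B6 : Finset ℕ) (B3 B4 : ℕ → Finset ℕ) (B5 : Finset (ℕ × ℕ))
    (h1 : 50 * B1.card ≤ Y) (h2 : 50 * B2.card ≤ Y) (h3 : ∀ y ∈ Finset.range Y, 50 * (B3 y).card ≤ Y)
    (h4 : ∀ y ∈ Finset.range Y, 50 * (B4 y).card ≤ Y) (h5 : 100 * B5.card ≤ Y ^ 2)
    (h6 : 100 * B6.card ≤ Y) :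
    ∃ T ⊆ Finset.range Y ×ˢ Finset.range Y, Y ^ 2 ≤ 2 * T.card ∧ ∀ a ∈ T,
      a.1 ∉ B1 ∧ a.2 ∉ B2 ∧ a.1 ∉ B3 a.2 ∧ a.1 ∉ B4 a.2 ∧ a ∉ B5 ∧ a.2 ∉ B6 := by
  classical
  set R := Finset.range Y with hR
  set E1 : Finset (ℕ × ℕ) := B1 ×ˢ R with hE1
  set E2 : Finset (ℕ × ℕ) := R ×ˢ B2 with hE2
  set E3 : Finset (ℕ × ℕ) := R.biUnion fun y => B3 y ×ˢ {y} with hE3
  set E4 : Finset (ℕ × ℕ) := R.biUnion fun y => B4 y ×ˢ {y} with hE4
  set E6 : Finset (ℕ × ℕ) := R ×ˢ B6 with hE6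
  have hRc : R.card = Y := Finset.card_range Y
  have c1 : 50 * E1.card ≤ Y * Y := by
    rw [hE1, Finset.card_product, hRc, ← mul_assoc]
    exact Nat.mul_le_mul_right _ h1
  have c2 : 50 * E2.card ≤ Y * Y := by
    rw [hE2, Finset.card_product, hRc]
    calc 50 * (Y * B2.card) = Y * (50 * B2.card) := by ring
      _ ≤ Y * Y := Nat.mul_le_mul_left _ h2
  have c6 : 100 * E6.card ≤ Y * Y := by
    rw [hE6, Finset.card_product, hRc]
    calc 100 * (Y * B6.card) = Y * (100 * B6.card) := by ring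
      _ ≤ Y * Y := Nat.mul_le_mul_left _ h6
  have cs : ∀ Bb : ℕ → Finset ℕ, (∀ y ∈ R, 50 * (Bb y).card ≤ Y) →
      50 * (R.biUnion fun y => Bb y ×ˢ {y}).card ≤ Y * Y := by
    intro Bb hb
    calc 50 * (R.biUnion fun y => Bb y ×ˢ {y}).card
        ≤ 50 * ∑ y ∈ R, (Bb y ×ˢ {y}).card := Nat.mul_le_mul_left _ Finset.card_biUnion_le
      _ = ∑ y ∈ R, 50 * (Bb y).card := by
          rw [Finset.mul_sum]
          refine Finset.sum_congr rfl fun y _ => ?_
          rw [Finset.card_product, Finset.card_singleton, mul_one]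
      _ ≤ ∑ _y ∈ R, Y := Finset.sum_le_sum hb
      _ = Y * Y := by rw [Finset.sum_const, hRc, smul_eq_mul]
  have c3 := cs B3 h3
  have c4 := cs B4 h4
  set bad := E1 ∪ E2 ∪ E3 ∪ E4 ∪ B5 ∪ E6 with hbad
  have cb : bad.card ≤ E1.card + E2.card + E3.card + E4.card + B5.card + E6.card := by
    refine (Finset.card_union_le _ _).trans (Nat.add_le_add_right ?_ _)
    refine (Finset.card_union_le _ _).trans (Nat.add_le_add_right ?_ _)
    refine (Finset.card_union_le _ _).trans (Nat.add_le_add_right ?_ _)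
    refine (Finset.card_union_le _ _).trans (Nat.add_le_add_right ?_ _)
    exact Finset.card_union_le _ _
  refine ⟨(R ×ˢ R) \ bad, Finset.sdiff_subset, ?_, ?_⟩
  · have h7 := Finset.le_card_sdiff bad (R ×ˢ R)
    rw [Finset.card_product, hRc] at h7
    have h8 : Y ^ 2 = Y * Y := sq Y
    rw [h8] at h5 ⊢
    rw [← hE3] at c3
    rw [← hE4] at c4
    omega
  · rintro ⟨x, y⟩ ha
    rw [Finset.mem_sdiff] at ha
    obtain ⟨ha1, ha2⟩ := ha
    rw [Finset.mem_product] at ha1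
    simp only at ha1
    have hn : ∀ E : Finset (ℕ × ℕ), E ⊆ bad → (x, y) ∉ E := fun E hE hmem => ha2 (hE hmem)
    have s1 : E1 ⊆ bad := by
      intro a h; simp only [hbad, Finset.mem_union]; tauto
    have s2 : E2 ⊆ bad := by
      intro a h; simp only [hbad, Finset.mem_union]; tauto
    have s3 : E3 ⊆ bad := by
      intro a h; simp only [hbad, Finset.mem_union]; tauto
    have s4 : E4 ⊆ bad := by
      intro a h; simp only [hbad, Finset.mem_union]; tauto
    have s5 : B5 ⊆ bad := by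
      intro a h; simp only [hbad, Finset.mem_union]; tauto
    have s6 : E6 ⊆ bad := by
      intro a h; simp only [hbad, Finset.mem_union]; tauto
    refine ⟨fun h => hn _ s1 (Finset.mem_product.2 ⟨h, ha1.2⟩),
      fun h => hn _ s2 (Finset.mem_product.2 ⟨ha1.1, h⟩),
      fun h => hn _ s3 (Finset.mem_biUnion.2 ⟨y, ha1.2, Finset.mem_product.2 ⟨h, by simp⟩⟩),
      fun h => hn _ s4 (Finset.mem_biUnion.2 ⟨y, ha1.2, Finset.mem_product.2 ⟨h, by simp⟩⟩),
      hn _ s5, fun h => hn _ s6 (Finset.mem_product.2 ⟨ha1.1, h⟩)⟩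

end PairX

open PairX

theorem t_PAIR (h1 : S_LCN) (h2 : S_PRA) (h3 : S_TE) (h4 : S_TF) : S_PAIR := by
  intro q ε hε hq hq1000
  obtain ⟨Y1, hY1⟩ := h2 ε (8 * q ^ 2 + 2) hε
  obtain ⟨Y2, hY2⟩ := h3 (2 * q ^ 2) (by have := pow_pos hq 2; omega)
  refine ⟨max (max Y1 Y2) 1, fun M k Y hY hM hqM hsmall hw hMY hk => ?_⟩
  have hYa : Y1 ≤ Y := (le_max_left _ _).trans ((le_max_left _ _).trans hY)
  have hYb : Y2 ≤ Y := (le_max_right _ _).trans ((le_max_left _ _).trans hY)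
  have hY0 : 1 ≤ Y := (le_max_right _ _).trans hY
  have hk0 : 0 < k := Nat.pos_of_ne_zero hk.ne_zero
  obtain ⟨u₀, v₀, hu0, hv0, hcop, hG0, hdiv⟩ := h1 q k M
    (fun p hp hp53 => hq1000 p hp (by omega)) hq hk0 hM
  have hMsq := le_sq hε hM hMY
  set w := M.primeFactors.card with hwdef
  set z := 200 * (w + 1) with hz
  set B := 2 * q ^ 2 with hB
  -- bounds for `v`
  have hvb : ∀ y < Y, v₀ + M * (y + 1) < 2 * M * Y := by
    intro y hy
    have e1 : M * (y + 1) ≤ M * Y := Nat.mul_le_mul_left _ hy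
    have e2 : M * 1 ≤ M * Y := Nat.mul_le_mul_left _ hY0
    have e3 : 2 * M * Y = M * Y + M * Y := by ring
    omega
  have hub : ∀ x < Y, u₀ + M * (x + B * Y) ≤ (B + 1) * M * Y := by
    intro x hx
    have e1 : M * (x + B * Y) + M ≤ (B + 1) * M * Y := by
      calc M * (x + B * Y) + M = M * (x + 1 + B * Y) := by ring
        _ ≤ M * (Y + B * Y) := Nat.mul_le_mul_left _ (by omega)
        _ = (B + 1) * M * Y := by ring
    omega
  have hlt : ∀ x < Y, ∀ y < Y, q ^ 2 * (v₀ + M * (y + 1)) < u₀ + M * (x + B * Y) := by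
    intro x hx y hy
    calc q ^ 2 * (v₀ + M * (y + 1)) < q ^ 2 * (2 * M * Y) :=
          Nat.mul_lt_mul_of_pos_left (hvb y hy) (pow_pos hq 2)
      _ = M * (B * Y) := by rw [hB]; ring
      _ ≤ M * (x + B * Y) := Nat.mul_le_mul_left _ (by omega)
      _ ≤ _ := Nat.le_add_left _ _
  -- the exceptional sets
  have hPR : ∀ c : ℤ, |c| ≤ ((8 * q ^ 2 + 2 : ℕ) : ℤ) * M * Y → 50 * (Bd M Y c).card ≤ Y := fun c hc =>
    hY1 M Y c hYa hM hMY hc
  have hTE : 100 * (Be M Y B u₀ v₀).card ≤ Y ^ 2 := hY2 M Y u₀ v₀ hYb hM hMsq hu0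
  have hTF : (Bf M z Y v₀).card ≤ w * (Y / z + 1) := h4 M z Y v₀ hM (by omega)
  have hTF' : 100 * (Bf M z Y v₀).card ≤ Y := by
    have e1 : Y / z * z ≤ Y := Nat.div_mul_le_self Y z
    have e2 : 200 * (w * (Y / z)) ≤ Y := by
      refine le_trans ?_ e1
      rw [hz]
      calc 200 * (w * (Y / (200 * (w + 1)))) = Y / (200 * (w + 1)) * (200 * w) := by ring
        _ ≤ Y / (200 * (w + 1)) * (200 * (w + 1)) := Nat.mul_le_mul_left _ (by omega)
    have e3 : w * (Y / z + 1) = w * (Y / z) + w := by ring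
    omega
  have hc1 : |((u₀ + M * (B * Y) : ℕ) : ℤ)| ≤ ((8 * q ^ 2 + 2 : ℕ) : ℤ) * M * Y := by
    rw [Nat.abs_cast]
    have e1 : u₀ + M * (B * Y) ≤ (B + 1) * M * Y := by
      have := hub 0 (by omega)
      simpa using this
    have e2 : (B + 1) * M * Y ≤ (8 * q ^ 2 + 2) * M * Y := by
      refine Nat.mul_le_mul_right _ (Nat.mul_le_mul_right _ ?_)
      omega
    exact_mod_cast e1.trans e2
  have hc2 : |((v₀ + M : ℕ) : ℤ)| ≤ ((8 * q ^ 2 + 2 : ℕ) : ℤ) * M * Y := by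
    rw [Nat.abs_cast]
    have e1 : v₀ + M ≤ 2 * M * Y := by
      have := hvb 0 (by omega)
      simp only [zero_add, mul_one] at this
      exact this.le
    have e2 : 2 * M * Y ≤ (8 * q ^ 2 + 2) * M * Y := by
      refine Nat.mul_le_mul_right _ (Nat.mul_le_mul_right _ ?_)
      omega
    exact_mod_cast e1.trans e2
  have hc34 : ∀ y < Y, ∀ s : ℤ, |s| = 1 →
      |((u₀ + M * (B * Y) : ℕ) : ℤ) + s * (q ^ 2 * (v₀ + M * (y + 1) : ℕ) : ℕ)| ≤
        ((8 * q ^ 2 + 2 : ℕ) : ℤ) * M * Y := by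
    intro y hy s hs
    refine (abs_add_le _ _).trans ?_
    rw [abs_mul, hs, one_mul, Nat.abs_cast, Nat.abs_cast]
    have e1 : u₀ + M * (B * Y) ≤ (B + 1) * M * Y := by
      have := hub 0 (by omega)
      simpa using this
    have e3 : q ^ 2 * (v₀ + M * (y + 1)) ≤ B * M * Y := by
      calc q ^ 2 * (v₀ + M * (y + 1)) ≤ q ^ 2 * (2 * M * Y) := Nat.mul_le_mul_left _ (hvb y hy).le
        _ = B * M * Y := by rw [hB]; ring
    have e4 : (B + 1) * M * Y + B * M * Y ≤ (8 * q ^ 2 + 2) * M * Y := by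
      calc (B + 1) * M * Y + B * M * Y = (2 * B + 1) * M * Y := by ring
        _ ≤ _ := by
          refine Nat.mul_le_mul_right _ (Nat.mul_le_mul_right _ ?_)
          omega
    exact_mod_cast (Nat.add_le_add e1 e3).trans e4
  obtain ⟨T, hT, hTc, hTg⟩ := count (Y := Y)
    (Bd M Y ((u₀ + M * (B * Y) : ℕ) : ℤ)) (Bd M Y ((v₀ + M : ℕ) : ℤ)) (Bf M z Y v₀)
    (fun y => Bd M Y (((u₀ + M * (B * Y) : ℕ) : ℤ) + (-1) * (q ^ 2 * (v₀ + M * (y + 1) : ℕ) : ℕ)))
    (fun y => Bd M Y (((u₀ + M * (B * Y) : ℕ) : ℤ) + 1 * (q ^ 2 * (v₀ + M * (y + 1) : ℕ) : ℕ)))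
    (Be M Y B u₀ v₀) (hPR _ hc1) (hPR _ hc2)
    (fun y hy => hPR _ (hc34 y (Finset.mem_range.1 hy) (-1) (by norm_num)))
    (fun y hy => hPR _ (hc34 y (Finset.mem_range.1 hy) 1 (by norm_num))) hTE hTF'
  classical
  refine ⟨T.image fun a => (u₀ + M * (a.1 + B * Y), v₀ + M * (a.2 + 1)), ?_, ?_⟩
  · rw [Finset.card_image_of_injective]
    · exact hTc
    · rintro ⟨x, y⟩ ⟨x', y'⟩ h
      simp only [Prod.mk.injEq] at h
      obtain ⟨ha, hb⟩ := h
      have e1 := Nat.eq_of_mul_eq_mul_left hM (Nat.add_left_cancel ha)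
      have e2 := Nat.eq_of_mul_eq_mul_left hM (Nat.add_left_cancel hb)
      ext
      · show x = x'
        omega
      · show y = y'
        omega
  · intro a ha
    obtain ⟨⟨x, y⟩, hxy, rfl⟩ := Finset.mem_image.1 ha
    have hxy' := Finset.mem_product.1 (hT hxy)
    have hx : x < Y := Finset.mem_range.1 hxy'.1
    have hy : y < Y := Finset.mem_range.1 hxy'.2
    obtain ⟨g1, g2, g3, g4, g5, g6⟩ := hTg _ hxy
    simp only at g1 g2 g3 g4 g5 g6
    have hlt' := hlt x hx y hy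
    set U := u₀ + M * (x + B * Y) with hU
    set V := v₀ + M * (y + 1) with hV
    have hVpos : 0 < V := by
      have := Nat.mul_pos hM (show 0 < y + 1 by omega)
      rw [hV]
      omega
    have hsq : q ^ 4 * V ^ 2 ≤ U ^ 2 := by
      calc q ^ 4 * V ^ 2 = (q ^ 2 * V) ^ 2 := by ring
        _ ≤ U ^ 2 := Nat.pow_le_pow_left hlt'.le 2
    have hcast : ((U * V * (U ^ 2 - q ^ 4 * V ^ 2) : ℕ) : ℤ) = G q U V := by
      unfold G
      push_cast [Nat.cast_sub hsq]
      ring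
    have hUm : (U : ℤ) ≡ u₀ [ZMOD M] := by
      refine (Int.modEq_of_dvd ⟨(x : ℤ) + B * Y, ?_⟩).symm
      rw [hU]
      push_cast
      ring
    have hVm : (V : ℤ) ≡ v₀ [ZMOD M] := by
      refine (Int.modEq_of_dvd ⟨(y : ℤ) + 1, ?_⟩).symm
      rw [hV]
      push_cast
      ring
    have hGm : G q U V ≡ k [ZMOD M] := by
      refine Int.ModEq.trans ?_ hG0
      unfold G
      exact (hUm.mul hVm).mul ((hUm.pow 2).sub ((Int.ModEq.refl _).mul (hVm.pow 2)))
    refine ⟨hVpos, hlt', ?_, (hvb y hy).le, ?_, ?_⟩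
    · refine (hub x hx).trans ?_
      exact Nat.mul_le_mul_right _ (Nat.mul_le_mul_right _ (by omega))
    · rw [← Int.natCast_modEq_iff, hcast]
      exact hGm
    · rw [Nat.squarefree_iff_prime_squarefree]
      intro p hp hpd
      have hpd' : (p : ℤ) ^ 2 ∣ G q U V := by
        rw [← hcast, sq]
        exact_mod_cast hpd
      have hpG : (p : ℤ) ∣ G q U V := (Dvd.intro_left _ (by rw [sq])).trans hpd'
      have hpp := Nat.prime_iff_prime_int.1 hp
      by_cases hpM : p ∣ M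
      · have hpMz : (p : ℤ) ∣ M := by exact_mod_cast hpM
        have hpk : p ∣ k := by
          have e1 : (p : ℤ) ∣ k - G q U V := hpMz.trans hGm.dvd
          have e2 := dvd_add e1 hpG
          rw [sub_add_cancel] at e2
          exact_mod_cast e2
        by_cases hp2M : p ^ 2 ∣ M
        · have hp2z : (p : ℤ) ^ 2 ∣ M := by exact_mod_cast hp2M
          have e1 : (p : ℤ) ^ 2 ∣ k - G q U V := hp2z.trans hGm.dvd
          have e2 := dvd_add e1 hpd'
          rw [sub_add_cancel] at e2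
          have e3 : p * p ∣ k := by
            rw [← sq]
            exact_mod_cast e2
          exact hp.one_lt.ne' (Nat.isUnit_iff.1 (hk p e3))
        · have hzp : z < p := by
            by_contra hcon
            exact hp2M (hsmall p hp hpM (not_lt.1 hcon))
          have hpv0 : p ∣ v₀ := hdiv p hp hpM hpk
          have hpu0 : ¬ p ∣ u₀ := fun h => by
            have := Nat.dvd_gcd h hpM
            rw [Nat.Coprime] at hcop
            rw [hcop] at this
            exact hp.one_lt.ne' (Nat.dvd_one.1 this)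
          have hpV : (p : ℤ) ∣ V := by
            have : p ∣ V := dvd_add hpv0 (hpM.mul_right _)
            exact_mod_cast this
          have hpU : ¬ (p : ℤ) ∣ U := fun h => by
            have h' : p ∣ U := by exact_mod_cast h
            exact hpu0 ((Nat.dvd_add_iff_left (hpM.mul_right _)).2 h')
          have e1 := dvd_V hp q hpV hpU hpd'
          have e2 : p ^ 2 ∣ V := by exact_mod_cast e1
          apply g6
          unfold Bf
          rw [Finset.mem_filter]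
          exact ⟨Finset.mem_range.2 hy, p, hp, hpM, hp2M, hzp, e2⟩
      · have hpq : ¬ p ∣ q := fun h => hpM ((h.trans (Dvd.intro_left _ (by rw [sq]))).trans hqM)
        have hp1000 : 1000 < p := by
          by_contra hcon
          exact hpq (hq1000 p hp (not_lt.1 hcon))
        have hpqz : ¬ (p : ℤ) ∣ q := fun h => hpq (by exact_mod_cast h)
        have hUV : ¬ ((p : ℤ) ∣ U ∧ (p : ℤ) ∣ V) := by
          rintro ⟨ha, hb⟩
          apply g5
          unfold Be
          rw [Finset.mem_filter]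
          exact ⟨Finset.mem_product.2 ⟨hxy'.1, hxy'.2⟩, p, hp, hp1000, hpM, by exact_mod_cast ha,
            by exact_mod_cast hb⟩
        have hmem : ∀ (c : ℤ) (t : ℕ), t < Y → c + M * t ≠ 0 → (p : ℤ) ^ 2 ∣ c + M * t →
            t ∈ Bd M Y c := by
          intro c t ht h0 hd
          unfold Bd
          rw [Finset.mem_filter]
          exact ⟨Finset.mem_range.2 ht, h0, p, hp, hp1000, hpM, hd⟩
        have hUV' : (q : ℤ) ^ 2 * V < U := by exact_mod_cast hlt'
        have hVp : (0 : ℤ) < V := by exact_mod_cast hVpos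
        have hqV : (0 : ℤ) ≤ (q : ℤ) ^ 2 * V := by positivity
        have eU : ((u₀ + M * (B * Y) : ℕ) : ℤ) + M * x = U := by
          rw [hU]
          push_cast
          ring
        have eV : ((v₀ + M : ℕ) : ℤ) + M * y = V := by
          rw [hV]
          push_cast
          ring
        rcases four hp (by omega) q hpqz hUV hpd' with h | h | h | h
        · refine g1 (hmem _ x hx ?_ ?_)
          · rw [eU]
            omega
          · rw [eU]
            exact h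
        · refine g2 (hmem _ y hy ?_ ?_)
          · rw [eV]
            omega
          · rw [eV]
            exact h
        · have e3 : ((u₀ + M * (B * Y) : ℕ) : ℤ) + (-1) * ((q ^ 2 * V : ℕ) : ℤ) + M * x =
              U - q ^ 2 * V := by
            rw [← eU]
            push_cast
            ring
          refine g3 (hmem _ x hx ?_ ?_)
          · rw [e3]
            omega
          · rw [e3]
            exact h
        · have e4 : ((u₀ + M * (B * Y) : ℕ) : ℤ) + 1 * ((q ^ 2 * V : ℕ) : ℤ) + M * x =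
              U + q ^ 2 * V := by
            rw [← eU]
            push_cast
            ring
          refine g4 (hmem _ x hx ?_ ?_)
          · rw [e4]
            omega
          · rw [e4]
            exact h

end Pool.Agent.T2h88.GP
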