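import Pool.Agent.T2h88.GP.Stm

/-! PEL -/

set_option autoImplicit false

namespace Pool.Agent.T2h88.GP

theorem pel_step (j m S s s' p p' : ℕ) (hj : 0 < j) (hm : 0 < m) (hS : 0 < S) (hs : S < s) (hss : s < s')
    (h : s ^ 2 + j ^ 2 = m * p ^ 2) (h' : s' ^ 2 + j ^ 2 = m * p' ^ 2) :
    j ^ 2 * p + S ≤ j ^ 2 * p' := by
  have hpp : p < p' := by
    by_contra hcon
    push Not at hcon
    have h1 : m * p' ^ 2 ≤ m * p ^ 2 := Nat.mul_le_mul_left _ (Nat.pow_le_pow_left hcon 2)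
    have h2 : s ^ 2 < s' ^ 2 := Nat.pow_lt_pow_left hss (by norm_num)
    omega
  zify at *
  have hj' : (0 : ℤ) < j := hj
  set a : ℤ := s' * p - s * p' with ha
  have hab : a * (s' * p + s * p') = j ^ 2 * ((p' - p) * (p' + p)) := by
    rw [ha]
    linear_combination (p : ℤ) ^ 2 * h' - (p' : ℤ) ^ 2 * h
  have hp0 : (0 : ℤ) ≤ p := by positivity
  have hb0 : (0 : ℤ) < s' * p + s * p' := by
    have h1 : (0 : ℤ) ≤ s' * p := by positivity
    have h2 : (0 : ℤ) < s * p' := mul_pos (by linarith) (by linarith)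
    linarith
  have hr : (0 : ℤ) < j ^ 2 * ((p' - p) * (p' + p)) := by
    apply mul_pos (by positivity)
    exact mul_pos (by linarith) (by linarith)
  have ha1 : 1 ≤ a := by
    by_contra hcon
    push Not at hcon
    have h1 : a ≤ 0 := by linarith [Int.lt_add_one_iff.1 (show a < 0 + 1 by linarith)]
    have h2 : a * (s' * p + s * p') ≤ 0 := mul_nonpos_of_nonpos_of_nonneg h1 hb0.le
    linarith
  have h3 : (S : ℤ) * (p' + p) ≤ s' * p + s * p' := by
    have e1 : (S : ℤ) * p ≤ s' * p := mul_le_mul_of_nonneg_right (by linarith) hp0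
    have e2 : (S : ℤ) * p' ≤ s * p' := mul_le_mul_of_nonneg_right hs.le (by linarith)
    linarith
  have h4 : (s' * p + s * p' : ℤ) ≤ a * (s' * p + s * p') := by nlinarith
  have h5 : (S : ℤ) * (p' + p) ≤ (j ^ 2 * (p' - p)) * (p' + p) := by
    calc (S : ℤ) * (p' + p) ≤ a * (s' * p + s * p') := h3.trans h4
      _ = _ := by rw [hab]; ring
  have h6 : (S : ℤ) ≤ j ^ 2 * (p' - p) := le_of_mul_le_mul_right h5 (by linarith)
  linarith

/-- PEL. -/
theorem t_PEL : S_PEL := by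
  intro j m S hj hm hS
  classical
  set T : Set ℕ := {s : ℕ | S < s ∧ s ≤ 2 * S ∧ ∃ p : ℕ, s ^ 2 + j ^ 2 = m * p ^ 2} with hT
  have hex : ∀ s : ℕ, ∃ p : ℕ, s ∈ T → s ^ 2 + j ^ 2 = m * p ^ 2 := by
    intro s
    by_cases h : s ∈ T
    · obtain ⟨p, hp⟩ := h.2.2
      exact ⟨p, fun _ => hp⟩
    · exact ⟨0, fun h' => absurd h' h⟩
  choose P hP using hex
  have hmono : ∀ s ∈ T, ∀ s' ∈ T, s < s' → j ^ 2 * P s / S < j ^ 2 * P s' / S := by
    intro s hs s' hs' hss
    have h1 := pel_step j m S s s' (P s) (P s') hj hm hS hs.1 hss (hP s hs) (hP s' hs')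
    calc j ^ 2 * P s / S < j ^ 2 * P s / S + 1 := Nat.lt_succ_self _
      _ = (j ^ 2 * P s + S) / S := (Nat.add_div_right _ hS).symm
      _ ≤ j ^ 2 * P s' / S := Nat.div_le_div_right h1
  have h1 := Set.ncard_le_ncard_of_injOn (s := T) (t := ((Finset.range (3 * j ^ 3 + 1) : Finset ℕ) : Set ℕ))
    (fun s => j ^ 2 * P s / S) (by
      intro s hs
      rw [Finset.coe_range, Set.mem_Iio, Nat.lt_succ_iff]
      have h2 := hP s hs
      have h3 : P s ≤ 2 * S + j := by
        by_contra hcon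
        push Not at hcon
        have h4 : (2 * S + j + 1) ^ 2 ≤ P s ^ 2 := Nat.pow_le_pow_left hcon 2
        have h5 : P s ^ 2 ≤ m * P s ^ 2 := Nat.le_mul_of_pos_left _ hm
        have h6 : s ^ 2 ≤ (2 * S) ^ 2 := Nat.pow_le_pow_left hs.2.1 2
        nlinarith
      show j ^ 2 * P s / S ≤ 3 * j ^ 3
      calc j ^ 2 * P s / S ≤ (j ^ 2 * (2 * S + j)) / S := Nat.div_le_div_right (Nat.mul_le_mul_left _ h3)
        _ = (j ^ 3 + 2 * j ^ 2 * S) / S := by congr 1; ring
        _ = j ^ 3 / S + 2 * j ^ 2 := Nat.add_mul_div_right _ _ hS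
        _ ≤ j ^ 3 + 2 * j ^ 2 := Nat.add_le_add_right (Nat.div_le_self _ _) _
        _ ≤ 3 * j ^ 3 := by
          have h7 : j ^ 2 ≤ j ^ 3 := Nat.pow_le_pow_right hj (by norm_num)
          omega)
    (by
      intro s hs s' hs' h
      rcases lt_trichotomy s s' with hlt | heq | hlt
      · exact absurd h (hmono s hs s' hs' hlt).ne
      · exact heq
      · exact absurd h (hmono s' hs' s hs hlt).ne')
    (Finset.finite_toSet _)
  rw [Set.ncard_coe_finset, Finset.card_range] at h1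
  exact h1

end Pool.Agent.T2h88.GP
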