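import Pool.Agent.T2h88.GP.Stm2

set_option autoImplicit false

/-!
# (PRA) Prachar's argument: squares of primes which divide a value of a linear polynomial
-/

namespace Pool.Agent.T2h88.GP

namespace PRA

/-- numbers in one residue class -/
theorem cls (p Y : ℕ) (S : Finset ℕ) (hS : ∀ y ∈ S, y < Y)
    (h : ∀ y ∈ S, ∀ y' ∈ S, y % p = y' % p) : S.card ≤ Y / p + 1 := by
  have h1 : S.card ≤ (Finset.range (Y / p + 1)).card := by
    refine Finset.card_le_card_of_injOn (fun y => y / p) (fun y hy => ?_) ?_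
    · rw [Finset.mem_coe, Finset.mem_range]
      exact Nat.lt_succ_of_le (Nat.div_le_div_right (hS y hy).le)
    · intro y hy y' hy' hyy
      have h2 := h y hy y' hy'
      have h3 : y / p = y' / p := hyy
      rw [← Nat.div_add_mod y p, ← Nat.div_add_mod y' p, h2, h3]
  rwa [Finset.card_range] at h1

open scoped Classical in
/-- small primes -/
theorem small (k M Y T : ℕ) (hk : 0 < k) (c : ℤ) (hT : k * T ≤ Y) :
    k * ((Finset.range Y).filter fun x : ℕ => ∃ p : ℕ, p.Prime ∧ k < p ∧ p ≤ T ∧ ¬ p ∣ M ∧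
      (p : ℤ) ^ 2 ∣ c + M * x).card ≤ 2 * Y := by
  have h1 : ((Finset.range Y).filter fun x : ℕ => ∃ p : ℕ, p.Prime ∧ k < p ∧ p ≤ T ∧ ¬ p ∣ M ∧
      (p : ℤ) ^ 2 ∣ c + M * x) ⊆ (Finset.Ioc k T).biUnion fun p =>
        (Finset.range Y).filter fun x : ℕ => p.Prime ∧ ¬ p ∣ M ∧ (p : ℤ) ^ 2 ∣ c + M * x := by
    intro x hx
    rw [Finset.mem_filter] at hx
    obtain ⟨hx, p, hp, h1, h2, h3, h4⟩ := hx
    rw [Finset.mem_biUnion]
    exact ⟨p, Finset.mem_Ioc.2 ⟨h1, h2⟩, Finset.mem_filter.2 ⟨hx, hp, h3, h4⟩⟩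
  have h2 : ∀ p ∈ Finset.Ioc k T, ((Finset.range Y).filter fun x : ℕ => p.Prime ∧ ¬ p ∣ M ∧
      (p : ℤ) ^ 2 ∣ c + M * x).card ≤ Y / p ^ 2 + 1 := by
    intro p _
    by_cases hp : p.Prime ∧ ¬ p ∣ M
    · refine cls (p ^ 2) Y _ (fun y hy => Finset.mem_range.1 (Finset.mem_filter.1 hy).1) ?_
      intro y hy y' hy'
      have a1 := (Finset.mem_filter.1 hy).2.2.2
      have a2 := (Finset.mem_filter.1 hy').2.2.2
      have a3 : (p : ℤ) ^ 2 ∣ (M : ℤ) * ((y' : ℤ) - y) := by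
        have := dvd_sub a2 a1
        rw [show c + (M : ℤ) * y' - (c + M * y) = (M : ℤ) * ((y' : ℤ) - y) by ring] at this
        exact this
      have a4 : IsCoprime ((p : ℤ) ^ 2) (M : ℤ) := by
        apply IsCoprime.pow_left
        exact Nat.isCoprime_iff_coprime.2 ((Nat.Prime.coprime_iff_not_dvd hp.1).2 hp.2)
      have a5 : ((p ^ 2 : ℕ) : ℤ) ∣ (y' : ℤ) - y := by
        push_cast
        exact a4.dvd_of_dvd_mul_left a3
      have b6 : (y : ℤ) ≡ y' [ZMOD (p ^ 2 : ℕ)] := (Int.modEq_iff_dvd).2 a5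
      exact (Int.natCast_modEq_iff.1 b6)
    · rw [Finset.filter_false_of_mem]
      · rw [Finset.card_empty]
        exact Nat.zero_le _
      · intro x _ h
        exact hp ⟨h.1, h.2.1⟩
  have h3 : ((Finset.range Y).filter fun x : ℕ => ∃ p : ℕ, p.Prime ∧ k < p ∧ p ≤ T ∧ ¬ p ∣ M ∧
      (p : ℤ) ^ 2 ∣ c + M * x).card ≤ ∑ p ∈ Finset.Ioc k T, (Y / p ^ 2 + 1) :=
    (Finset.card_le_card h1).trans (Finset.card_biUnion_le.trans (Finset.sum_le_sum h2))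
  rcases le_total T k with hT1 | hT1
  · rw [Finset.Ioc_eq_empty (by omega), Finset.sum_empty] at h3
    rw [Nat.le_zero.1 h3, mul_zero]
    exact Nat.zero_le _
  have h4 : ((∑ p ∈ Finset.Ioc k T, (Y / p ^ 2 + 1) : ℕ) : ℝ) ≤ Y / k + T := by
    push_cast
    rw [Finset.sum_add_distrib, Finset.sum_const, Nat.card_Ioc, nsmul_eq_mul, mul_one]
    have b1 : ∑ p ∈ Finset.Ioc k T, (((Y / p ^ 2 : ℕ) : ℕ) : ℝ) ≤
        Y * ∑ p ∈ Finset.Ioc k T, ((p : ℝ) ^ 2)⁻¹ := by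
      rw [Finset.mul_sum]
      refine Finset.sum_le_sum fun p _ => ?_
      refine Nat.cast_div_le.trans (le_of_eq ?_)
      push_cast
      rw [div_eq_mul_inv]
    have b2 := sum_Ioc_inv_sq_le_sub (α := ℝ) (k := k) (n := T) hk.ne' hT1
    have b3 : (0 : ℝ) ≤ ((T : ℝ))⁻¹ := by positivity
    have b4 : (Y : ℝ) * ∑ p ∈ Finset.Ioc k T, ((p : ℝ) ^ 2)⁻¹ ≤ Y * (k : ℝ)⁻¹ := by
      apply mul_le_mul_of_nonneg_left _ (Nat.cast_nonneg Y)
      refine b2.trans ?_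
      linarith
    have b5 : ((T - k : ℕ) : ℝ) ≤ T := by exact_mod_cast Nat.sub_le T k
    have b6 : (Y : ℝ) * (k : ℝ)⁻¹ = Y / k := by ring
    linarith
  have h5 : (k : ℝ) * T ≤ Y := by exact_mod_cast hT
  have h6 : (((Finset.range Y).filter fun x : ℕ => ∃ p : ℕ, p.Prime ∧ k < p ∧ p ≤ T ∧
      ¬ p ∣ M ∧ (p : ℤ) ^ 2 ∣ c + M * x).card : ℝ) ≤ Y / k + T :=
    le_trans (by exact_mod_cast h3) h4
  have hk' : (0 : ℝ) < k := by exact_mod_cast hk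
  have h7 : (k : ℝ) * (((Finset.range Y).filter fun x : ℕ => ∃ p : ℕ, p.Prime ∧ k < p ∧
      p ≤ T ∧ ¬ p ∣ M ∧ (p : ℤ) ^ 2 ∣ c + M * x).card : ℝ) ≤ 2 * Y := by
    have h8 := mul_le_mul_of_nonneg_left h6 hk'.le
    have h9 : (k : ℝ) * (Y / k + T) = Y + k * T := by
      field_simp
    linarith
  exact_mod_cast h7

open scoped Classical in
/-- the primes for a given cofactor -/
theorem roots (h2 : S_SQR) (M₁ R : ℕ) (hM₁ : 0 < M₁) (c₁ m : ℤ) (hc : IsCoprime c₁ (M₁ : ℤ)) :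
    ((Finset.range (R + 1)).filter fun p : ℕ => IsCoprime (p : ℤ) M₁ ∧
      (M₁ : ℤ) ∣ (p : ℤ) ^ 2 * m - c₁).card ≤ 2 ^ (M₁.primeFactors.card + 1) * (R / M₁ + 1) := by
  by_cases hne : ((Finset.range (R + 1)).filter fun p : ℕ => IsCoprime (p : ℤ) M₁ ∧
      (M₁ : ℤ) ∣ (p : ℤ) ^ 2 * m - c₁).Nonempty
  · obtain ⟨p0, hp0⟩ := hne
    rw [Finset.mem_filter] at hp0
    obtain ⟨-, hp1, t, ht⟩ := hp0
    have hm : IsCoprime m (M₁ : ℤ) := by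
      have e1 : (p0 : ℤ) ^ 2 * m = c₁ + M₁ * t := by linarith
      have e2 : IsCoprime ((p0 : ℤ) ^ 2 * m) (M₁ : ℤ) := by
        rw [e1]
        exact hc.add_mul_left_left t
      exact e2.of_mul_left_right
    have h3 := h2 M₁ (p0 ^ 2) hM₁
    refine le_trans ?_ (Nat.mul_le_mul_right (R / M₁ + 1) h3)
    rw [← Finset.card_range (R / M₁ + 1), ← Finset.card_product]
    refine Finset.card_le_card_of_injOn (fun p => (p % M₁, p / M₁)) (fun p hp => ?_) ?_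
    · rw [Finset.mem_coe, Finset.mem_filter, Finset.mem_range] at hp
      obtain ⟨hpR, hpc, hpd⟩ := hp
      rw [Finset.mem_coe, Finset.mem_product, Finset.mem_filter, Finset.mem_range,
        Finset.mem_range]
      refine ⟨⟨Nat.mod_lt p hM₁, ?_, ?_⟩, ?_⟩
      · have e3 : Nat.Coprime p M₁ := Nat.isCoprime_iff_coprime.1 hpc
        show Nat.gcd (p % M₁) M₁ = 1
        rw [← Nat.gcd_rec, Nat.gcd_comm]
        exact e3
      · have e4 : (M₁ : ℤ) ∣ ((p0 : ℤ) ^ 2 - (p : ℤ) ^ 2) * m := by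
          have e5 : ((p0 : ℤ) ^ 2 - (p : ℤ) ^ 2) * m = M₁ * t - ((p : ℤ) ^ 2 * m - c₁) := by
            linarith
          rw [e5]
          exact dvd_sub (dvd_mul_right _ _) hpd
        have e6 : (M₁ : ℤ) ∣ ((p0 : ℤ) ^ 2 - (p : ℤ) ^ 2) := hm.symm.dvd_of_dvd_mul_right e4
        have e7 : ((p ^ 2 : ℕ) : ℤ) ≡ ((p0 ^ 2 : ℕ) : ℤ) [ZMOD M₁] := by
          apply (Int.modEq_iff_dvd).2
          push_cast
          exact e6
        have e8 : p ^ 2 ≡ p0 ^ 2 [MOD M₁] := Int.natCast_modEq_iff.1 e7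
        exact ((Nat.mod_modEq p M₁).pow 2).trans e8
      · exact Nat.lt_succ_of_le (Nat.div_le_div_right (Nat.le_of_lt_succ hpR))
    · intro p _ p' _ hpp
      have h4 := congrArg Prod.fst hpp
      have h5 := congrArg Prod.snd hpp
      simp only at h4 h5
      rw [← Nat.div_add_mod p M₁, ← Nat.div_add_mod p' M₁, h4, h5]
  · rw [Finset.not_nonempty_iff_eq_empty] at hne
    rw [hne, Finset.card_empty]
    exact Nat.zero_le _

open scoped Classical in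
/-- large primes -/
theorem large (h2 : S_SQR) (k A M Y : ℕ) (c : ℤ) (hM : 0 < M) (hY : 0 < Y)
    (hc : |c| ≤ A * M * Y) : ∃ g M₁ : ℕ, 0 < g ∧ M = g * M₁ ∧
    ((Finset.range Y).filter fun x : ℕ => c + M * x ≠ 0 ∧ ∃ p : ℕ, p.Prime ∧ Y < k * p ∧
      ¬ p ∣ M ∧ (p : ℤ) ^ 2 ∣ c + M * x).card ≤
    2 * (k ^ 2 * (A + 1) * M / (g * Y)) *
      (2 ^ (M.primeFactors.card + 1) * (Nat.sqrt ((A + 1) * M * Y) / M₁ + 1)) := by
  have hg : 0 < Int.gcd c M := Int.gcd_pos_of_ne_zero_right _ (by exact_mod_cast hM.ne')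
  obtain ⟨c₁, M₁', hcM, hc1, hM1⟩ := Int.exists_gcd_one hg
  obtain ⟨g, hgd⟩ : ∃ g, g = Int.gcd c M := ⟨_, rfl⟩
  rw [← hgd] at hg hc1 hM1
  have hM₁' : 0 < M₁' := by
    have : (0 : ℤ) < M₁' * g := by
      rw [← hM1]
      exact_mod_cast hM
    exact pos_of_mul_pos_left this (by positivity)
  obtain ⟨M₁, hM₁⟩ : ∃ M₁ : ℕ, (M₁ : ℤ) = M₁' := ⟨M₁'.toNat, Int.toNat_of_nonneg hM₁'.le⟩
  rw [← hM₁] at hM1 hcM hM₁'
  have hM₁p : 0 < M₁ := by exact_mod_cast hM₁'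
  have hMg : M = g * M₁ := by
    rw [mul_comm]
    exact_mod_cast hM1
  have hcop : IsCoprime c₁ (M₁ : ℤ) := Int.isCoprime_iff_gcd_eq_one.2 hcM
  refine ⟨g, M₁, hg, hMg, ?_⟩
  obtain ⟨L, hL⟩ : ∃ L, L = k ^ 2 * (A + 1) * M / (g * Y) := ⟨_, rfl⟩
  obtain ⟨R, hR⟩ : ∃ R, R = Nat.sqrt ((A + 1) * M * Y) := ⟨_, rfl⟩
  rw [← hL, ← hR]
  obtain ⟨S, hS⟩ : ∃ S : Finset ℕ, S = (Finset.range Y).filter fun x : ℕ => c + M * x ≠ 0 ∧
    ∃ p : ℕ, p.Prime ∧ Y < k * p ∧ ¬ p ∣ M ∧ (p : ℤ) ^ 2 ∣ c + M * x := ⟨_, rfl⟩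
  rw [← hS]
  have key : ∀ x : ℕ, ∃ (m : ℤ) (p : ℕ), x ∈ S → (m ≠ 0 ∧ m.natAbs ≤ L ∧ p ≤ R ∧
      IsCoprime (p : ℤ) M₁ ∧ c₁ + M₁ * x = (p : ℤ) ^ 2 * m) := by
    intro x
    by_cases hx : x ∈ S
    swap
    · exact ⟨0, 0, fun h => absurd h hx⟩
    rw [hS, Finset.mem_filter, Finset.mem_range] at hx
    obtain ⟨hxY, hx0, p, hp, hpY, hpM, hpd⟩ := hx
    have e1 : c + M * x = g * (c₁ + M₁ * x) := by
      rw [hc1, hM1]
      ring
    have hpg : ¬ p ∣ g := fun h => hpM (hMg ▸ h.mul_right _)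
    have hpM1 : ¬ p ∣ M₁ := fun h => hpM (hMg ▸ h.mul_left _)
    have e2 : IsCoprime ((p : ℤ) ^ 2) (g : ℤ) := by
      apply IsCoprime.pow_left
      exact Nat.isCoprime_iff_coprime.2 ((Nat.Prime.coprime_iff_not_dvd hp).2 hpg)
    rw [e1] at hpd
    obtain ⟨m, hm⟩ := e2.dvd_of_dvd_mul_left hpd
    have hm0 : m ≠ 0 := by
      rintro rfl
      apply hx0
      rw [e1, hm]
      ring
    have hm1 : 1 ≤ m.natAbs := Int.natAbs_pos.2 hm0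
    have hsize : g * p ^ 2 * m.natAbs ≤ (A + 1) * M * Y := by
      have a1 : (c + M * x).natAbs = g * p ^ 2 * m.natAbs := by
        rw [e1, hm, Int.natAbs_mul, Int.natAbs_mul, Int.natAbs_pow, Int.natAbs_natCast,
          Int.natAbs_natCast]
        ring
      rw [← a1]
      have a2 : |c + M * x| ≤ (((A + 1) * M * Y : ℕ) : ℤ) := by
        refine (abs_add_le _ _).trans ?_
        have a3 : |(M : ℤ) * x| ≤ M * Y := by
          rw [abs_of_nonneg (by positivity)]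
          exact mul_le_mul_of_nonneg_left (by exact_mod_cast hxY.le) (by positivity)
        push_cast
        linarith
      rw [Int.abs_eq_natAbs] at a2
      exact_mod_cast a2
    refine ⟨m, p, fun _ => ⟨hm0, ?_, ?_, ?_, hm⟩⟩
    · -- the size of `m`
      rw [hL, Nat.le_div_iff_mul_le (Nat.mul_pos hg hY)]
      have a1 : Y * Y ≤ (k * p) ^ 2 := by
        rw [sq]
        exact Nat.mul_le_mul hpY.le hpY.le
      have a2 : m.natAbs * (g * Y) * Y ≤ k ^ 2 * (A + 1) * M * Y := by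
        calc m.natAbs * (g * Y) * Y = (m.natAbs * g) * (Y * Y) := by ring
          _ ≤ (m.natAbs * g) * (k * p) ^ 2 := Nat.mul_le_mul_left _ a1
          _ = k ^ 2 * (g * p ^ 2 * m.natAbs) := by ring
          _ ≤ k ^ 2 * ((A + 1) * M * Y) := Nat.mul_le_mul_left _ hsize
          _ = _ := by ring
      exact Nat.le_of_mul_le_mul_right a2 hY
    · rw [hR, Nat.le_sqrt']
      refine le_trans ?_ hsize
      calc p ^ 2 = 1 * p ^ 2 * 1 := by ring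
        _ ≤ g * p ^ 2 * m.natAbs := Nat.mul_le_mul (Nat.mul_le_mul_right _ hg) hm1
    · exact Nat.isCoprime_iff_coprime.2 ((Nat.Prime.coprime_iff_not_dvd hp).2 hpM1)
  choose fm fp hf using key
  obtain ⟨P, hP⟩ : ∃ P : ℤ → Finset ℕ, P = fun m => (Finset.range (R + 1)).filter fun p : ℕ =>
    IsCoprime (p : ℤ) M₁ ∧ (M₁ : ℤ) ∣ (p : ℤ) ^ 2 * m - c₁ := ⟨_, rfl⟩
  have hPc : ∀ m, (P m).card ≤ 2 ^ (M.primeFactors.card + 1) * (R / M₁ + 1) := by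
    intro m
    rw [hP]
    refine (roots h2 M₁ R hM₁p c₁ m hcop).trans (Nat.mul_le_mul_right _ ?_)
    refine Nat.pow_le_pow_right (by norm_num) (Nat.add_le_add_right (Finset.card_le_card ?_) 1)
    exact Nat.primeFactors_mono ⟨g, by rw [hMg, mul_comm]⟩ hM.ne'
  have h3 : S.card ≤ (((Finset.Icc (-(L : ℤ)) L).erase 0).sigma P).card := by
    refine Finset.card_le_card_of_injOn (fun x => (⟨fm x, fp x⟩ : Σ _ : ℤ, ℕ)) (fun x hx => ?_) ?_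
    · obtain ⟨q1, q2, q3, q4, q5⟩ := hf x hx
      rw [Finset.mem_coe, Finset.mem_sigma, Finset.mem_erase, Finset.mem_Icc, hP]
      refine ⟨⟨q1, ?_⟩, Finset.mem_filter.2 ⟨Finset.mem_range.2 (Nat.lt_succ_of_le q3), q4, ?_⟩⟩
      · have q6 : |fm x| ≤ (L : ℤ) := by
          rw [Int.abs_eq_natAbs]
          exact_mod_cast q2
        exact abs_le.1 q6
      · show (M₁ : ℤ) ∣ (fp x : ℤ) ^ 2 * fm x - c₁
        rw [← q5]
        exact ⟨x, by ring⟩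
    · intro x hx x' hx' hxx
      have a1 : fm x = fm x' := congrArg Sigma.fst hxx
      have a2 : fp x = fp x' := congrArg (fun z : (Σ _ : ℤ, ℕ) => z.2) hxx
      have a3 := (hf x hx).2.2.2.2
      have a4 := (hf x' hx').2.2.2.2
      rw [a1, a2, ← a4] at a3
      have a5 : (M₁ : ℤ) * x = M₁ * x' := by linarith
      have a6 := mul_left_cancel₀ hM₁'.ne' a5
      exact_mod_cast a6
  refine h3.trans ?_
  rw [Finset.card_sigma]
  refine (Finset.sum_le_card_nsmul _ _ _ fun m _ => hPc m).trans ?_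
  rw [smul_eq_mul]
  refine Nat.mul_le_mul_right _ ?_
  rw [Finset.card_erase_of_mem (Finset.mem_Icc.2 ⟨by simp, by simp⟩), Int.card_Icc]
  omega

/-- the numerical estimate -/
theorem est (k A M Y g M₁ : ℕ) (ε C : ℝ) (hε : 0 < ε) (hC : 0 < C) (hM : 0 < M) (hY : 0 < Y)
    (hg : 0 < g) (hMg : M = g * M₁) (hw : (2 : ℝ) ^ (M.primeFactors.card) ≤ C * (M : ℝ) ^ ε)
    (hMY : (M : ℝ) ^ (1 / 2 + ε) ≤ Y) :
    ((2 * (k ^ 2 * (A + 1) * M / (g * Y)) *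
      (2 ^ (M.primeFactors.card + 1) * (Nat.sqrt ((A + 1) * M * Y) / M₁ + 1)) : ℕ) : ℝ) ≤
      4 * k ^ 2 * (A + 1) ^ 2 * C *
        ((Y : ℝ) ^ (1 / 2 : ℝ) + (Y : ℝ) ^ (1 - ε / (1 / 2 + ε))) := by
  have hMr : (0 : ℝ) < M := by exact_mod_cast hM
  have hYr : (0 : ℝ) < Y := by exact_mod_cast hY
  have hgr : (0 : ℝ) < g := by exact_mod_cast hg
  have hg1 : (1 : ℝ) ≤ g := by exact_mod_cast hg
  have hM₁ : 0 < M₁ := by
    rcases Nat.eq_zero_or_pos M₁ with h | h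
    · rw [h, mul_zero] at hMg
      omega
    · exact h
  have hM₁r : (0 : ℝ) < M₁ := by exact_mod_cast hM₁
  have hMgr : (M : ℝ) = g * M₁ := by exact_mod_cast hMg
  obtain ⟨R, hR⟩ : ∃ R, R = Nat.sqrt ((A + 1) * M * Y) := ⟨_, rfl⟩
  obtain ⟨w, hwd⟩ : ∃ w, w = M.primeFactors.card := ⟨_, rfl⟩
  rw [← hR, ← hwd]
  rw [← hwd] at hw
  have hη : (0 : ℝ) < 1 / 2 + ε := by positivity
  -- the bounds of the two factors
  have a1 : (((k ^ 2 * (A + 1) * M / (g * Y) : ℕ) : ℕ) : ℝ) ≤ k ^ 2 * (A + 1) * M / (g * Y) := by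
    refine Nat.cast_div_le.trans (le_of_eq ?_)
    push_cast
    rfl
  have a2 : (((R / M₁ : ℕ) : ℕ) : ℝ) + 1 ≤ (R * g + M) / M := by
    have b1 : (((R / M₁ : ℕ) : ℕ) : ℝ) ≤ R / M₁ := Nat.cast_div_le
    have b2 : (R : ℝ) / M₁ = R * g / M := by
      rw [hMgr]
      field_simp
    rw [add_div, div_self hMr.ne', ← b2]
    linarith
  have a3 : (R : ℝ) ≤ (A + 1) * ((M : ℝ) ^ (1 / 2 : ℝ) * (Y : ℝ) ^ (1 / 2 : ℝ)) := by
    have b1 : (R : ℝ) ≤ Real.sqrt (((A + 1) * M * Y : ℕ) : ℝ) := by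
      rw [hR]
      exact Real.nat_sqrt_le_real_sqrt
    refine b1.trans ?_
    rw [Real.sqrt_le_left (by positivity)]
    have b2 : ((M : ℝ) ^ (1 / 2 : ℝ)) ^ 2 = M := by
      rw [← Real.rpow_natCast, ← Real.rpow_mul hMr.le]
      norm_num
    have b3 : ((Y : ℝ) ^ (1 / 2 : ℝ)) ^ 2 = Y := by
      rw [← Real.rpow_natCast, ← Real.rpow_mul hYr.le]
      norm_num
    rw [mul_pow, mul_pow, b2, b3]
    push_cast
    have b4 : (A : ℝ) + 1 ≤ (A + 1) ^ 2 := by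
      have : (0 : ℝ) ≤ A := Nat.cast_nonneg A
      nlinarith
    have b5 : (0 : ℝ) ≤ M * Y := by positivity
    nlinarith [mul_le_mul_of_nonneg_right b4 b5]
  -- powers
  have c1 : (M : ℝ) ^ ε * R ≤ (A + 1) * (Y * (Y : ℝ) ^ (1 / 2 : ℝ)) := by
    calc (M : ℝ) ^ ε * R ≤ (M : ℝ) ^ ε *
          ((A + 1) * ((M : ℝ) ^ (1 / 2 : ℝ) * (Y : ℝ) ^ (1 / 2 : ℝ))) :=
          mul_le_mul_of_nonneg_left a3 (Real.rpow_nonneg hMr.le _)
      _ = (A + 1) * ((M : ℝ) ^ (1 / 2 + ε) * (Y : ℝ) ^ (1 / 2 : ℝ)) := by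
          rw [Real.rpow_add hMr]
          ring
      _ ≤ _ := by
          refine mul_le_mul_of_nonneg_left ?_ (by positivity)
          exact mul_le_mul_of_nonneg_right hMY (Real.rpow_nonneg hYr.le _)
  have c2 : (M : ℝ) ^ ε * M ≤ Y * (Y : ℝ) ^ (1 - ε / (1 / 2 + ε)) := by
    have b1 : (M : ℝ) ^ ε * M = ((M : ℝ) ^ (1 / 2 + ε)) ^ ((1 + ε) / (1 / 2 + ε)) := by
      rw [← Real.rpow_mul hMr.le, mul_div_cancel₀ _ hη.ne', Real.rpow_add hMr, Real.rpow_one]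
      ring
    have b2 : (Y : ℝ) * (Y : ℝ) ^ (1 - ε / (1 / 2 + ε)) = (Y : ℝ) ^ ((1 + ε) / (1 / 2 + ε)) := by
      nth_rewrite 1 [← Real.rpow_one (Y : ℝ)]
      rw [← Real.rpow_add hYr]
      congr 1
      field_simp
      ring
    rw [b1, b2]
    exact Real.rpow_le_rpow (Real.rpow_nonneg hMr.le _) hMY (by positivity)
  have c3 : (M : ℝ) ^ ε * (R * g + M) ≤ g * ((A + 1) * (Y * ((Y : ℝ) ^ (1 / 2 : ℝ) +
      (Y : ℝ) ^ (1 - ε / (1 / 2 + ε))))) := by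
    have b1 := mul_le_mul_of_nonneg_left c1 hgr.le
    have b2 : (0 : ℝ) ≤ (M : ℝ) ^ ε * M := by positivity
    have b3 : (M : ℝ) ^ ε * M ≤ g * ((A + 1) * ((M : ℝ) ^ ε * M)) := by
      have b4 : (1 : ℝ) ≤ g * (A + 1) := by
        have : (0 : ℝ) ≤ A := Nat.cast_nonneg A
        nlinarith
      nlinarith
    have b5 : (g : ℝ) * ((A + 1) * ((M : ℝ) ^ ε * M)) ≤
        g * ((A + 1) * (Y * (Y : ℝ) ^ (1 - ε / (1 / 2 + ε)))) := by
      gcongr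
    nlinarith
  push_cast
  calc (2 : ℝ) * ((k ^ 2 * (A + 1) * M / (g * Y) : ℕ) : ℝ) * (2 ^ (w + 1) * (((R / M₁ : ℕ) : ℝ) + 1))
      = 4 * (2 : ℝ) ^ w * (((k ^ 2 * (A + 1) * M / (g * Y) : ℕ) : ℝ) *
          (((R / M₁ : ℕ) : ℝ) + 1)) := by ring
    _ ≤ 4 * (C * (M : ℝ) ^ ε) * ((k ^ 2 * (A + 1) * M / (g * Y)) * ((R * g + M) / M)) := by
        gcongr
    _ = 4 * C * k ^ 2 * (A + 1) * ((M : ℝ) ^ ε * (R * g + M)) / (g * Y) := by
        field_simp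
    _ ≤ 4 * C * k ^ 2 * (A + 1) * (g * ((A + 1) * (Y * ((Y : ℝ) ^ (1 / 2 : ℝ) +
      (Y : ℝ) ^ (1 - ε / (1 / 2 + ε)))))) / (g * Y) := by
        gcongr
    _ = _ := by
        field_simp

end PRA

open PRA in
theorem t_PRA (h1 : S_OM) (h2 : S_SQR) : S_PRA := by
  classical
  intro ε A hε
  obtain ⟨C, hC, hOM⟩ := h1 2 ε hε
  obtain ⟨k, hk⟩ : ∃ k : ℕ, k = 1000 := ⟨_, rfl⟩
  have hη : (0 : ℝ) < ε / (1 / 2 + ε) := by positivity
  obtain ⟨K, hK⟩ : ∃ K : ℝ, K = 4 * k ^ 2 * (A + 1) ^ 2 * C := ⟨_, rfl⟩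
  have hk0 : (0 : ℝ) < k := by
    rw [hk]
    norm_num
  have hK0 : 0 < K := by
    rw [hK]
    positivity
  have t1 : Filter.Tendsto (fun Y : ℕ => ((Y : ℝ)) ^ (-(1 / 2 : ℝ))) Filter.atTop (nhds 0) :=
    (tendsto_rpow_neg_atTop (by norm_num)).comp tendsto_natCast_atTop_atTop
  have t2 : Filter.Tendsto (fun Y : ℕ => ((Y : ℝ)) ^ (-(ε / (1 / 2 + ε)))) Filter.atTop (nhds 0) :=
    (tendsto_rpow_neg_atTop hη).comp tendsto_natCast_atTop_atTop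
  have hx : (0 : ℝ) < 1 / (200 * K) := by positivity
  obtain ⟨Y₀, hY₀⟩ := Filter.eventually_atTop.1 (((t1.eventually (gt_mem_nhds hx)).and
    (t2.eventually (gt_mem_nhds hx))).and (Filter.eventually_ge_atTop 1))
  refine ⟨Y₀, fun M Y c hY hM hMY hc => ?_⟩
  obtain ⟨⟨y1, y2⟩, y3⟩ := hY₀ Y hY
  have hY0 : 0 < Y := y3
  have hYr : (0 : ℝ) < Y := by exact_mod_cast hY0
  obtain ⟨T, hT⟩ : ∃ T, T = Y / k := ⟨_, rfl⟩
  have hkp : 0 < k := by omega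
  have s1 := small k M Y T hkp c (by rw [hT]; exact Nat.mul_div_le Y k)
  obtain ⟨g, M₁, hg, hMg, s2⟩ := large h2 k A M Y c hM hY0 hc
  have s3 := est k A M Y g M₁ ε C hε hC hM hY0 hg hMg (by exact_mod_cast hOM M hM) hMY
  rw [← hK] at s3
  have hsub : ((Finset.range Y).filter fun x : ℕ => c + M * x ≠ 0 ∧
      ∃ p : ℕ, p.Prime ∧ 1000 < p ∧ ¬ p ∣ M ∧ (p : ℤ) ^ 2 ∣ c + M * x) ⊆
      ((Finset.range Y).filter fun x : ℕ => ∃ p : ℕ, p.Prime ∧ k < p ∧ p ≤ T ∧ ¬ p ∣ M ∧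
        (p : ℤ) ^ 2 ∣ c + M * x) ∪
      ((Finset.range Y).filter fun x : ℕ => c + M * x ≠ 0 ∧ ∃ p : ℕ, p.Prime ∧ Y < k * p ∧
        ¬ p ∣ M ∧ (p : ℤ) ^ 2 ∣ c + M * x) := by
    intro x hx
    rw [Finset.mem_filter] at hx
    obtain ⟨hx, hx0, p, hp, h1, h3, h4⟩ := hx
    rw [Finset.mem_union, Finset.mem_filter, Finset.mem_filter]
    rw [← hk] at h1
    by_cases h5 : p ≤ T
    · exact Or.inl ⟨hx, p, hp, h1, h5, h3, h4⟩
    · refine Or.inr ⟨hx, hx0, p, hp, ?_, h3, h4⟩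
      rw [hT, not_le, Nat.div_lt_iff_lt_mul hkp] at h5
      rw [mul_comm]
      exact h5
  have s4 := (Finset.card_le_card hsub).trans (Finset.card_union_le _ _)
  have s5 : K * ((Y : ℝ) ^ (1 / 2 : ℝ) + (Y : ℝ) ^ (1 - ε / (1 / 2 + ε))) ≤ Y / 100 := by
    have e1 : (Y : ℝ) ^ (1 / 2 : ℝ) = Y * (Y : ℝ) ^ (-(1 / 2 : ℝ)) := by
      nth_rewrite 2 [← Real.rpow_one (Y : ℝ)]
      rw [← Real.rpow_add hYr]
      norm_num
    have e2 : (Y : ℝ) ^ (1 - ε / (1 / 2 + ε)) = Y * (Y : ℝ) ^ (-(ε / (1 / 2 + ε))) := by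
      nth_rewrite 2 [← Real.rpow_one (Y : ℝ)]
      rw [← Real.rpow_add hYr]
      congr 1
    rw [e1, e2, ← mul_add]
    have e3 : K * ((Y : ℝ) * ((Y : ℝ) ^ (-(1 / 2 : ℝ)) + (Y : ℝ) ^ (-(ε / (1 / 2 + ε))))) ≤
        K * ((Y : ℝ) * (1 / (200 * K) + 1 / (200 * K))) := by
      gcongr
    refine e3.trans (le_of_eq ?_)
    field_simp
    ring
  have s6 : (((Finset.range Y).filter fun x : ℕ => c + M * x ≠ 0 ∧ ∃ p : ℕ, p.Prime ∧ Y < k * p ∧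
      ¬ p ∣ M ∧ (p : ℤ) ^ 2 ∣ c + M * x).card : ℝ) ≤ Y / 100 :=
    le_trans (by exact_mod_cast s2) (s3.trans s5)
  have s7 : 100 * ((Finset.range Y).filter fun x : ℕ => c + M * x ≠ 0 ∧ ∃ p : ℕ, p.Prime ∧
      Y < k * p ∧ ¬ p ∣ M ∧ (p : ℤ) ^ 2 ∣ c + M * x).card ≤ Y := by
    have : (100 : ℝ) * (((Finset.range Y).filter fun x : ℕ => c + M * x ≠ 0 ∧ ∃ p : ℕ, p.Prime ∧
      Y < k * p ∧ ¬ p ∣ M ∧ (p : ℤ) ^ 2 ∣ c + M * x).card : ℝ) ≤ Y := by linarith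
    exact_mod_cast this
  have s8 : ∀ a b e : ℕ, k * a ≤ 2 * Y → 100 * b ≤ Y → e ≤ a + b → 50 * e ≤ Y := by
    intro a b e h1 h2 h3
    rw [hk] at h1
    omega
  exact s8 _ _ _ s1 s7 (by convert s4)

end Pool.Agent.T2h88.GP
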