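import Pool.Agent.T2h88.GP.Stm

/-! REP -/

set_option autoImplicit false

namespace Pool.Agent.T2h88.GP

theorem cop_of_prime (a b : ℤ) (h : ∀ p : ℕ, p.Prime → (p : ℤ) ∣ a → (p : ℤ) ∣ b → False) : IsCoprime a b := by
  rw [Int.isCoprime_iff_nat_coprime]
  apply Nat.coprime_of_dvd
  intro p hp h1 h2
  exact h p hp (Int.natCast_dvd.2 h1) (Int.natCast_dvd.2 h2)

theorem rep_cop {h : ℕ} {X Y D : ℤ} {s : ℤ} (hs : s = 1 ∨ s = -1) (hsq : Squarefree h)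
    (hXY : X ^ 2 = Y ^ 2 + s * h * D ^ 2) (hcop : IsCoprime Y D) (h2 : (2 : ℤ) ∣ D) :
    IsCoprime X D ∧ IsCoprime X Y ∧ IsCoprime X 2 := by
  have hss : s * s = 1 := by rcases hs with h | h <;> rw [h] <;> norm_num
  have key1 : ∀ p : ℕ, p.Prime → (p : ℤ) ∣ X → (p : ℤ) ∣ D → False := by
    intro p hp h3 h4
    have hpp : Prime (p : ℤ) := Nat.prime_iff_prime_int.1 hp
    have h5 : (p : ℤ) ∣ Y ^ 2 := by
      have e : Y ^ 2 = X * X - s * h * D * D := by linear_combination -hXY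
      rw [e]
      exact dvd_sub (Dvd.dvd.mul_right h3 _) (Dvd.dvd.mul_left h4 _)
    have h6 : (p : ℤ) ∣ Y := hpp.dvd_of_dvd_pow h5
    exact hpp.not_unit (hcop.isUnit_of_dvd' h6 h4)
  have hXD : IsCoprime X D := cop_of_prime _ _ key1
  refine ⟨hXD, ?_, ?_⟩
  · apply cop_of_prime
    intro p hp h3 h4
    have hpp : Prime (p : ℤ) := Nat.prime_iff_prime_int.1 hp
    have hpD : ¬ (p : ℤ) ∣ D := fun h' => key1 p hp h3 h'
    have h5 : (p : ℤ) * p ∣ h * D ^ 2 := by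
      have e : (h : ℤ) * D ^ 2 = s * (X * X - Y * Y) := by
        have e1 : s * (X * X - Y * Y) = s * s * h * D ^ 2 := by linear_combination s * hXY
        rw [e1, hss, one_mul]
      rw [e]
      exact Dvd.dvd.mul_left (dvd_sub (mul_dvd_mul h3 h3) (mul_dvd_mul h4 h4)) _
    have h6 : IsCoprime ((p : ℤ) * p) (D ^ 2) := by
      have h7 : IsCoprime (p : ℤ) D := (hpp.coprime_iff_not_dvd).2 hpD
      exact (h7.pow_right).mul_left (h7.pow_right)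
    have h7 : (p : ℤ) * p ∣ h := h6.dvd_of_dvd_mul_right h5
    have h8 : p * p ∣ h := by exact_mod_cast h7
    have h9 := hsq p h8
    exact hp.one_lt.ne' (Nat.isUnit_iff.1 h9)
  · exact hXD.of_isCoprime_of_dvd_right h2

theorem rep_fin (h₀ m M : ℕ) (hsq : Squarefree h₀) (hm : 0 < m) (hM : 0 < M) (A B C D : ℤ) (hP : Pt h₀ A B C D)
    (hd : ((2 * m * M : ℕ) : ℤ) ∣ D) :
    ∃ j j' q : ℕ, j' ^ 4 = j ^ 4 + (m ^ 2 * h₀) * q ^ 2 ∧ 4 * M ∣ q ∧ 0 < q ∧ 0 < j ∧ 0 < j' ∧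
    Nat.Coprime j q ∧ Nat.Coprime j' q ∧ Nat.Coprime j j' := by
  obtain ⟨hA, hB, hcop, hnz, htwo⟩ := hP
  obtain ⟨E, hE⟩ := hd
  obtain ⟨hAD, hAC, hA2⟩ := rep_cop (X := A) (Y := C) (D := D) (s := -1) (Or.inr rfl) hsq
    (by rw [hA]; ring) hcop htwo
  obtain ⟨hBD, hBC, hB2⟩ := rep_cop (X := B) (Y := C) (D := D) (s := 1) (Or.inl rfl) hsq
    (by rw [hB]; ring) hcop htwo
  have hC2 : IsCoprime C 2 := hcop.of_isCoprime_of_dvd_right htwo
  have hne : ∀ x : ℤ, IsCoprime x 2 → x ≠ 0 := by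
    rintro x hx rfl
    have := isCoprime_zero_left.1 hx
    rw [Int.isUnit_iff] at this
    omega
  have hA0 := hne A hA2
  have hB0 := hne B hB2
  have hC0 := hne C hC2
  have hE0 : E ≠ 0 := by
    rintro rfl
    exact hnz (by rw [hE, mul_zero])
  have hM0 : (M : ℤ) ≠ 0 := by exact_mod_cast hM.ne'
  set Q : ℤ := 4 * M * (C * E) with hQ
  have hQ0 : Q ≠ 0 := mul_ne_zero (mul_ne_zero (by norm_num) hM0) (mul_ne_zero hC0 hE0)
  have hQd : Q ∣ 2 * (C * D) := by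
    refine ⟨m, ?_⟩
    rw [hQ, hE]
    push_cast
    ring
  have hcopQ : ∀ X : ℤ, IsCoprime X D → IsCoprime X C → IsCoprime X 2 → IsCoprime X Q := fun X h1 h2 h3 =>
    (h3.mul_right (h2.mul_right h1)).of_isCoprime_of_dvd_right hQd
  have hAB : IsCoprime A B := by
    apply cop_of_prime
    intro p hp h3 h4
    have hpp : Prime (p : ℤ) := Nat.prime_iff_prime_int.1 hp
    have h5 : (p : ℤ) ∣ 2 * C ^ 2 := by
      have e : 2 * C ^ 2 = A * A + B * B := by linear_combination -hA - hB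
      rw [e]
      exact dvd_add (Dvd.dvd.mul_right h3 _) (Dvd.dvd.mul_right h4 _)
    rcases hpp.dvd_or_dvd h5 with h6 | h6
    · exact hpp.not_unit (hA2.isUnit_of_dvd' h3 h6)
    · exact hpp.not_unit (hAC.isUnit_of_dvd' h3 (hpp.dvd_of_dvd_pow h6))
  refine ⟨A.natAbs, B.natAbs, Q.natAbs, ?_, ?_, Int.natAbs_pos.2 hQ0, Int.natAbs_pos.2 hA0,
    Int.natAbs_pos.2 hB0, Int.isCoprime_iff_nat_coprime.1 (hcopQ A hAD hAC hA2),
    Int.isCoprime_iff_nat_coprime.1 (hcopQ B hBD hBC hB2), Int.isCoprime_iff_nat_coprime.1 hAB⟩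
  · have h1 : ∀ x : ℤ, ((x.natAbs : ℕ) : ℤ) ^ 2 = x ^ 2 := fun x => by rw [Int.natCast_natAbs, sq_abs]
    have h2 : ∀ x : ℤ, ((x.natAbs : ℕ) : ℤ) ^ 4 = x ^ 4 := fun x => by
      calc ((x.natAbs : ℕ) : ℤ) ^ 4 = (((x.natAbs : ℕ) : ℤ) ^ 2) ^ 2 := by ring
        _ = x ^ 4 := by rw [h1]; ring
    zify
    rw [← Int.natCast_natAbs, ← Int.natCast_natAbs, ← Int.natCast_natAbs, h2, h2, h1, hQ]
    have e1 : B ^ 4 = (C ^ 2 + h₀ * D ^ 2) ^ 2 := by rw [← hB]; ring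
    have e2 : A ^ 4 = (C ^ 2 - h₀ * D ^ 2) ^ 2 := by rw [← hA]; ring
    rw [e1, e2, hE]
    push_cast
    ring
  · rw [← Int.natCast_dvd_natCast]
    rw [Int.natCast_natAbs, dvd_abs, hQ]
    push_cast
    exact Dvd.intro _ rfl

/-- REP. -/
theorem t_REP (h1 : S_INI) (h2 : S_DBL) (h3 : S_SUB) : S_REP := by
  intro h M hh hM hc
  obtain ⟨h₀, m, hmh, hsq⟩ := Nat.sq_mul_squarefree h
  have hm : 0 < m := by
    rcases Nat.eq_zero_or_pos m with h0 | h0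
    · rw [h0] at hmh
      simp at hmh
      omega
    · exact h0
  have hm' : (0 : ℚ) < m := by exact_mod_cast hm
  have hc0 : IsCongruent h₀ := by
    obtain ⟨a, b, c, ha, hb, hc, habc, harea⟩ := hc
    refine ⟨a / m, b / m, c / m, by positivity, by positivity, by positivity, ?_, ?_⟩
    · rw [div_pow, div_pow, div_pow, ← add_div, habc]
    · have h4 : (m : ℚ) ^ 2 * h₀ = a * b / 2 := by
        rw [← harea, ← hmh]
        push_cast
        ring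
      have h5 : (h₀ : ℚ) = (m : ℚ) ^ 2 * h₀ / (m : ℚ) ^ 2 := by field_simp
      rw [h5, h4]
      field_simp
  obtain ⟨A₀, B₀, C₀, D₀, hP₀⟩ := h1 h₀ hsq hc0
  have hseq : ∀ i : ℕ, ∃ v : ℤ × ℤ × ℤ × ℤ, Pt h₀ v.1 v.2.1 v.2.2.1 v.2.2.2 ∧
      padicValInt 2 v.2.2.2 = padicValInt 2 D₀ + i := by
    intro i
    induction i with
    | zero => exact ⟨(A₀, B₀, C₀, D₀), hP₀, rfl⟩
    | succ i ih =>
      obtain ⟨v, hv, hv2⟩ := ih
      obtain ⟨A', B', C', D', hP', hD'⟩ := h2 h₀ _ _ _ _ hv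
      exact ⟨(A', B', C', D'), hP', by
        show padicValInt 2 D' = _
        rw [hD', hv2]
        ring⟩
  choose v hv hv2 using hseq
  have hM' : 0 < 2 * m * M := by positivity
  haveI : NeZero (2 * m * M) := ⟨hM'.ne'⟩
  obtain ⟨x, y, hxy, hf⟩ := Finite.exists_ne_map_eq_of_infinite
    (fun i : ℕ => (((v i).1 : ZMod (2 * m * M)), ((v i).2.1 : ZMod (2 * m * M)),
      ((v i).2.2.1 : ZMod (2 * m * M)), ((v i).2.2.2 : ZMod (2 * m * M))))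
  simp only [Prod.mk.injEq] at hf
  obtain ⟨e1, e2, e3, e4⟩ := hf
  rw [ZMod.intCast_eq_intCast_iff] at e1 e2 e3 e4
  obtain ⟨A, B, C, D, hP, hd⟩ := h3 h₀ (2 * m * M) _ _ _ _ _ _ _ _ hsq hM' (hv x) (hv y)
    (by rw [hv2, hv2]; omega) e1 e2 e3 e4
  obtain ⟨j, j', q, hjq⟩ := rep_fin h₀ m M hsq hm hM A B C D hP hd
  rw [hmh] at hjq
  exact ⟨j, j', q, hjq⟩

end Pool.Agent.T2h88.GP
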