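import Pool.Agent.T2h88.GP.Stm

set_option autoImplicit false

namespace Pool.Agent.T2h88.GP

namespace SIV

/-- a prime not dividing `2 j` whose square divides `s ^ 4 - j ^ 4` -/
theorem three {s j : ℤ} {p : ℕ} (hp : p.Prime) (hpj : ¬ (p : ℤ) ∣ 2 * j)
    (h : (p : ℤ) ^ 2 ∣ s ^ 4 - j ^ 4) :
    (p : ℤ) ^ 2 ∣ s - j ∨ (p : ℤ) ^ 2 ∣ s + j ∨ (p : ℤ) ^ 2 ∣ s ^ 2 + j ^ 2 := by
  have hpI : Prime (p : ℤ) := Nat.prime_iff_prime_int.1 hp
  have hj : ¬ (p : ℤ) ∣ j := fun h1 => hpj (h1.mul_left 2)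
  have hj2 : ¬ (p : ℤ) ∣ 2 * j ^ 2 := by
    intro h1
    have h2 : (p : ℤ) ∣ (2 * j) * j := by
      have e : (2 * j) * j = 2 * j ^ 2 := by ring
      rwa [e]
    exact (hpI.dvd_or_dvd h2).elim hpj hj
  have e1 : s ^ 4 - j ^ 4 = (s - j) * ((s + j) * (s ^ 2 + j ^ 2)) := by ring
  rw [e1] at h
  have hcop : ∀ x : ℤ, ¬ (p : ℤ) ∣ x → IsCoprime ((p : ℤ) ^ 2) x := fun x hx =>
    IsCoprime.pow_left (hpI.coprime_iff_not_dvd.2 hx)
  by_cases h1 : (p : ℤ) ∣ s - j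
  · left
    have h2 : ¬ (p : ℤ) ∣ (s + j) * (s ^ 2 + j ^ 2) := by
      intro h3
      rcases hpI.dvd_or_dvd h3 with h4 | h4
      · apply hpj
        have e2 : 2 * j = (s + j) - (s - j) := by ring
        rw [e2]
        exact dvd_sub h4 h1
      · apply hj2
        have e2 : 2 * j ^ 2 = (s ^ 2 + j ^ 2) - (s - j) * (s + j) := by ring
        rw [e2]
        exact dvd_sub h4 (h1.mul_right _)
    exact (hcop _ h2).dvd_of_dvd_mul_right h
  · right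
    have h2 := (hcop _ h1).dvd_of_dvd_mul_left h
    by_cases h3 : (p : ℤ) ∣ s + j
    · left
      have h4 : ¬ (p : ℤ) ∣ s ^ 2 + j ^ 2 := by
        intro h5
        apply hj2
        have e2 : 2 * j ^ 2 = (s ^ 2 + j ^ 2) - (s + j) * (s - j) := by ring
        rw [e2]
        exact dvd_sub h5 (h3.mul_right _)
      exact (hcop _ h4).dvd_of_dvd_mul_right h2
    · right
      exact (hcop _ h3).dvd_of_dvd_mul_left h2

end SIV

theorem t_SIV (hB : S_BIG) (hC : S_CNT) : S_SIV := by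
  intro j N s₀ P hj hN hP hjP hNP
  obtain ⟨C, hC1⟩ := hB j hj
  refine ⟨4 * (400 * N) ^ 2 + 200 * N * P + j + 400 * N * (C * (400 * N) ^ 2), fun S hS => ?_⟩
  have hN2 : 400 * N ≤ (400 * N) ^ 2 := by
    rw [sq]
    exact Nat.le_mul_of_pos_left _ (by omega)
  have hSK : 4 * (400 * N) ^ 2 ≤ S := by
    have := Nat.zero_le (200 * N * P)
    have := Nat.zero_le (400 * N * (C * (400 * N) ^ 2))
    omega
  have hSP : 200 * N * P ≤ S := by
    have := Nat.zero_le (4 * (400 * N) ^ 2)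
    have := Nat.zero_le (400 * N * (C * (400 * N) ^ 2))
    omega
  have hSj : j ≤ S := by
    have := Nat.zero_le (4 * (400 * N) ^ 2)
    have := Nat.zero_le (400 * N * (C * (400 * N) ^ 2))
    have := Nat.zero_le (200 * N * P)
    omega
  have hSC : 400 * N * (C * (400 * N) ^ 2) ≤ S := by
    have := Nat.zero_le (4 * (400 * N) ^ 2)
    have := Nat.zero_le (200 * N * P)
    omega
  have hSN : 400 * N ≤ S := by omega
  have hS0 : 0 < S := by omega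
  set y := S / (200 * N) with hy
  have hyS : 200 * N * y ≤ S := Nat.mul_div_le S (200 * N)
  have hyP : P ≤ y := by
    rw [hy, Nat.le_div_iff_mul_le (by omega)]
    rw [mul_comm]
    exact hSP
  have hyK : S ≤ 400 * N * y := by
    have h1 : S < 200 * N * (y + 1) := Nat.lt_mul_div_succ S (by omega)
    have h2 : 200 * N * (y + 1) = 200 * N * y + 200 * N := by ring
    have h3 : 400 * N * y = 2 * (200 * N * y) := by ring
    omega
  have hy0 : 0 < y := by omega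
  have hy2 : 3 * S + j ≤ y ^ 2 := by
    have h1 : S * S ≤ (400 * N) ^ 2 * y ^ 2 := by
      have := Nat.mul_le_mul hyK hyK
      calc S * S ≤ (400 * N * y) * (400 * N * y) := this
        _ = (400 * N) ^ 2 * y ^ 2 := by ring
    have h2 : (400 * N) ^ 2 * (4 * S) ≤ (400 * N) ^ 2 * y ^ 2 := by
      calc (400 * N) ^ 2 * (4 * S) = (4 * (400 * N) ^ 2) * S := by ring
        _ ≤ S * S := Nat.mul_le_mul_right _ hSK
        _ ≤ _ := h1
    have h3 : 4 * S ≤ y ^ 2 := Nat.le_of_mul_le_mul_left h2 (by positivity)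
    omega
  let B : Set ℕ := {s : ℕ | S < s ∧ s ≤ 2 * S ∧ ∃ p : ℕ, y < p ∧ p ^ 2 ∣ s ^ 2 + j ^ 2}
  let T : ℕ → Set ℕ := fun p => {s : ℕ | S < s ∧ s ≤ 2 * S ∧ s ≡ s₀ [MOD N] ∧
    s ^ 4 ≡ j ^ 4 [MOD p ^ 2]}
  have hBfin : B.Finite := (Set.finite_Iic (2 * S)).subset fun s hs => hs.2.1
  have hTfin : ∀ p, (T p).Finite := fun p => (Set.finite_Iic (2 * S)).subset fun s hs => hs.2.1
  let F : Finset ℕ := (Finset.Ioc P y).filter Nat.Prime
  have hsub : {s : ℕ | S < s ∧ s ≤ 2 * S ∧ s ≡ s₀ [MOD N] ∧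
      ∃ p : ℕ, p.Prime ∧ P < p ∧ s ^ 4 ≡ j ^ 4 [MOD p ^ 2]} ⊆ (⋃ p ∈ F, T p) ∪ B := by
    rintro s ⟨h1, h2, h3, p, hp, hPp, h4⟩
    by_cases hpy : p ≤ y
    · left
      refine Set.mem_biUnion (x := p) ?_ ⟨h1, h2, h3, h4⟩
      exact Finset.mem_filter.2 ⟨Finset.mem_Ioc.2 ⟨hPp, hpy⟩, hp⟩
    · right
      rw [not_le] at hpy
      refine ⟨h1, h2, p, hpy, ?_⟩
      have h5 : (p : ℤ) ^ 2 ∣ (s : ℤ) ^ 4 - (j : ℤ) ^ 4 := by
        have h6 := (Nat.modEq_iff_dvd.1 h4.symm)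
        push_cast at h6
        exact h6
      have hpj : ¬ (p : ℤ) ∣ 2 * (j : ℤ) := by
        intro h6
        have h7 : p ∣ 2 * j := by
          apply Int.natCast_dvd_natCast.1
          push_cast
          exact h6
        have h8 := Nat.le_of_dvd (by omega) h7
        omega
      have hp2 : 3 * S + j < p ^ 2 := by
        have : y ^ 2 < p ^ 2 := Nat.pow_lt_pow_left hpy (by norm_num)
        omega
      have hp2' : (3 * S + j : ℤ) < (p : ℤ) ^ 2 := by exact_mod_cast hp2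
      rcases SIV.three hp hpj h5 with h6 | h6 | h6
      · exfalso
        have h7 := Int.le_of_dvd (by omega) h6
        omega
      · exfalso
        have h7 := Int.le_of_dvd (by omega) h6
        omega
      · exact_mod_cast h6
  have hcB : B.ncard ≤ C * (400 * N) ^ 2 := by
    have h1 : B.ncard * y ^ 2 ≤ C * S ^ 2 := hC1 S y hS0 hy0
    have h2 : S ^ 2 ≤ (400 * N) ^ 2 * y ^ 2 := by
      rw [← mul_pow]
      exact Nat.pow_le_pow_left hyK 2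
    have h3 : B.ncard * y ^ 2 ≤ (C * (400 * N) ^ 2) * y ^ 2 := by
      calc B.ncard * y ^ 2 ≤ C * S ^ 2 := h1
        _ ≤ C * ((400 * N) ^ 2 * y ^ 2) := Nat.mul_le_mul_left _ h2
        _ = _ := by ring
    exact Nat.le_of_mul_le_mul_right h3 (by positivity)
  have hcT : ∀ p ∈ F, (T p).ncard ≤ 4 * (S / (N * p ^ 2) + 1) := by
    intro p hp
    rw [Finset.mem_filter, Finset.mem_Ioc] at hp
    refine hC j N s₀ p S hj hN hp.2 (fun h => ?_) (fun h => ?_)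
    · have := hNP p hp.2 h
      omega
    · have := Nat.le_of_dvd (by omega) h
      omega
  have hcount : {s : ℕ | S < s ∧ s ≤ 2 * S ∧ s ≡ s₀ [MOD N] ∧
      ∃ p : ℕ, p.Prime ∧ P < p ∧ s ^ 4 ≡ j ^ 4 [MOD p ^ 2]}.ncard ≤
      ∑ p ∈ Finset.Ioc P y, 4 * (S / (N * p ^ 2) + 1) + C * (400 * N) ^ 2 := by
    calc _ ≤ ((⋃ p ∈ F, T p) ∪ B).ncard := by
          refine Set.ncard_le_ncard hsub (Set.Finite.union ?_ hBfin)
          exact Set.Finite.biUnion F.finite_toSet fun p _ => hTfin p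
      _ ≤ (⋃ p ∈ F, T p).ncard + B.ncard := Set.ncard_union_le _ _
      _ ≤ ∑ p ∈ F, (T p).ncard + B.ncard :=
          Nat.add_le_add_right (Finset.set_ncard_biUnion_le F T) _
      _ ≤ ∑ p ∈ F, 4 * (S / (N * p ^ 2) + 1) + C * (400 * N) ^ 2 :=
          Nat.add_le_add (Finset.sum_le_sum hcT) hcB
      _ ≤ _ := Nat.add_le_add_right
          (Finset.sum_le_sum_of_subset (Finset.filter_subset _ _)) _
  have hNr : (0 : ℝ) < N := by exact_mod_cast hN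
  have hPr : (20 : ℝ) ≤ P := by exact_mod_cast hP
  have hSr : (0 : ℝ) < S := by exact_mod_cast hS0
  have hsum : ((∑ p ∈ Finset.Ioc P y, 4 * (S / (N * p ^ 2) + 1) : ℕ) : ℝ) ≤
      4 * (S / N * (P : ℝ)⁻¹) + 4 * y := by
    push_cast
    have h1 : ∀ p ∈ Finset.Ioc P y, (4 * (((S / (N * p ^ 2) : ℕ) : ℝ) + 1)) ≤
        4 * (S / N) * ((p : ℝ) ^ 2)⁻¹ + 4 := by
      intro p _
      have h2 : ((S / (N * p ^ 2) : ℕ) : ℝ) ≤ (S : ℝ) / ((N * p ^ 2 : ℕ) : ℝ) := Nat.cast_div_le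
      have h3 : (S : ℝ) / ((N * p ^ 2 : ℕ) : ℝ) = S / N * ((p : ℝ) ^ 2)⁻¹ := by
        push_cast
        rw [div_mul_eq_div_div, div_eq_mul_inv (S / N : ℝ)]
      rw [h3] at h2
      linarith
    refine (Finset.sum_le_sum h1).trans ?_
    rw [Finset.sum_add_distrib, ← Finset.mul_sum, Finset.sum_const, Nat.card_Ioc, nsmul_eq_mul]
    have h4 : ∑ i ∈ Finset.Ioc P y, ((i : ℝ) ^ 2)⁻¹ ≤ (P : ℝ)⁻¹ :=
      (sum_Ioc_inv_sq_le_sub (by omega) hyP).trans (sub_le_self _ (by positivity))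
    have h5 : (((y - P : ℕ) : ℝ)) * 4 ≤ 4 * y := by
      have : ((y - P : ℕ) : ℝ) ≤ y := by exact_mod_cast Nat.sub_le y P
      linarith
    have h6 : 4 * (S / N : ℝ) * ∑ i ∈ Finset.Ioc P y, ((i : ℝ) ^ 2)⁻¹ ≤
        4 * (S / N : ℝ) * (P : ℝ)⁻¹ := mul_le_mul_of_nonneg_left h4 (by positivity)
    linarith
  have hfin : (4 * N * {s : ℕ | S < s ∧ s ≤ 2 * S ∧ s ≡ s₀ [MOD N] ∧
      ∃ p : ℕ, p.Prime ∧ P < p ∧ s ^ 4 ≡ j ^ 4 [MOD p ^ 2]}.ncard : ℝ) ≤ S := by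
    have h1 : (({s : ℕ | S < s ∧ s ≤ 2 * S ∧ s ≡ s₀ [MOD N] ∧
      ∃ p : ℕ, p.Prime ∧ P < p ∧ s ^ 4 ≡ j ^ 4 [MOD p ^ 2]}.ncard : ℕ) : ℝ) ≤
        4 * (S / N * (P : ℝ)⁻¹) + 4 * y + C * (400 * N) ^ 2 := by
      have h2 : (({s : ℕ | S < s ∧ s ≤ 2 * S ∧ s ≡ s₀ [MOD N] ∧
        ∃ p : ℕ, p.Prime ∧ P < p ∧ s ^ 4 ≡ j ^ 4 [MOD p ^ 2]}.ncard : ℕ) : ℝ) ≤
        ((∑ p ∈ Finset.Ioc P y, 4 * (S / (N * p ^ 2) + 1) + C * (400 * N) ^ 2 : ℕ) : ℝ) := by
        exact_mod_cast hcount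
      rw [Nat.cast_add] at h2
      have h3 : (((C * (400 * N) ^ 2 : ℕ)) : ℝ) = C * (400 * N) ^ 2 := by push_cast; ring
      rw [h3] at h2
      linarith
    have h4 : (4 * N : ℝ) * (4 * (S / N * (P : ℝ)⁻¹) + 4 * y + C * (400 * N) ^ 2) =
        16 * S * (P : ℝ)⁻¹ + 16 * N * y + 4 * N * (C * (400 * N) ^ 2) := by
      field_simp
      ring
    have h5 : (P : ℝ)⁻¹ ≤ 1 / 20 := by
      rw [inv_le_comm₀ (by linarith) (by norm_num)]
      linarith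
    have h6 : (200 * N * y : ℝ) ≤ S := by exact_mod_cast hyS
    have h7 : (400 * N * (C * (400 * N) ^ 2) : ℝ) ≤ S := by exact_mod_cast hSC
    have h8 : 16 * (S : ℝ) * (P : ℝ)⁻¹ ≤ 16 * S * (1 / 20) :=
      mul_le_mul_of_nonneg_left h5 (by positivity)
    calc _ ≤ (4 * N : ℝ) * (4 * (S / N * (P : ℝ)⁻¹) + 4 * y + C * (400 * N) ^ 2) :=
          mul_le_mul_of_nonneg_left h1 (by positivity)
      _ = _ := h4
      _ ≤ S := by linarith
  exact_mod_cast hfin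

end Pool.Agent.T2h88.GP
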