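import Pool.Agent.T2h88.GP.Stm2

/-!
# Project LN, task SQR (helper67): square roots modulo `m`
-/

set_option autoImplicit false

namespace Pool.Agent.T2h88.GP

namespace SQR

/-- the square roots of `c` modulo `m` -/
def rt (m c : ℕ) : Finset ℕ :=
  (Finset.range m).filter fun r => Nat.Coprime r m ∧ r ^ 2 ≡ c [MOD m]

theorem mem_rt {m c r : ℕ} : r ∈ rt m c ↔ r < m ∧ Nat.Coprime r m ∧ r ^ 2 ≡ c [MOD m] := by
  unfold rt
  rw [Finset.mem_filter, Finset.mem_range]

theorem mul_le {a b : ℕ} (c : ℕ) (ha : 0 < a) (hb : 0 < b) (hab : Nat.Coprime a b) :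
    (rt (a * b) c).card ≤ (rt a c).card * (rt b c).card := by
  rw [← Finset.card_product]
  refine Finset.card_le_card_of_injOn (fun r => (r % a, r % b)) ?_ ?_
  · intro r hr
    have hr' := mem_rt.1 hr
    obtain ⟨_, h2, h3⟩ := hr'
    have h4 : ∀ d, 0 < d → d ∣ a * b → r % d ∈ rt d c := by
      intro d hd hdv
      refine mem_rt.2 ⟨Nat.mod_lt _ hd, ?_, ?_⟩
      · have h5 : Nat.Coprime r d := Nat.Coprime.coprime_dvd_right hdv h2
        have h6 : (r % d).gcd d = r.gcd d := by rw [← Nat.gcd_rec, Nat.gcd_comm]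
        unfold Nat.Coprime
        rw [h6]
        exact h5
      · exact ((Nat.mod_modEq r d).pow 2).trans (h3.of_dvd hdv)
    exact Finset.mem_coe.2 (Finset.mem_product.2
      ⟨h4 a ha (dvd_mul_right _ _), h4 b hb (dvd_mul_left _ _)⟩)
  · intro r hr r' hr' h
    have h1 := (mem_rt.1 hr).1
    have h2 := (mem_rt.1 hr').1
    have h3 : r ≡ r' [MOD a] := congrArg Prod.fst h
    have h4 : r ≡ r' [MOD b] := congrArg Prod.snd h
    have h5 : r ≡ r' [MOD a * b] := (Nat.modEq_and_modEq_iff_modEq_mul hab).1 ⟨h3, h4⟩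
    exact Nat.ModEq.eq_of_lt_of_lt h5 h1 h2

theorem two_classes {h k : ℕ} (_hh : 0 < h) (A : Finset ℕ) (hA : ∀ s ∈ A, s < h * k) (r : ℤ)
    (hr : ∀ s ∈ A, (h : ℤ) ∣ (s : ℤ) - r ∨ (h : ℤ) ∣ (s : ℤ) + r) : A.card ≤ 2 * k := by
  have h1 : A.card ≤ (({((r : ℤ) : ZMod h), ((-r : ℤ) : ZMod h)} : Finset (ZMod h)) ×ˢ
      Finset.range k).card := by
    refine Finset.card_le_card_of_injOn (fun s => ((s : ZMod h), s / h)) ?_ ?_
    · intro s hs
      refine Finset.mem_coe.2 (Finset.mem_product.2 ⟨?_, ?_⟩)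
      · rw [Finset.mem_insert, Finset.mem_singleton]
        rcases hr s hs with h2 | h2
        · left
          have h3 := (ZMod.intCast_zmod_eq_zero_iff_dvd _ h).2 h2
          push_cast at h3
          exact sub_eq_zero.1 h3
        · right
          have h3 := (ZMod.intCast_zmod_eq_zero_iff_dvd _ h).2 h2
          push_cast at h3 ⊢
          exact eq_neg_of_add_eq_zero_left h3
      · rw [Finset.mem_range]
        exact Nat.div_lt_of_lt_mul (hA s hs)
    · intro s _ s' _ h2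
      have h3 : (s : ZMod h) = (s' : ZMod h) := congrArg Prod.fst h2
      have h4 : s / h = s' / h := congrArg Prod.snd h2
      have h5 : s % h = s' % h := (ZMod.natCast_eq_natCast_iff' _ _ _).1 h3
      rw [← Nat.div_add_mod s h, ← Nat.div_add_mod s' h, h4, h5]
  refine h1.trans ?_
  rw [Finset.card_product, Finset.card_range]
  exact Nat.mul_le_mul_right _ Finset.card_le_two

theorem sq_dvd {m c r s : ℕ} (hr : r ∈ rt m c) (hs : s ∈ rt m c) :
    (m : ℤ) ∣ ((s : ℤ) - r) * ((s : ℤ) + r) := by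
  have h1 : r ^ 2 ≡ s ^ 2 [MOD m] := (mem_rt.1 hr).2.2.trans (mem_rt.1 hs).2.2.symm
  have h2 := (Nat.modEq_iff_dvd.1 h1)
  push_cast at h2
  have h3 : ((s : ℤ) - r) * ((s : ℤ) + r) = (s : ℤ) ^ 2 - (r : ℤ) ^ 2 := by ring
  rw [h3]
  exact h2

theorem odd_pow {p e : ℕ} (hp : p.Prime) (he : 0 < e) (h2 : p ≠ 2) (c : ℕ) :
    (rt (p ^ e) c).card ≤ 2 := by
  rcases Finset.eq_empty_or_nonempty (rt (p ^ e) c) with h0 | ⟨r, hr⟩
  · rw [h0]
    simp
  have hpz : Prime (p : ℤ) := Nat.prime_iff_prime_int.1 hp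
  have hnr : ¬ (p : ℤ) ∣ (r : ℤ) := by
    intro h
    have h3 : p ∣ r := Int.natCast_dvd_natCast.1 h
    have h4 := (mem_rt.1 hr).2.1
    exact hp.one_lt.ne' (Nat.dvd_one.1 (h4 ▸ Nat.dvd_gcd h3 (dvd_pow_self p he.ne')))
  refine two_classes (h := p ^ e) (k := 1) (pow_pos hp.pos e) _ ?_ (r : ℤ) ?_
  · intro s hs
    rw [mul_one]
    exact (mem_rt.1 hs).1
  · intro s hs
    have h3 := sq_dvd hr hs
    push_cast at h3 ⊢
    by_cases h4 : (p : ℤ) ∣ (s : ℤ) - r
    · left
      have h5 : ¬ (p : ℤ) ∣ (s : ℤ) + r := by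
        intro h5
        have h6 : (p : ℤ) ∣ 2 * (r : ℤ) := by
          have h7 := dvd_sub h5 h4
          have h8 : (s : ℤ) + r - ((s : ℤ) - r) = 2 * r := by ring
          rwa [h8] at h7
        rcases hpz.dvd_or_dvd h6 with h7 | h7
        · have h8 : p ∣ 2 := by exact_mod_cast h7
          exact h2 ((Nat.prime_dvd_prime_iff_eq hp Nat.prime_two).1 h8)
        · exact hnr h7
      exact ((hpz.coprime_iff_not_dvd.2 h5).pow_left).dvd_of_dvd_mul_right h3
    · right
      exact ((hpz.coprime_iff_not_dvd.2 h4).pow_left).dvd_of_dvd_mul_left h3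

theorem two_pow {e : ℕ} (he : 0 < e) (c : ℕ) : (rt (2 ^ e) c).card ≤ 4 := by
  rcases Finset.eq_empty_or_nonempty (rt (2 ^ e) c) with h0 | ⟨r, hr⟩
  · rw [h0]
    simp
  obtain ⟨k, rfl⟩ : ∃ k, e = k + 1 := ⟨e - 1, by omega⟩
  have hodd : ∀ s ∈ rt (2 ^ (k + 1)) c, s % 2 = 1 := by
    intro s hs
    have h4 := (mem_rt.1 hs).2.1
    by_contra h5
    have h6 : 2 ∣ s := by omega
    have h7 : 2 ∣ 1 := h4 ▸ Nat.dvd_gcd h6 (dvd_pow_self 2 he.ne')
    omega
  refine (two_classes (h := 2 ^ k) (k := 2) (pow_pos (by norm_num) k) _ ?_ (r : ℤ) ?_).trans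
    (le_of_eq (by norm_num))
  · intro s hs
    rw [← pow_succ]
    exact (mem_rt.1 hs).1
  · intro s hs
    have h3 := sq_dvd hr hs
    have ho := hodd s hs
    have hr' := hodd r hr
    obtain ⟨a, ha⟩ : ∃ a : ℤ, (s : ℤ) - r = 2 * a := ⟨((s : ℤ) - r) / 2, by omega⟩
    obtain ⟨b, hb⟩ : ∃ b : ℤ, (s : ℤ) + r = 2 * b := ⟨((s : ℤ) + r) / 2, by omega⟩
    have hp2 : Prime (2 : ℤ) := Int.prime_two
    rw [ha, hb] at h3 ⊢
    push_cast at h3 ⊢
    by_cases h4 : (2 : ℤ) ∣ a
    · left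
      have h5 : ¬ (2 : ℤ) ∣ b := by omega
      have h6 : (2 : ℤ) ^ (k + 1) ∣ b * (2 * (2 * a)) := by
        have : (2 * a) * (2 * b) = b * (2 * (2 * a)) := by ring
        rwa [this] at h3
      have h7 := ((hp2.coprime_iff_not_dvd.2 h5).pow_left (m := k + 1)).dvd_of_dvd_mul_left h6
      rw [pow_succ'] at h7
      exact (mul_dvd_mul_iff_left (by norm_num : (2 : ℤ) ≠ 0)).1 h7
    · right
      have h6 : (2 : ℤ) ^ (k + 1) ∣ a * (2 * (2 * b)) := by
        have : (2 * a) * (2 * b) = a * (2 * (2 * b)) := by ring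
        rwa [this] at h3
      have h7 := ((hp2.coprime_iff_not_dvd.2 h4).pow_left (m := k + 1)).dvd_of_dvd_mul_left h6
      rw [pow_succ'] at h7
      exact (mul_dvd_mul_iff_left (by norm_num : (2 : ℤ) ≠ 0)).1 h7

theorem main (m c : ℕ) (hm : 0 < m) :
    (rt m c).card ≤ 2 ^ m.primeFactors.card * (if 2 ∣ m then 2 else 1) := by
  induction m using Nat.recOnPosPrimePosCoprime with
  | zero => exact absurd hm (lt_irrefl _)
  | one =>
    have h : (rt 1 c).card ≤ (Finset.range 1).card := Finset.card_filter_le _ _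
    simpa using h
  | prime_pow p e hp he =>
    rw [Nat.primeFactors_prime_pow he.ne' hp, Finset.card_singleton, pow_one]
    by_cases h2 : p = 2
    · subst h2
      rw [if_pos (dvd_pow_self 2 he.ne')]
      exact two_pow he c
    · rw [if_neg]
      · exact odd_pow hp he h2 c
      · intro h3
        have h4 := Nat.prime_two.dvd_of_dvd_pow h3
        exact h2 ((Nat.prime_dvd_prime_iff_eq Nat.prime_two hp).1 h4).symm
  | coprime a b ha hb hab iha ihb =>
    have h1 := iha (by omega)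
    have h2 := ihb (by omega)
    refine (mul_le c (by omega) (by omega) hab).trans ((Nat.mul_le_mul h1 h2).trans ?_)
    rw [hab.primeFactors_mul, Finset.card_union_of_disjoint hab.disjoint_primeFactors, pow_add]
    have h3 : (if 2 ∣ a then 2 else 1) * (if 2 ∣ b then 2 else 1) ≤ (if 2 ∣ a * b then 2 else 1) := by
      by_cases ha2 : 2 ∣ a
      · have hb2 : ¬ 2 ∣ b := by
          intro hb2
          have h7 : 2 ∣ 1 := hab ▸ Nat.dvd_gcd ha2 hb2
          omega
        rw [if_pos ha2, if_neg hb2, if_pos (dvd_mul_of_dvd_left ha2 b)]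
      · by_cases hb2 : 2 ∣ b
        · rw [if_neg ha2, if_pos hb2, if_pos (dvd_mul_of_dvd_right hb2 a)]
        · rw [if_neg ha2, if_neg hb2, if_neg]
          intro h
          exact (Nat.prime_two.dvd_or_dvd h).elim ha2 hb2
    calc 2 ^ a.primeFactors.card * (if 2 ∣ a then 2 else 1) *
          (2 ^ b.primeFactors.card * (if 2 ∣ b then 2 else 1))
        = 2 ^ a.primeFactors.card * 2 ^ b.primeFactors.card *
          ((if 2 ∣ a then 2 else 1) * (if 2 ∣ b then 2 else 1)) := by ring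
      _ ≤ _ := Nat.mul_le_mul_left _ h3

end SQR

theorem t_SQR : S_SQR := by
  intro m c hm
  refine (SQR.main m c hm).trans ?_
  rw [pow_succ]
  refine Nat.mul_le_mul_left _ ?_
  split_ifs
  · exact le_refl _
  · norm_num

end Pool.Agent.T2h88.GP
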