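import Pool.Agent.T2h88.GP.H58

/-!
# GP-SUB: the difference of two points congruent modulo `M` (helper58)
-/

set_option autoImplicit false

namespace Pool.Agent.T2h88.GP

open H58

/-- a squarefree number times a square -/
theorem int_prime_sq_dvd {h : ℕ} (hh : Squarefree h) {p : ℤ} (hp : Prime p)
    {D : ℤ} (h1 : p ^ 2 ∣ (h : ℤ) * D ^ 2) : p ∣ D := by
  by_contra hD
  have hcop : IsCoprime (p ^ 2) (D ^ 2) := by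
    apply IsCoprime.pow
    exact (Prime.coprime_iff_not_dvd hp).2 hD
  have h2 : p ^ 2 ∣ (h : ℤ) := hcop.dvd_of_dvd_mul_right h1
  have h3 : (p.natAbs) ^ 2 ∣ h := by
    have := Int.natAbs_dvd_natAbs.2 h2
    rwa [Int.natAbs_pow, Int.natAbs_natCast] at this
  have h4 := hh p.natAbs (by rw [← pow_two]; exact h3)
  have h5 := Int.prime_iff_natAbs_prime.1 hp
  exact h5.one_lt.ne' (Nat.isUnit_iff.1 h4)

/-- a prime dividing `C` of a point does not divide `D` -/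
theorem not_dvd_h {h : ℕ} {A B C D p : ℤ} (P : Pt h A B C D) (hp : Prime p)
    (hC : p ∣ C) : ¬ p ∣ D := fun hD => hp.not_isUnit (P.cop.isUnit_of_dvd' hC hD)

/-- a prime dividing `C` of a point does not divide `h` -/
theorem C_of_A {h : ℕ} (hh : Squarefree h) {A B C D p : ℤ} (P : Pt h A B C D) (hp : Prime p)
    (hC : p ∣ C) (hh' : p ∣ (h : ℤ)) : False := by
  have hA2 : p ∣ A ^ 2 := by
    rw [P.eqA]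
    exact dvd_sub (dvd_pow hC two_ne_zero) (Dvd.dvd.mul_right hh' _)
  have hA : p ∣ A := hp.dvd_of_dvd_pow hA2
  have h1 : p ^ 2 ∣ (h : ℤ) * D ^ 2 := by
    have e : (h : ℤ) * D ^ 2 = C ^ 2 - A ^ 2 := by linear_combination P.eqA
    rw [e]
    exact dvd_sub (pow_dvd_pow_of_dvd hC 2) (pow_dvd_pow_of_dvd hA 2)
  have h2 := int_prime_sq_dvd hh hp h1
  exact not_dvd_h P hp hC h2

/-- the key: a prime cannot divide `C⁴ + h² D⁴` and `2 D C A B` -/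
theorem key {h : ℕ} (hh : Squarefree h) {A B C D p : ℤ} (P : Pt h A B C D) (hp : Prime p)
    (h2 : ¬ p ∣ 2) (h3 : p ∣ C ^ 4 + (h : ℤ) ^ 2 * D ^ 4) (h4 : p ∣ 2 * D * C * A * B) : False := by
  have hCn : ¬ p ∣ C := by
    intro hC
    have h5 : p ∣ (h : ℤ) ^ 2 * D ^ 4 := by
      have e : (h : ℤ) ^ 2 * D ^ 4 = (C ^ 4 + (h : ℤ) ^ 2 * D ^ 4) - C ^ 4 := by ring
      rw [e]
      exact dvd_sub h3 (dvd_pow hC (by norm_num))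
    rcases hp.dvd_or_dvd h5 with h6 | h6
    · exact C_of_A hh P hp hC (hp.dvd_of_dvd_pow h6)
    · exact not_dvd_h P hp hC (hp.dvd_of_dvd_pow h6)
  have hDn : ¬ p ∣ D := by
    intro hD
    apply hCn
    apply hp.dvd_of_dvd_pow (n := 4)
    have e : C ^ 4 = (C ^ 4 + (h : ℤ) ^ 2 * D ^ 4) - (h : ℤ) ^ 2 * D ^ 4 := by ring
    rw [e]
    exact dvd_sub h3 (Dvd.dvd.mul_left (dvd_pow hD (by norm_num)) _)
  have h2C : ¬ p ∣ 2 * C ^ 4 := by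
    intro h5
    rcases hp.dvd_or_dvd h5 with h6 | h6
    · exact h2 h6
    · exact hCn (hp.dvd_of_dvd_pow h6)
  rcases hp.dvd_or_dvd h4 with h5 | hB
  · rcases hp.dvd_or_dvd h5 with h6 | hA
    · rcases hp.dvd_or_dvd h6 with h7 | h7
      · rcases hp.dvd_or_dvd h7 with h8 | h8
        · exact h2 h8
        · exact hDn h8
      · exact hCn h7
    · apply h2C
      -- 2 C⁴ = (C⁴ + h² D⁴) + (C² - h D²)(C² + h D²)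
      have e : 2 * C ^ 4 = (C ^ 4 + (h : ℤ) ^ 2 * D ^ 4) + A * (A * (C ^ 2 + h * D ^ 2)) := by
        linear_combination (-(C ^ 2 + h * D ^ 2)) * P.eqA
      rw [e]
      exact dvd_add h3 (Dvd.dvd.mul_right hA _)
  · apply h2C
    have e : 2 * C ^ 4 = (C ^ 4 + (h : ℤ) ^ 2 * D ^ 4) + B * (B * (C ^ 2 - h * D ^ 2)) := by
      linear_combination (-(C ^ 2 - h * D ^ 2)) * P.eqB
    rw [e]
    exact dvd_add h3 (Dvd.dvd.mul_right hB _)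

theorem t_SUB : S_SUB := by
  intro h M A₁ B₁ C₁ D₁ A₂ B₂ C₂ D₂ hh hM P₁ P₂ hv cA cB cC cD
  have hA₁ := odd_A P₁
  have hB₁ := odd_B P₁
  have hC₁ := odd_C P₁
  have hA₂ := odd_A P₂
  have hB₂ := odd_B P₂
  have hC₂ := odd_C P₂
  have a1 := P₁.eqA
  have b1 := P₁.eqB
  have a2 := P₂.eqA
  have b2 := P₂.eqB
  have hC3 : ¬ (2 : ℤ) ∣ C₁ ^ 2 * C₂ ^ 2 + (h : ℤ) ^ 2 * D₁ ^ 2 * D₂ ^ 2 := by
    intro h2
    have h3 : (2 : ℤ) ∣ (C₁ * C₂) ^ 2 := by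
      have e : (C₁ * C₂) ^ 2 = (C₁ ^ 2 * C₂ ^ 2 + (h : ℤ) ^ 2 * D₁ ^ 2 * D₂ ^ 2)
        - (h : ℤ) ^ 2 * D₁ ^ 2 * D₂ ^ 2 := by ring
      rw [e]
      exact dvd_sub h2 (Dvd.dvd.mul_left (dvd_pow P₂.two (by norm_num)) _)
    exact odd_mul hC₁ hC₂ (two_prime.dvd_of_dvd_pow h3)
  -- D₃
  have hv1 : padicValInt 2 (D₁ * (C₁ * A₂ * B₂)) = padicValInt 2 D₁ := by
    have ho := odd_mul (odd_mul hC₁ hA₂) hB₂
    rw [padicValInt.mul P₁.nz (ne_of_odd ho), val_odd ho, add_zero]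
  have hv2 : padicValInt 2 (D₂ * (C₂ * A₁ * B₁)) = padicValInt 2 D₂ := by
    have ho := odd_mul (odd_mul hC₂ hA₁) hB₁
    rw [padicValInt.mul P₂.nz (ne_of_odd ho), val_odd ho, add_zero]
  have hD3 : D₁ * (C₁ * A₂ * B₂) - D₂ * (C₂ * A₁ * B₁) ≠ 0 := by
    intro h0
    have h1 : D₁ * (C₁ * A₂ * B₂) = D₂ * (C₂ * A₁ * B₁) := sub_eq_zero.1 h0
    apply hv
    rw [← hv1, ← hv2, h1]
  obtain ⟨A, B, C, D, g, P, hg, e1, e2⟩ := reduce h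
    (A₁ * A₂ * C₁ * C₂ + h * D₁ * D₂ * B₁ * B₂)
    (B₁ * B₂ * C₁ * C₂ - h * D₁ * D₂ * A₁ * A₂)
    (C₁ ^ 2 * C₂ ^ 2 + (h : ℤ) ^ 2 * D₁ ^ 2 * D₂ ^ 2)
    (D₁ * (C₁ * A₂ * B₂) - D₂ * (C₂ * A₁ * B₁))
    (by
      have e : (A₁ * A₂ * C₁ * C₂ + h * D₁ * D₂ * B₁ * B₂) ^ 2
          + h * (D₁ * (C₁ * A₂ * B₂) - D₂ * (C₂ * A₁ * B₁)) ^ 2 =
        A₁ ^ 2 * A₂ ^ 2 * C₁ ^ 2 * C₂ ^ 2 + (h : ℤ) ^ 2 * D₁ ^ 2 * D₂ ^ 2 * B₁ ^ 2 * B₂ ^ 2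
        + h * (D₁ ^ 2 * C₁ ^ 2 * A₂ ^ 2 * B₂ ^ 2 + D₂ ^ 2 * C₂ ^ 2 * A₁ ^ 2 * B₁ ^ 2) := by ring
      rw [a1, b1, a2, b2] at e
      linear_combination e)
    (by
      have e : (B₁ * B₂ * C₁ * C₂ - h * D₁ * D₂ * A₁ * A₂) ^ 2
          - h * (D₁ * (C₁ * A₂ * B₂) - D₂ * (C₂ * A₁ * B₁)) ^ 2 =
        B₁ ^ 2 * B₂ ^ 2 * C₁ ^ 2 * C₂ ^ 2 + (h : ℤ) ^ 2 * D₁ ^ 2 * D₂ ^ 2 * A₁ ^ 2 * A₂ ^ 2
        - h * (D₁ ^ 2 * C₁ ^ 2 * A₂ ^ 2 * B₂ ^ 2 + D₂ ^ 2 * C₂ ^ 2 * A₁ ^ 2 * B₁ ^ 2) := by ring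
      rw [a1, b1, a2, b2] at e
      linear_combination e)
    hC3 hD3 (dvd_sub (Dvd.dvd.mul_right P₁.two _) (Dvd.dvd.mul_right P₂.two _))
  refine ⟨A, B, C, D, P, ?_⟩
  have hgne : g ≠ 0 := ne_of_odd hg
  -- the two divisibilities
  have m1 : (M : ℤ) ∣ D * g := by
    rw [← e2]
    apply Int.ModEq.dvd
    have : D₂ * (C₂ * A₁ * B₁) ≡ D₁ * (C₁ * A₂ * B₂) [ZMOD M] :=
      (cD.symm).mul (((cC.symm).mul cA).mul cB)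
    exact this
  have m2 : (M : ℤ) ∣ D₁ ^ 2 * C₂ ^ 2 - D₂ ^ 2 * C₁ ^ 2 := by
    apply Int.ModEq.dvd
    exact ((cD.symm).pow 2).mul (cC.pow 2)
  have id4 : (D₁ * (C₁ * A₂ * B₂) - D₂ * (C₂ * A₁ * B₁)) * (D₁ * (C₁ * A₂ * B₂) + D₂ * (C₂ * A₁ * B₁))
      = (C₁ ^ 2 * C₂ ^ 2 + (h : ℤ) ^ 2 * D₁ ^ 2 * D₂ ^ 2) * (D₁ ^ 2 * C₂ ^ 2 - D₂ ^ 2 * C₁ ^ 2) := by
    have e : (D₁ * (C₁ * A₂ * B₂) - D₂ * (C₂ * A₁ * B₁)) *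
        (D₁ * (C₁ * A₂ * B₂) + D₂ * (C₂ * A₁ * B₁)) =
      D₁ ^ 2 * C₁ ^ 2 * A₂ ^ 2 * B₂ ^ 2 - D₂ ^ 2 * C₂ ^ 2 * A₁ ^ 2 * B₁ ^ 2 := by ring
    rw [e, a1, b1, a2, b2]
    ring
  have m3 : (M : ℤ) ∣ D * (D₁ * (C₁ * A₂ * B₂) + D₂ * (C₂ * A₁ * B₁)) := by
    have e : D * (D₁ * (C₁ * A₂ * B₂) + D₂ * (C₂ * A₁ * B₁)) =
        C * (D₁ ^ 2 * C₂ ^ 2 - D₂ ^ 2 * C₁ ^ 2) := by
      apply mul_right_cancel₀ hgne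
      rw [e1, e2] at id4
      linear_combination id4
    rw [e]
    exact m2.mul_left _
  -- coprimality
  have hgcd : Int.gcd (Int.gcd g (D₁ * (C₁ * A₂ * B₂) + D₂ * (C₂ * A₁ * B₁))) M = 1 := by
    by_contra hne
    obtain ⟨p, hp, hpd⟩ := Nat.exists_prime_and_dvd hne
    have hpZ : Prime (p : ℤ) := Nat.prime_iff_prime_int.1 hp
    have hpM : (p : ℤ) ∣ M := (Int.natCast_dvd_natCast.2 hpd).trans (Int.gcd_dvd_right _ _)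
    have hp1 : (p : ℤ) ∣ (Int.gcd g (D₁ * (C₁ * A₂ * B₂) + D₂ * (C₂ * A₁ * B₁)) : ℤ) :=
      (Int.natCast_dvd_natCast.2 hpd).trans (Int.gcd_dvd_left _ _)
    have hpg : (p : ℤ) ∣ g := hp1.trans (Int.gcd_dvd_left _ _)
    have hp4 : (p : ℤ) ∣ D₁ * (C₁ * A₂ * B₂) + D₂ * (C₂ * A₁ * B₁) := hp1.trans (Int.gcd_dvd_right _ _)
    have hp2 : ¬ (p : ℤ) ∣ 2 := by
      intro h2
      have h3 : p ∣ 2 := by exact_mod_cast h2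
      have h4 : p = 2 := (Nat.prime_dvd_prime_iff_eq hp Nat.prime_two).1 h3
      apply hg
      rw [h4] at hpg
      exact_mod_cast hpg
    -- congruences modulo p
    have qA : A₁ ≡ A₂ [ZMOD p] := cA.of_dvd hpM
    have qB : B₁ ≡ B₂ [ZMOD p] := cB.of_dvd hpM
    have qC : C₁ ≡ C₂ [ZMOD p] := cC.of_dvd hpM
    have qD : D₁ ≡ D₂ [ZMOD p] := cD.of_dvd hpM
    apply key hh P₁ hpZ hp2
    · have h3 : (p : ℤ) ∣ C₁ ^ 2 * C₂ ^ 2 + (h : ℤ) ^ 2 * D₁ ^ 2 * D₂ ^ 2 := by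
        rw [e1]
        exact hpg.mul_left _
      have h4 : C₁ ^ 4 + (h : ℤ) ^ 2 * D₁ ^ 4 ≡ C₁ ^ 2 * C₂ ^ 2 + (h : ℤ) ^ 2 * D₁ ^ 2 * D₂ ^ 2 [ZMOD p] := by
        have f1 : C₁ ^ 2 * C₁ ^ 2 ≡ C₁ ^ 2 * C₂ ^ 2 [ZMOD p] := (qC.pow 2).mul_left _
        have f2 : (h : ℤ) ^ 2 * D₁ ^ 2 * D₁ ^ 2 ≡ (h : ℤ) ^ 2 * D₁ ^ 2 * D₂ ^ 2 [ZMOD p] :=
          (qD.pow 2).mul_left _
        have f3 := f1.add f2
        have e : C₁ ^ 4 + (h : ℤ) ^ 2 * D₁ ^ 4 = C₁ ^ 2 * C₁ ^ 2 + (h : ℤ) ^ 2 * D₁ ^ 2 * D₁ ^ 2 := by ring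
        rw [e]
        exact f3
      exact Int.modEq_zero_iff_dvd.1 (h4.trans (Int.modEq_zero_iff_dvd.2 h3))
    · have h4 : 2 * D₁ * C₁ * A₁ * B₁ ≡ D₁ * (C₁ * A₂ * B₂) + D₂ * (C₂ * A₁ * B₁) [ZMOD p] := by
        have f1 : D₁ * (C₁ * A₁ * B₁) ≡ D₁ * (C₁ * A₂ * B₂) [ZMOD p] :=
          ((qA.mul_left C₁).mul qB).mul_left _
        have f2 : D₁ * (C₁ * A₁ * B₁) ≡ D₂ * (C₂ * A₁ * B₁) [ZMOD p] :=
          qD.mul ((qC.mul_right A₁).mul_right B₁)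
        have f3 := f1.add f2
        have e : 2 * D₁ * C₁ * A₁ * B₁ = D₁ * (C₁ * A₁ * B₁) + D₁ * (C₁ * A₁ * B₁) := by ring
        rw [e]
        exact f3
      exact Int.modEq_zero_iff_dvd.1 (h4.trans (Int.modEq_zero_iff_dvd.2 hp4))
  -- Bezout
  have m4 : (M : ℤ) ∣ D * (Int.gcd g (D₁ * (C₁ * A₂ * B₂) + D₂ * (C₂ * A₁ * B₁)) : ℤ) := by
    rw [Int.gcd_eq_gcd_ab]
    have e : D * (g * Int.gcdA g (D₁ * (C₁ * A₂ * B₂) + D₂ * (C₂ * A₁ * B₁)) +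
        (D₁ * (C₁ * A₂ * B₂) + D₂ * (C₂ * A₁ * B₁)) *
          Int.gcdB g (D₁ * (C₁ * A₂ * B₂) + D₂ * (C₂ * A₁ * B₁))) =
        (D * g) * Int.gcdA g (D₁ * (C₁ * A₂ * B₂) + D₂ * (C₂ * A₁ * B₁)) +
        (D * (D₁ * (C₁ * A₂ * B₂) + D₂ * (C₂ * A₁ * B₁))) *
          Int.gcdB g (D₁ * (C₁ * A₂ * B₂) + D₂ * (C₂ * A₁ * B₁)) := by ring
    rw [e]
    exact dvd_add (m1.mul_right _) (m3.mul_right _)
  have hco : IsCoprime (M : ℤ) (Int.gcd g (D₁ * (C₁ * A₂ * B₂) + D₂ * (C₂ * A₁ * B₁)) : ℤ) :=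
    (Int.isCoprime_iff_gcd_eq_one.2 hgcd).symm
  exact hco.dvd_of_dvd_mul_right m4

end Pool.Agent.T2h88.GP
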