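import Pool.Agent.T2h88.GP.Stm2

/-!
# Project LN, task TE (helper67): pairs with a common large prime factor
-/

set_option autoImplicit false

namespace Pool.Agent.T2h88.GP

namespace TE

/-- numbers below `Y` in one residue class -/
theorem card_class {p M : ℕ} (a Y : ℕ) (hMp : Nat.Coprime p M) :
    ((Finset.range Y).filter fun x => p ∣ a + M * x).card ≤ Y / p + 1 := by
  rw [← Finset.card_range (Y / p + 1)]
  refine Finset.card_le_card_of_injOn (fun x => x / p) ?_ ?_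
  · intro x hx
    have hx' := Finset.mem_filter.1 (Finset.mem_coe.1 hx)
    have h1 := Finset.mem_range.1 hx'.1
    exact Finset.mem_coe.2 (Finset.mem_range.2 (Nat.lt_succ_of_le (Nat.div_le_div_right h1.le)))
  · intro x hx y hy h
    have h1 := (Finset.mem_filter.1 (Finset.mem_coe.1 hx)).2
    have h2 := (Finset.mem_filter.1 (Finset.mem_coe.1 hy)).2
    have h3 : a + M * x ≡ a + M * y [MOD p] :=
      ((Nat.modEq_zero_iff_dvd).2 h1).trans ((Nat.modEq_zero_iff_dvd).2 h2).symm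
    have h4 : M * x ≡ M * y [MOD p] := Nat.ModEq.add_left_cancel' a h3
    have h5 : x ≡ y [MOD p] := Nat.ModEq.cancel_left_of_coprime hMp h4
    have h6 : x / p = y / p := h
    rw [← Nat.div_add_mod x p, ← Nat.div_add_mod y p, h6, h5]

theorem card_class' {p M : ℕ} (a b Y : ℕ) (hMp : Nat.Coprime p M) :
    ((Finset.range Y).filter fun x => p ∣ a + M * (x + b)).card ≤ Y / p + 1 := by
  have h := card_class (a + M * b) Y hMp
  have h1 : ((Finset.range Y).filter fun x => p ∣ a + M * (x + b)) =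
      (Finset.range Y).filter fun x => p ∣ a + M * b + M * x := by
    refine Finset.filter_congr fun x _ => ?_
    rw [show a + M * (x + b) = a + M * b + M * x by ring]
  rw [h1]
  exact h

/-- number of large prime factors -/
theorem card_large {Y U : ℕ} (hU : 0 < U) (hUY : U ≤ Y ^ 4) :
    (U.primeFactors.filter fun p => Y < p).card ≤ 3 := by
  by_contra h
  have h1 : 4 ≤ (U.primeFactors.filter fun p => Y < p).card := by omega
  have h2 : (Y + 1) ^ (U.primeFactors.filter fun p => Y < p).card ≤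
      ∏ p ∈ U.primeFactors.filter (fun p => Y < p), p := by
    refine Finset.pow_card_le_prod _ _ _ fun p hp => ?_
    exact (Finset.mem_filter.1 hp).2
  have h3 : ∏ p ∈ U.primeFactors.filter (fun p => Y < p), p ∣ U :=
    (Finset.prod_dvd_prod_of_subset _ _ _ (Finset.filter_subset _ _)).trans
      (Nat.prod_primeFactors_dvd U)
  have h4 := Nat.le_of_dvd hU h3
  have h5 : (Y + 1) ^ 4 ≤ (Y + 1) ^ (U.primeFactors.filter fun p => Y < p).card :=
    Nat.pow_le_pow_right (by omega) h1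
  have h6 : Y ^ 4 < (Y + 1) ^ 4 := Nat.pow_lt_pow_left (by omega) (by norm_num)
  omega

end TE

open scoped Classical in
theorem t_TE : S_TE := by
  intro B hB
  refine ⟨3000 + B, ?_⟩
  intro M Y u₀ v₀ hY hM hMY hu
  have hYpos : 0 < Y := by omega
  obtain ⟨K, hK⟩ : ∃ K : ℕ, K = 1000 := ⟨1000, rfl⟩
  rw [← hK]
  set U : ℕ → ℕ := fun x => u₀ + M * (x + B * Y) with hU
  set V : ℕ → ℕ := fun y => v₀ + M * (y + 1) with hV
  have hUpos : ∀ x, 0 < U x := by
    intro x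
    have h1 : 0 < M * (x + B * Y) := by
      refine Nat.mul_pos hM ?_
      have : 0 < B * Y := Nat.mul_pos (by omega) hYpos
      omega
    show 0 < u₀ + M * (x + B * Y)
    omega
  have hUle : ∀ x, x < Y → U x ≤ Y ^ 4 := by
    intro x hx
    have h1 : x + B * Y + 1 ≤ (B + 1) * Y := by
      have : (B + 1) * Y = B * Y + Y := by ring
      omega
    have h2 : U x ≤ M * ((B + 1) * Y) := by
      calc u₀ + M * (x + B * Y) ≤ M + M * (x + B * Y) := by omega
        _ = M * (x + B * Y + 1) := by ring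
        _ ≤ M * ((B + 1) * Y) := Nat.mul_le_mul_left _ h1
    calc U x ≤ M * ((B + 1) * Y) := h2
      _ ≤ Y ^ 2 * (Y * Y) := Nat.mul_le_mul hMY (Nat.mul_le_mul_right _ (by omega))
      _ = Y ^ 4 := by ring
  set P1 : Finset ℕ := (Finset.Ioc K Y).filter fun p => p.Prime ∧ ¬ p ∣ M with hP1
  set F1 : Finset (ℕ × ℕ) := P1.biUnion fun p =>
    ((Finset.range Y).filter fun x => p ∣ U x) ×ˢ ((Finset.range Y).filter fun y => p ∣ V y) with hF1
  set F2 : Finset (ℕ × ℕ) := (Finset.range Y).biUnion fun x =>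
    ((U x).primeFactors.filter fun p => Y < p).biUnion fun p =>
      if p ∣ M then ∅ else ((Finset.range Y).filter fun y => p ∣ V y).image fun y => (x, y) with hF2
  have hsub : (((Finset.range Y) ×ˢ (Finset.range Y)).filter fun w : ℕ × ℕ => ∃ p : ℕ, p.Prime ∧
      K < p ∧ ¬ p ∣ M ∧ p ∣ u₀ + M * (w.1 + B * Y) ∧ p ∣ v₀ + M * (w.2 + 1)) ⊆ F1 ∪ F2 := by
    rintro ⟨x, y⟩ hw
    obtain ⟨h1, p, hp, hp1, hpM, hpu, hpv⟩ := Finset.mem_filter.1 hw
    obtain ⟨hx, hy⟩ := Finset.mem_product.1 h1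
    rw [Finset.mem_union]
    rcases Nat.lt_or_ge Y p with hYp | hYp
    · right
      rw [hF2, Finset.mem_biUnion]
      refine ⟨x, hx, ?_⟩
      rw [Finset.mem_biUnion]
      refine ⟨p, Finset.mem_filter.2 ⟨Nat.mem_primeFactors.2 ⟨hp, hpu, (hUpos x).ne'⟩, hYp⟩, ?_⟩
      rw [if_neg hpM, Finset.mem_image]
      exact ⟨y, Finset.mem_filter.2 ⟨hy, hpv⟩, rfl⟩
    · left
      rw [hF1, Finset.mem_biUnion]
      refine ⟨p, Finset.mem_filter.2 ⟨Finset.mem_Ioc.2 ⟨hp1, hYp⟩, hp, hpM⟩, ?_⟩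
      exact Finset.mem_product.2 ⟨Finset.mem_filter.2 ⟨hx, hpu⟩, Finset.mem_filter.2 ⟨hy, hpv⟩⟩
  have hcop : ∀ p : ℕ, p.Prime → ¬ p ∣ M → Nat.Coprime p M := fun p hp h =>
    (Nat.Prime.coprime_iff_not_dvd hp).2 h
  have hc1 : F1.card ≤ ∑ p ∈ P1, (Y / p + 1) ^ 2 := by
    refine Finset.card_biUnion_le.trans (Finset.sum_le_sum fun p hp => ?_)
    obtain ⟨_, hp2, hp3⟩ := Finset.mem_filter.1 hp
    rw [Finset.card_product, sq]
    exact Nat.mul_le_mul (TE.card_class' u₀ (B * Y) Y (hcop p hp2 hp3))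
      (TE.card_class' v₀ 1 Y (hcop p hp2 hp3))
  have hc2 : F2.card ≤ Y * 3 := by
    have h1 : ∀ x ∈ Finset.range Y, (((U x).primeFactors.filter fun p => Y < p).biUnion fun p =>
        if p ∣ M then (∅ : Finset (ℕ × ℕ)) else
          ((Finset.range Y).filter fun y => p ∣ V y).image fun y => (x, y)).card ≤ 3 := by
      intro x hx
      refine Finset.card_biUnion_le.trans ?_
      have h2 : ∀ p ∈ (U x).primeFactors.filter (fun p => Y < p),
          (if p ∣ M then (∅ : Finset (ℕ × ℕ)) else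
            ((Finset.range Y).filter fun y => p ∣ V y).image fun y => (x, y)).card ≤ 1 := by
        intro p hp
        obtain ⟨hp1, hp2⟩ := Finset.mem_filter.1 hp
        have hpp := (Nat.mem_primeFactors.1 hp1).1
        by_cases hpM : p ∣ M
        · rw [if_pos hpM]
          simp
        · rw [if_neg hpM]
          refine Finset.card_image_le.trans ?_
          have h3 := TE.card_class' v₀ 1 Y (hcop p hpp hpM)
          rwa [Nat.div_eq_of_lt hp2] at h3
      calc _ ≤ ∑ _p ∈ (U x).primeFactors.filter (fun p => Y < p), 1 := Finset.sum_le_sum h2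
        _ = ((U x).primeFactors.filter fun p => Y < p).card := by simp
        _ ≤ 3 := TE.card_large (hUpos x) (hUle x (Finset.mem_range.1 hx))
    refine Finset.card_biUnion_le.trans ((Finset.sum_le_sum h1).trans ?_)
    simp
  have hsum : (∑ p ∈ P1, ((Y / p + 1 : ℕ) : ℝ) ^ 2) ≤ 4 * (Y : ℝ) ^ 2 / 1000 := by
    have h1 : ∀ p ∈ P1, ((Y / p + 1 : ℕ) : ℝ) ^ 2 ≤ 4 * (Y : ℝ) ^ 2 * ((p : ℝ) ^ 2)⁻¹ := by
      intro p hp
      obtain ⟨hp1, _, _⟩ := Finset.mem_filter.1 hp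
      obtain ⟨hp2, hp3⟩ := Finset.mem_Ioc.1 hp1
      have hp0 : (0 : ℝ) < p := by
        have : 0 < p := by omega
        exact_mod_cast this
      have h2 : ((Y / p + 1 : ℕ) : ℝ) ≤ 2 * Y / p := by
        have h3 : ((Y / p : ℕ) : ℝ) ≤ (Y : ℝ) / p := Nat.cast_div_le
        have h4 : (1 : ℝ) ≤ (Y : ℝ) / p := by
          rw [le_div_iff₀ hp0, one_mul]
          exact_mod_cast hp3
        push_cast
        calc ((Y / p : ℕ) : ℝ) + 1 ≤ (Y : ℝ) / p + (Y : ℝ) / p := add_le_add h3 h4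
          _ = 2 * Y / p := by ring
      calc ((Y / p + 1 : ℕ) : ℝ) ^ 2 ≤ (2 * Y / p) ^ 2 :=
            pow_le_pow_left₀ (by positivity) h2 2
        _ = 4 * (Y : ℝ) ^ 2 * ((p : ℝ) ^ 2)⁻¹ := by
            rw [div_pow, mul_pow, div_eq_mul_inv]
            norm_num
    have h2 : ∑ p ∈ P1, ((p : ℝ) ^ 2)⁻¹ ≤ 1 / 1000 := by
      calc ∑ p ∈ P1, ((p : ℝ) ^ 2)⁻¹ ≤ ∑ p ∈ Finset.Ioc K Y, ((p : ℝ) ^ 2)⁻¹ :=
            Finset.sum_le_sum_of_subset_of_nonneg (Finset.filter_subset _ _)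
              fun p _ _ => by positivity
        _ ≤ ((K : ℕ) : ℝ)⁻¹ - (Y : ℝ)⁻¹ := sum_Ioc_inv_sq_le_sub (by omega) (by omega)
        _ ≤ 1 / 1000 := by
            have : (0 : ℝ) ≤ (Y : ℝ)⁻¹ := by positivity
            have h7 : (K : ℝ) = 1000 := by rw [hK]; norm_num
            rw [h7]
            linarith
    calc (∑ p ∈ P1, ((Y / p + 1 : ℕ) : ℝ) ^ 2) ≤ ∑ p ∈ P1, 4 * (Y : ℝ) ^ 2 * ((p : ℝ) ^ 2)⁻¹ :=
          Finset.sum_le_sum h1
      _ = 4 * (Y : ℝ) ^ 2 * ∑ p ∈ P1, ((p : ℝ) ^ 2)⁻¹ := by rw [Finset.mul_sum]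
      _ ≤ 4 * (Y : ℝ) ^ 2 * (1 / 1000) := mul_le_mul_of_nonneg_left h2 (by positivity)
      _ = 4 * (Y : ℝ) ^ 2 / 1000 := by ring
  have hfin := (Finset.card_le_card hsub).trans (Finset.card_union_le _ _)
  have h1 : ((F1.card : ℕ) : ℝ) ≤ 4 * (Y : ℝ) ^ 2 / 1000 := by
    refine le_trans ?_ hsum
    exact_mod_cast hc1
  have h2 : ((F2.card : ℕ) : ℝ) ≤ (Y : ℝ) ^ 2 / 1000 := by
    have h3 : ((F2.card : ℕ) : ℝ) ≤ Y * 3 := by exact_mod_cast hc2
    have h4 : (3000 : ℝ) ≤ Y := by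
      have : 3000 ≤ Y := by omega
      exact_mod_cast this
    have h5 : (0 : ℝ) ≤ Y := by positivity
    nlinarith
  have h3 : (100 : ℝ) * (((F1.card + F2.card : ℕ)) : ℝ) ≤ (Y : ℝ) ^ 2 := by
    push_cast
    have h5 : (0 : ℝ) ≤ (Y : ℝ) ^ 2 := by positivity
    linarith
  have h4 : 100 * (F1.card + F2.card) ≤ Y ^ 2 := by exact_mod_cast h3
  exact (Nat.mul_le_mul_left 100 hfin).trans h4

end Pool.Agent.T2h88.GP
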