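import Pool.Agent.T2h88.GP.Stm2

set_option autoImplicit false

/-!
# (TF) primes which divide the modulus once
-/

namespace Pool.Agent.T2h88.GP

namespace TF

/-- numbers in one residue class -/
theorem cls (p Y : ℕ) (S : Finset ℕ) (hS : ∀ y ∈ S, y < Y)
    (h : ∀ y ∈ S, ∀ y' ∈ S, y % p = y' % p) : S.card ≤ Y / p + 1 := by
  have h1 : S.card ≤ (Finset.range (Y / p + 1)).card := by
    refine Finset.card_le_card_of_injOn (fun y => y / p) (fun y hy => ?_) ?_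
    · rw [Finset.mem_coe, Finset.mem_range]
      exact Nat.lt_succ_of_le (Nat.div_le_div_right (hS y hy).le)
    · intro y hy y' hy' hyy
      have h2 := h y hy y' hy'
      have h3 : y / p = y' / p := hyy
      rw [← Nat.div_add_mod y p, ← Nat.div_add_mod y' p, h2, h3]
  rwa [Finset.card_range] at h1

end TF

open TF in
theorem t_TF : S_TF := by
  classical
  intro M z Y v₀ hM hz
  have h1 : ((Finset.range Y).filter fun y : ℕ => ∃ p : ℕ, p.Prime ∧ p ∣ M ∧ ¬ p ^ 2 ∣ M ∧ z < p ∧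
      p ^ 2 ∣ v₀ + M * (y + 1)) ⊆ M.primeFactors.biUnion fun p =>
        (Finset.range Y).filter fun y : ℕ => p.Prime ∧ p ∣ M ∧ ¬ p ^ 2 ∣ M ∧ z < p ∧
          p ^ 2 ∣ v₀ + M * (y + 1) := by
    intro y hy
    rw [Finset.mem_filter] at hy
    obtain ⟨hy, p, hp, hpM, h2⟩ := hy
    rw [Finset.mem_biUnion]
    exact ⟨p, Nat.mem_primeFactors.2 ⟨hp, hpM, hM.ne'⟩, Finset.mem_filter.2 ⟨hy, hp, hpM, h2⟩⟩
  refine (Finset.card_le_card (by convert h1)).trans ?_
  refine Finset.card_biUnion_le_card_mul _ _ _ fun p _ => ?_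
  by_cases hne : ((Finset.range Y).filter fun y : ℕ => p.Prime ∧ p ∣ M ∧ ¬ p ^ 2 ∣ M ∧ z < p ∧
          p ^ 2 ∣ v₀ + M * (y + 1)).Nonempty
  · obtain ⟨y0, hy0⟩ := hne
    rw [Finset.mem_filter] at hy0
    obtain ⟨-, hp, hpM, hp2, hzp, -⟩ := hy0
    refine (cls p Y _ (fun y hy => Finset.mem_range.1 (Finset.mem_filter.1 hy).1) ?_).trans
      (Nat.add_le_add_right (Nat.div_le_div_left hzp.le hz) 1)
    intro y hy y' hy'
    have a1 := (Finset.mem_filter.1 hy).2.2.2.2.2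
    have a2 := (Finset.mem_filter.1 hy').2.2.2.2.2
    obtain ⟨M', rfl⟩ := hpM
    have b1 : ((p : ℤ) ^ 2) ∣ (v₀ : ℤ) + (p * M' : ℤ) * (y + 1) := by exact_mod_cast a1
    have b2 : ((p : ℤ) ^ 2) ∣ (v₀ : ℤ) + (p * M' : ℤ) * (y' + 1) := by exact_mod_cast a2
    have b3 : ((p : ℤ) * p) ∣ (p : ℤ) * (M' * ((y' : ℤ) - y)) := by
      have := dvd_sub b2 b1
      rw [show (v₀ : ℤ) + (p * M' : ℤ) * (y' + 1) - ((v₀ : ℤ) + (p * M' : ℤ) * (y + 1)) =
        (p : ℤ) * (M' * ((y' : ℤ) - y)) by ring, sq] at this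
      exact this
    have hp0 : (p : ℤ) ≠ 0 := by exact_mod_cast hp.ne_zero
    have b4 : (p : ℤ) ∣ M' * ((y' : ℤ) - y) := (mul_dvd_mul_iff_left hp0).1 b3
    have hp' : Prime (p : ℤ) := Nat.prime_iff_prime_int.1 hp
    rcases hp'.dvd_or_dvd b4 with b5 | b5
    · exfalso
      apply hp2
      rw [sq]
      exact mul_dvd_mul_left p (by exact_mod_cast b5)
    · have b6 : (y : ℤ) ≡ y' [ZMOD p] := (Int.modEq_iff_dvd).2 b5
      exact (Int.natCast_modEq_iff.1 b6)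
  · rw [Finset.not_nonempty_iff_eq_empty] at hne
    rw [hne, Finset.card_empty]
    exact Nat.zero_le _

end Pool.Agent.T2h88.GP
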