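import Pool.Agent.T2h88.GP.T_INI
import Pool.Agent.T2h88.GP.T_DBL
import Pool.Agent.T2h88.GP.T_SUB
import Pool.Agent.T2h88.GP.T_REP
import Pool.Agent.T2h88.GP.T_HEN
import Pool.Agent.T2h88.GP.T_LOC
import Pool.Agent.T2h88.GP.T_PEL
import Pool.Agent.T2h88.GP.T_BIG
import Pool.Agent.T2h88.GP.T_CNT
import Pool.Agent.T2h88.GP.T_SIV
import Pool.Agent.T2h88.GP.T_MAIN

/-! # Project GP, assembly (helper88; parts by helpers 7, 16, 48, 53, 58) -/

set_option autoImplicit false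

namespace Pool.Agent.T2h88.GP

theorem main : S_MAIN :=
  t_MAIN (t_REP t_INI t_DBL t_SUB) (t_LOC t_HEN) (t_SIV (t_BIG t_PEL) t_CNT)

end Pool.Agent.T2h88.GP
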