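import Pool.Agent.T2h88.GP.T_JAC
import Pool.Agent.T2h88.GP.T_GOOD
import Pool.Agent.T2h88.GP.T_BAD
import Pool.Agent.T2h88.GP.T_LCN
import Pool.Agent.T2h88.GP.T_OM
import Pool.Agent.T2h88.GP.T_SQR
import Pool.Agent.T2h88.GP.T_PRA
import Pool.Agent.T2h88.GP.T_TE
import Pool.Agent.T2h88.GP.T_TF
import Pool.Agent.T2h88.GP.T_PAIR
import Pool.Agent.T2h88.GP.T_DIV
import Pool.Agent.T2h88.GP.T_LNK

/-! # Project LN, assembly (helper88; parts by helpers 26, 49, 64, 67, 71, 94) -/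

set_option autoImplicit false

namespace Pool.Agent.T2h88.GP

theorem main2 : S_LNK :=
  t_LNK (t_PAIR (t_LCN (t_GOOD t_JAC) t_BAD) (t_PRA t_OM t_SQR) t_TE t_TF) t_OM t_DIV

end Pool.Agent.T2h88.GP
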