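import Pool.Agent.T2h88.GP.Top2
import Pool.Agent.T2h88.GP.T_LNKE

/-! # Project LN, assembly of the even case (helper88; parts by helpers 26, 49, 64, 67, 71, 94) -/

set_option autoImplicit false

namespace Pool.Agent.T2h88.GP

theorem main3 : S_LNKE :=
  t_LNKE (t_PAIR (t_LCN (t_GOOD t_JAC) t_BAD) (t_PRA t_OM t_SQR) t_TE t_TF) t_OM t_DIV

end Pool.Agent.T2h88.GP
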